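import Pool.Agent.H61S.Numer

/-!
The lower bound: with at most `exp (n ^ (2μ + c))` states no algorithm finds independent sets with
`(1 + μ + ε) log_b n` vertices with probability more than `n ^ (-c)`.
-/

set_option autoImplicit false
set_option linter.unusedSectionVars false

namespace Pool.Agent.H61S

open Finset Pool.Agent.H85.Online Pool.Agent.H72.Karp Filter

variable {p : ℝ}

theorem third_small {n : ℕ} (h1 : p < 1) {a c lam μ ε β Λ : ℝ} {s k z f : ℕ} (hμ0 : 0 ≤ μ)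
    (hμ1 : μ ≤ 1) (hε : 0 < ε) (hε1 : ε ≤ 1) (hc : c = ε ^ 2 / 80) (ha0 : 0 < a)
    (hea : Real.exp (-a) = 1 - p) (hβ : β = a * (1 - c)) (hs1 : (s : ℝ) ≤ lam / a)
    (hs2 : lam / a < s + 1) (hk1 : (1 + μ + ε) * (lam / a) ≤ k)
    (hk2 : (k : ℝ) < (1 + μ + ε) * (lam / a) + 1) (hz1 : (z : ℝ) ≤ c * (lam / a)) (hsk : s ≤ k)
    (hf : 2 * f = (k - s) * (2 * s + (k - s) - 1)) (h4 : 4 ≤ lam) (ha : a ≤ lam)
    (e2 : a * (8 + 2 / a + 3) / (ε ^ 2 / 4) ≤ lam) (hnexp : (n : ℝ) = Real.exp lam)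
    (hn1exp : (n : ℝ) + 1 ≤ Real.exp (lam + 1)) (hspos : 0 < s) (hΛ0 : 0 ≤ Λ)
    (hΛexp : Λ ≤ Real.exp (c * lam)) :
    ((n : ℝ) + 1) * ((n : ℝ) ^ (k - s) * (1 - p) ^ f * NB n s z Λ β ((μ + 3 * c) * lam))
      ≤ Real.exp (-lam) := by
  have hc0 : 0 < c := by rw [hc]; positivity
  have hn0 : (0 : ℝ) < n := by rw [hnexp]; exact Real.exp_pos _
  have h2 : (n : ℝ) ^ (k - s) = Real.exp ((k - s : ℝ) * lam) := by
    rw [hnexp, ← Real.exp_nat_mul, Nat.cast_sub hsk]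
  have h3 : (1 - p) ^ f = Real.exp (-(a * f)) := by
    rw [← hea, ← Real.exp_nat_mul]
    congr 1
    ring
  have h4' : ((n : ℝ) + 1) ^ z ≤ Real.exp (z * (lam + 1)) := by
    rw [Real.exp_nat_mul]
    exact pow_le_pow_left₀ (by positivity) hn1exp z
  have h5 : (s : ℝ) + 1 ≤ Real.exp s := Real.add_one_le_exp _
  have h6 : Λ ^ s ≤ Real.exp (s * (c * lam)) := by
    rw [Real.exp_nat_mul]
    exact pow_le_pow_left₀ hΛ0 hΛexp s
  have hE : ∀ y : ℝ, 0 < Real.exp y := Real.exp_pos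
  have h7 : NB n s z Λ β ((μ + 3 * c) * lam)
      ≤ Real.exp (lam + 1) * (Real.exp s * (Real.exp (s * (c * lam)) *
        Real.exp (((μ + 3 * c) * lam) ^ 2 / (2 * β) + (μ + 3 * c) * lam)) *
        Real.exp (z * (lam + 1))) := by
    unfold NB
    refine mul_le_mul hn1exp ?_ (by positivity) (hE _).le
    refine mul_le_mul ?_ h4' (by positivity) (by positivity)
    refine mul_le_mul h5 ?_ (by positivity) (hE _).le
    exact mul_le_mul_of_nonneg_right h6 (hE _).le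
  have hNB0 : 0 ≤ NB n s z Λ β ((μ + 3 * c) * lam) := by
    unfold NB
    positivity
  have h8 : ((n : ℝ) + 1) * ((n : ℝ) ^ (k - s) * (1 - p) ^ f *
      NB n s z Λ β ((μ + 3 * c) * lam))
      ≤ Real.exp (lam + 1) * (Real.exp ((k - s : ℝ) * lam) * Real.exp (-(a * f)) *
        (Real.exp (lam + 1) * (Real.exp s * (Real.exp (s * (c * lam)) *
        Real.exp (((μ + 3 * c) * lam) ^ 2 / (2 * β) + (μ + 3 * c) * lam)) *
        Real.exp (z * (lam + 1))))) := by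
    rw [h2, h3]
    refine mul_le_mul hn1exp ?_ (by positivity) (hE _).le
    exact mul_le_mul_of_nonneg_left h7 (by positivity)
  refine h8.trans ?_
  have h9 : Real.exp (lam + 1) * (Real.exp ((k - s : ℝ) * lam) * Real.exp (-(a * f)) *
        (Real.exp (lam + 1) * (Real.exp s * (Real.exp (s * (c * lam)) *
        Real.exp (((μ + 3 * c) * lam) ^ 2 / (2 * β) + (μ + 3 * c) * lam)) *
        Real.exp (z * (lam + 1)))))
      = Real.exp (lam + 1 + ((k - s) * lam + -(a * f) + (lam + 1 + (s + (s * (c * lam) +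
      (((μ + 3 * c) * lam) ^ 2 / (2 * β) + (μ + 3 * c) * lam)) + z * (lam + 1))))) := by
    simp only [Real.exp_add]
  rw [h9]
  apply Real.exp_le_exp.2
  have hff : 2 * (f : ℝ) = (k - s) * (k + s - 1) := by
    have h9 : ((2 * f : ℕ) : ℝ) = (((k - s) * (2 * s + (k - s) - 1) : ℕ) : ℝ) := by
      exact_mod_cast hf
    have h10 : 1 ≤ 2 * s + (k - s) := by omega
    rw [Nat.cast_mul, Nat.cast_mul, Nat.cast_sub h10, Nat.cast_add, Nat.cast_sub hsk,
      Nat.cast_mul] at h9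
    push_cast at h9
    linarith
  exact exponent hμ0 hμ1 hε hε1 hc ha0 hβ hs1 hs2 hk1 hk2 hz1 hff h4 ha e2

theorem lower (h0 : 0 < p) (h1 : p < 1) {μ ε : ℝ} (hμ0 : 0 ≤ μ) (hμ1 : μ ≤ 1) (hε : 0 < ε)
    (hε1 : ε ≤ 1) : ∀ᶠ n : ℕ in atTop, ∀ (Q : Type) [Fintype Q] (A : RowAlg n Q),
      (Fintype.card Q : ℝ) ≤ Real.exp ((n : ℝ) ^ (2 * μ + ε ^ 2 / 80)) →
      Prob p (fun G => Indep G (A.result G) ∧ (1 + μ + ε) * LL p n ≤ (A.result G).card)
        ≤ (n : ℝ) ^ (-(ε ^ 2 / 80)) := by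
  obtain ⟨c, hc⟩ : ∃ c : ℝ, c = ε ^ 2 / 80 := ⟨_, rfl⟩
  rw [← hc]
  have hc0 : 0 < c := by rw [hc]; positivity
  have hc1 : c ≤ 1 / 80 := by
    rw [hc]
    have : ε ^ 2 ≤ 1 := by nlinarith
    linarith
  obtain ⟨a, ha⟩ : ∃ a : ℝ, a = -Real.log (1 - p) := ⟨_, rfl⟩
  have ha0 : 0 < a := by rw [ha]; exact neg_log_pos h0 h1
  have hea : Real.exp (-a) = 1 - p := by rw [ha, neg_neg, Real.exp_log (by linarith)]
  obtain ⟨β, hβ⟩ : ∃ β : ℝ, β = a * (1 - c) := ⟨_, rfl⟩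
  have hβ0 : 0 < β := by rw [hβ]; exact mul_pos ha0 (by linarith)
  have hβa : β < a := by
    rw [hβ]
    exact mul_lt_of_lt_one_right ha0 (by linarith)
  have hgap : 1 - p < Real.exp (-β) := by
    rw [← hea]
    exact Real.exp_lt_exp.2 (by linarith)
  obtain ⟨η, hη⟩ : ∃ η : ℝ, η = (Real.exp (-β) - (1 - p)) / 2 := ⟨_, rfl⟩
  have hη0 : 0 < η := by rw [hη]; linarith
  have hη1 : η ≤ 1 := by
    rw [hη]
    have : Real.exp (-β) ≤ 1 := Real.exp_le_one_iff.2 (by linarith)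
    linarith
  filter_upwards [log_nat_tendsto.eventually_ge_atTop 4,
    log_nat_tendsto.eventually_ge_atTop (a * (8 + 2 / a + 3) / (ε ^ 2 / 4)),
    log_nat_tendsto.eventually_ge_atTop (2 * a * (3 + a) / c ^ 2),
    log_nat_tendsto.eventually_ge_atTop (2 / c), log_nat_tendsto.eventually_ge_atTop a,
    poly_le_exp (4 / a ^ 2) 2 hc0, poly_le_exp 4 1 hc0,
    poly_le_exp ((12 / η ^ 2 + 1) * (2 + 1 / η) + 1) 1 hc0, eventually_ge_atTop 2]
    with n e1 e2 e3 e4 e5 g1 g2 g3 hn2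
  intro Q _ A hK
  obtain ⟨lam, hlam⟩ : ∃ lam : ℝ, lam = Real.log (n : ℝ) := ⟨_, rfl⟩
  rw [← hlam] at e1 e2 e3 e4 e5 g1 g2 g3
  rw [pow_one] at g2 g3
  have hn0 : (0 : ℝ) < n := by
    exact_mod_cast (show 0 < n by omega)
  have hn1 : (1 : ℝ) ≤ n := by
    exact_mod_cast (show 1 ≤ n by omega)
  have hnexp : (n : ℝ) = Real.exp lam := by rw [hlam, Real.exp_log hn0]
  have hrp : ∀ y : ℝ, (n : ℝ) ^ y = Real.exp (y * lam) := by
    intro y
    rw [Real.rpow_def_of_pos hn0, ← hlam, mul_comm]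
  have hlam0 : 0 < lam := by linarith
  have hLL : LL p n = lam / a := by rw [LL_eq, ← ha, ← hlam]
  rw [hrp] at hK ⊢
  have hclam : 2 ≤ c * lam := by
    rw [div_le_iff₀ hc0] at e4
    linarith
  -- the integers
  obtain ⟨s, hs⟩ : ∃ s : ℕ, s = ⌊lam / a⌋₊ := ⟨_, rfl⟩
  have hs1 : (s : ℝ) ≤ lam / a := by rw [hs]; exact Nat.floor_le (by positivity)
  have hs2 : lam / a < s + 1 := by rw [hs]; exact Nat.lt_floor_add_one _
  have hspos : 0 < s := by
    rw [hs, Nat.floor_pos, le_div_iff₀ ha0]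
    linarith
  obtain ⟨k, hk⟩ : ∃ k : ℕ, k = ⌈(1 + μ + ε) * (lam / a)⌉₊ := ⟨_, rfl⟩
  have hk1 : (1 + μ + ε) * (lam / a) ≤ k := by rw [hk]; exact Nat.le_ceil _
  have hk2 : (k : ℝ) < (1 + μ + ε) * (lam / a) + 1 := by
    rw [hk]
    exact Nat.ceil_lt_add_one (by positivity)
  have hLpos : 0 < lam / a := by positivity
  have hsk : s ≤ k := by
    have : (s : ℝ) ≤ k := by
      refine hs1.trans (le_trans ?_ hk1)
      have h2 : (0 : ℝ) ≤ (μ + ε) * (lam / a) := by positivity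
      have h3 : (1 + μ + ε) * (lam / a) = lam / a + (μ + ε) * (lam / a) := by ring
      rw [h3]
      linarith
    exact_mod_cast this
  obtain ⟨z, hz⟩ : ∃ z : ℕ, z = ⌊c * (lam / a)⌋₊ := ⟨_, rfl⟩
  have hz1 : (z : ℝ) ≤ c * (lam / a) := by rw [hz]; exact Nat.floor_le (by positivity)
  have hz2 : c * (lam / a) < z + 1 := by rw [hz]; exact Nat.lt_floor_add_one _
  obtain ⟨e, he⟩ : ∃ e : ℕ, e = (z + 1) * (z + 1) / 2 := ⟨_, rfl⟩
  have he1 : 2 * e ≤ (z + 1) * (z + 1) := by omega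
  have he2 : (z + 1) * (z + 1) ≤ 2 * e + 1 := by omega
  have he3 : 2 * lam + 1 ≤ a * e := e_large ha0 hc0 (by linarith) e3 hz2 he2
  have hepos : 0 < e := by
    rcases Nat.eq_zero_or_pos e with h | h
    · rw [h] at he3
      simp only [Nat.cast_zero, mul_zero] at he3
      linarith
    · exact h
  obtain ⟨ℓ, hℓ⟩ : ∃ ℓ : ℕ, ℓ = ⌈12 * lam / η ^ 2⌉₊ := ⟨_, rfl⟩
  have hℓ1 : 12 * lam / η ^ 2 ≤ ℓ := by rw [hℓ]; exact Nat.le_ceil _
  have hℓ2 : (ℓ : ℝ) < 12 * lam / η ^ 2 + 1 := by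
    rw [hℓ]
    exact Nat.ceil_lt_add_one (by positivity)
  have hℓpos : 0 < ℓ := by
    have : (0 : ℝ) < ℓ := lt_of_lt_of_le (by positivity) hℓ1
    exact_mod_cast this
  obtain ⟨Λ, hΛ⟩ : ∃ Λ : ℝ, Λ = ℓ * (2 + 1 / η) + 1 := ⟨_, rfl⟩
  have hℓr : (1 : ℝ) ≤ ℓ := by exact_mod_cast hℓpos
  have hηi : 0 < 1 / η := by positivity
  have hΛ0' : ℓ * (1 / η) = ℓ / η := by ring
  have hΛ00 : 0 ≤ (ℓ : ℝ) / η := by positivity
  have hΛ1 : (ℓ : ℝ) + 1 ≤ Λ := by
    rw [hΛ, mul_add, hΛ0']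
    linarith
  have hΛ2 : 2 * (ℓ : ℝ) ≤ Λ := by
    rw [hΛ, mul_add, hΛ0']
    linarith
  have hΛ3 : (ℓ : ℝ) ≤ η * Λ := by
    rw [hΛ]
    have : η * (ℓ * (2 + 1 / η) + 1) = ℓ + η * (2 * ℓ + 1) := by
      field_simp
      ring
    rw [this]
    have := mul_pos hη0 (show (0 : ℝ) < 2 * ℓ + 1 by linarith)
    linarith
  have hΛexp : Λ ≤ Real.exp (c * lam) := by
    refine le_trans ?_ g3
    rw [hΛ]
    have h2 : (ℓ : ℝ) ≤ (12 / η ^ 2 + 1) * lam := by
      have : 12 * lam / η ^ 2 = 12 / η ^ 2 * lam := by ring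
      rw [this] at hℓ2
      rw [add_mul]
      linarith
    have h3 : (ℓ : ℝ) * (2 + 1 / η) ≤ (12 / η ^ 2 + 1) * lam * (2 + 1 / η) :=
      mul_le_mul_of_nonneg_right h2 (by positivity)
    have h4 : ((12 / η ^ 2 + 1) * (2 + 1 / η) + 1) * lam
        = (12 / η ^ 2 + 1) * lam * (2 + 1 / η) + lam := by ring
    rw [h4]
    linarith
  obtain ⟨d, hd⟩ : ∃ d : ℕ, d = ⌈Real.exp ((μ + 2 * c) * lam)⌉₊ := ⟨_, rfl⟩
  have hd1 : Real.exp ((μ + 2 * c) * lam) ≤ d := by rw [hd]; exact Nat.le_ceil _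
  have hd2 : (d : ℝ) < Real.exp ((μ + 2 * c) * lam) + 1 := by
    rw [hd]
    exact Nat.ceil_lt_add_one (Real.exp_pos _).le
  obtain ⟨δ, hδ⟩ : ∃ δ : ℝ, δ = Real.exp (-(2 * c * lam)) := ⟨_, rfl⟩
  have hδ0 : 0 < δ := by rw [hδ]; exact Real.exp_pos _
  have hδ1 : δ ≤ 1 := by
    rw [hδ]
    exact Real.exp_le_one_iff.2 (by linarith)
  obtain ⟨M, hM⟩ : ∃ M : ℝ, M = Real.exp ((2 * μ + c) * lam) := ⟨_, rfl⟩
  rw [← hM] at hK
  have hM0 : 0 < M := by rw [hM]; exact Real.exp_pos _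
  obtain ⟨τ, hτ⟩ : ∃ τ : ℝ, τ = δ / ((n + 1) * Real.exp M) := ⟨_, rfl⟩
  have hτ0 : 0 < τ := by rw [hτ]; positivity
  have hn1exp : (n : ℝ) + 1 ≤ Real.exp (lam + 1) := by
    rw [Real.exp_add, ← hnexp]
    have h2 := Real.add_one_le_exp (1 : ℝ)
    have h4 : (n : ℝ) * 2 ≤ n * Real.exp 1 := mul_le_mul_of_nonneg_left (by linarith) hn0.le
    linarith
  -- the parameters are admissible
  have hP : Par p n δ τ ℓ s e z d (1 - p + η) η β Λ ((μ + 3 * c) * lam) := by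
    refine ⟨by linarith, hη0, hℓpos, hβ0, ?_, hΛ1, hΛ2, hΛ3, hepos, he1, by positivity, ?_, hδ0,
      hδ1, hτ0, ?_, ?_⟩
    · rw [hη]
      linarith
    · have h2 : 3 ≤ Real.exp (c * lam) := by
        have := Real.add_one_le_exp (c * lam)
        linarith
      have h3 : 1 ≤ Real.exp ((μ + 2 * c) * lam) := Real.one_le_exp (by positivity)
      have h4 : Real.exp ((μ + 3 * c) * lam)
          = Real.exp ((μ + 2 * c) * lam) * Real.exp (c * lam) := by
        rw [← Real.exp_add]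
        congr 1
        ring
      have h5 : Real.exp ((μ + 2 * c) * lam) * 3
          ≤ Real.exp ((μ + 2 * c) * lam) * Real.exp (c * lam) :=
        mul_le_mul_of_nonneg_left h2 (Real.exp_pos _).le
      rw [h4]
      linarith
    · have h2 : (1 - p) ^ e = Real.exp (-(a * e)) := by
        rw [← hea, ← Real.exp_nat_mul]
        congr 1
        ring
      have h3 : (n : ℝ) ^ 2 = Real.exp (2 * lam) := by
        rw [hnexp, ← Real.exp_nat_mul]
        norm_num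
      rw [h2, h3, ← Real.exp_add]
      exact Real.exp_le_exp.2 (by linarith)
    · exact d_large ha0 hM hδ hs1 (log_state hnexp e1 hμ0 hc0 hc1 hδ hM hτ g2) hd1 g1
  -- the number of pairs in the extension
  obtain ⟨f, hf⟩ : ∃ f : ℕ, 2 * f = (k - s) * (2 * s + (k - s) - 1) := by
    have hev : Even ((k - s) * (2 * s + (k - s) - 1)) := by
      rcases Nat.even_or_odd (k - s) with h | h
      · exact h.mul_right _
      · refine Even.mul_left ?_ _
        obtain ⟨j, hj⟩ := h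
        rw [hj]
        exact ⟨s + j, by omega⟩
    obtain ⟨f, hf⟩ := hev
    exact ⟨f, by omega⟩
  have hfin := finite_bound h0 h1 hP A hspos hsk hf
  have hev : Prob p (fun G => Indep G (A.result G) ∧ (1 + μ + ε) * LL p n ≤ (A.result G).card)
      ≤ Prob p (fun G => Indep G (A.result G) ∧ k ≤ (A.result G).card) := by
    refine Prob_mono h0 h1 fun G hG => ⟨hG.1, ?_⟩
    rw [hk]
    refine Nat.ceil_le.2 ?_
    rw [← hLL]
    exact hG.2
  refine hev.trans (hfin.trans ?_)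
  -- the four terms
  have t1 : Prob p (fun G : SimpleGraph (Fin n) => ¬ Balanced Finset.univ ℓ (1 - p + η) G)
      ≤ Real.exp (1 - lam) := by
    have h2 : 12 * Real.log n ≤ η ^ 2 * ℓ := by
      rw [← hlam]
      have := (div_le_iff₀ (show 0 < η ^ 2 by positivity)).1 hℓ1
      linarith
    refine (prob_not_balanced h0 h1 hη0 hη1 (by omega) h2).trans ?_
    have h3 : ((n : ℝ)⁻¹) ^ ℓ ≤ (n : ℝ)⁻¹ := by
      calc ((n : ℝ)⁻¹) ^ ℓ ≤ ((n : ℝ)⁻¹) ^ 1 :=
            pow_le_pow_of_le_one (by positivity) (inv_le_one_of_one_le₀ hn1) hℓpos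
        _ = (n : ℝ)⁻¹ := pow_one _
    calc Real.exp 1 * ((n : ℝ)⁻¹) ^ ℓ ≤ Real.exp 1 * (n : ℝ)⁻¹ :=
          mul_le_mul_of_nonneg_left h3 (Real.exp_pos _).le
      _ = Real.exp (1 - lam) := by
          rw [hnexp, ← Real.exp_neg, ← Real.exp_add]
          congr 1
  have t2 : ((n : ℝ) + 1) * (Fintype.card Q * τ) ≤ δ := by
    calc ((n : ℝ) + 1) * (Fintype.card Q * τ) ≤ ((n : ℝ) + 1) * (Real.exp M * τ) := by
          refine mul_le_mul_of_nonneg_left ?_ (by positivity)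
          exact mul_le_mul_of_nonneg_right hK hτ0.le
      _ = δ := by
          rw [hτ]
          field_simp
  have t3 := third_small h1 hμ0 hμ1 hε hε1 hc ha0 hea hβ hs1 hs2 hk1 hk2 hz1 hsk hf e1 e5 e2
    hnexp hn1exp hspos (by linarith) hΛexp
  have t4 : Real.exp (1 - lam) + Real.exp (-lam) ≤ δ := by
    have h2 : Real.exp (1 - lam) + Real.exp (-lam) ≤ Real.exp (2 - lam) := by
      have e6 : Real.exp (1 - lam) = Real.exp 1 * Real.exp (-lam) := by
        rw [← Real.exp_add]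
        congr 1
      have e7 : Real.exp (2 - lam) = Real.exp 1 * Real.exp 1 * Real.exp (-lam) := by
        rw [← Real.exp_add, ← Real.exp_add]
        congr 1
        ring
      rw [e6, e7]
      have h3 := Real.add_one_le_exp (1 : ℝ)
      have h4 := Real.exp_pos (-lam)
      have h5 : (Real.exp 1 + 1) * Real.exp (-lam) ≤ Real.exp 1 * Real.exp 1 * Real.exp (-lam) := by
        refine mul_le_mul_of_nonneg_right ?_ h4.le
        nlinarith
      linarith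
    refine h2.trans ?_
    rw [hδ]
    apply Real.exp_le_exp.2
    have : 2 * c * lam ≤ 2 * (1 / 80) * lam :=
      mul_le_mul_of_nonneg_right (by linarith) hlam0.le
    linarith
  have t5 : 3 * δ ≤ Real.exp (-c * lam) := by
    have h3 : 3 ≤ Real.exp (c * lam) := by
      have := Real.add_one_le_exp (c * lam)
      linarith
    have h4 : Real.exp (-c * lam) = Real.exp (c * lam) * δ := by
      rw [hδ, ← Real.exp_add]
      congr 1
      ring
    rw [h4]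
    exact mul_le_mul_of_nonneg_right h3 hδ0.le
  linarith

end Pool.Agent.H61S
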