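import Pool.Agent.H72.Karp.Dense

/-!
Two facts about the random graph `G(n,p)`: events about the pairs inside the first `t` vertices are
independent of events about the other pairs, and with high probability no two large disjoint sets
have too many non-adjacent pairs between them.
-/

set_option autoImplicit false
set_option linter.unusedSectionVars false

namespace Pool.Agent.H61S

open Finset Pool.Agent.H85.Online Pool.Agent.H72.Karp

section mix

variable {ι : Type*} [Fintype ι] [DecidableEq ι] {p : ℝ}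

open Classical in
/-- the coordinates in `S` from the first configuration, the others from the second -/
noncomputable def mix (S : Set ι) (ω ω' : ι → Bool) : ι → Bool :=
  fun e => if e ∈ S then ω e else ω' e

theorem wt_mix (S : Set ι) (ω ω' : ι → Bool) :
    wt p (mix S ω ω') * wt p (mix S ω' ω) = wt p ω * wt p ω' := by
  classical
  unfold wt
  rw [← prod_mul_distrib, ← prod_mul_distrib]
  refine prod_congr rfl fun e _ => ?_
  unfold mix
  split_ifs
  · rfl
  · ring

theorem mix_mix (S : Set ι) (ω ω' : ι → Bool) : mix S (mix S ω ω') (mix S ω' ω) = ω := by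
  funext e
  unfold mix
  split_ifs <;> rfl

/-- independence of functions of disjoint sets of coordinates -/
theorem EE_indep_set (S : Set ι) (F G : (ι → Bool) → ℝ)
    (hF : ∀ ω ω' : ι → Bool, (∀ e ∈ S, ω e = ω' e) → F ω = F ω')
    (hG : ∀ ω ω' : ι → Bool, (∀ e, e ∉ S → ω e = ω' e) → G ω = G ω') :
    EE p (fun ω => F ω * G ω) = EE p F * EE p G := by
  classical
  have h1 : EE p F * EE p G
      = ∑ x : (ι → Bool) × (ι → Bool), (wt p x.1 * wt p x.2) * (F x.1 * G x.2) := by
    unfold EE
    rw [Finset.sum_mul_sum, Fintype.sum_prod_type]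
    exact sum_congr rfl fun ω _ => sum_congr rfl fun ω' _ => by ring
  have h2 : EE p (fun ω => F ω * G ω)
      = ∑ x : (ι → Bool) × (ι → Bool), (wt p x.1 * wt p x.2) * (F x.1 * G x.1) := by
    unfold EE
    rw [Fintype.sum_prod_type]
    refine sum_congr rfl fun ω _ => ?_
    calc wt p ω * (F ω * G ω) = wt p ω * (F ω * G ω) * ∑ ω' : ι → Bool, wt p ω' := by
          rw [wt_sum, mul_one]
      _ = _ := by
          rw [Finset.mul_sum]
          exact sum_congr rfl fun ω' _ => by ring
  rw [h1, h2]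
  symm
  refine Fintype.sum_equiv
    (Function.Involutive.toPerm
      (fun x : (ι → Bool) × (ι → Bool) => (mix S x.1 x.2, mix S x.2 x.1)) ?_) _ _ ?_
  · intro x
    simp only [mix_mix]
  · intro x
    change _ = (wt p (mix S x.1 x.2) * wt p (mix S x.2 x.1))
      * (F (mix S x.1 x.2) * G (mix S x.1 x.2))
    rw [wt_mix]
    rw [hF x.1 (mix S x.1 x.2) fun e he => by unfold mix; rw [if_pos he],
      hG x.2 (mix S x.1 x.2) fun e he => by unfold mix; rw [if_neg he]]

/-- the moment generating function of the number of zeros in a set of coordinates -/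
theorem mgf_zeros (F : Finset ι) (s : ℝ) :
    EE p (fun ω : ι → Bool => Real.exp (s * (F.filter fun e => ω e = false).card))
      = (p + (1 - p) * Real.exp s) ^ F.card := by
  classical
  have e1 : ∀ ω : ι → Bool, Real.exp (s * (F.filter fun e => ω e = false).card)
      = ∏ e, if e ∈ F then (if ω e = false then Real.exp s else 1) else 1 := by
    intro ω
    rw [Finset.prod_ite_mem, Finset.univ_inter, Finset.prod_ite, Finset.prod_const,
      Finset.prod_const_one, mul_one, ← Real.exp_nat_mul, mul_comm]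
  rw [EE_congr e1, EE_prod (fun e b => if e ∈ F then (if b = false then Real.exp s else 1) else 1)]
  have e2 : ∀ e : ι, ∑ b : Bool, bw p b *
      (if e ∈ F then (if b = false then Real.exp s else 1) else 1)
      = if e ∈ F then p + (1 - p) * Real.exp s else 1 := by
    intro e
    split_ifs
    · simp [bw]
    · simp [bw]
  simp only [e2]
  rw [Finset.prod_ite_mem, Finset.univ_inter, Finset.prod_const]

end mix

variable {n : ℕ} {p : ℝ}

/-- the two graphs have the same edges inside the first `t` vertices -/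
def AgreeOn (t : ℕ) (G H : SimpleGraph (Fin n)) : Prop :=
  ∀ u v : Fin n, (u : ℕ) < t → (v : ℕ) < t → (G.Adj u v ↔ H.Adj u v)

/-- the two graphs have the same edges outside the first `t` vertices -/
def AgreeOff (t : ℕ) (G H : SimpleGraph (Fin n)) : Prop :=
  ∀ u v : Fin n, (t ≤ (u : ℕ) ∨ t ≤ (v : ℕ)) → (G.Adj u v ↔ H.Adj u v)

theorem AgreeOn.symm {t : ℕ} {G H : SimpleGraph (Fin n)} (h : AgreeOn t G H) : AgreeOn t H G :=
  fun u v hu hv => (h u v hu hv).symm

theorem AgreeOff.symm {t : ℕ} {G H : SimpleGraph (Fin n)} (h : AgreeOff t G H) : AgreeOff t H G :=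
  fun u v hu => (h u v hu).symm

/-- the past and the future are independent -/
theorem Prob_cut (t : ℕ) (A B : SimpleGraph (Fin n) → Prop)
    (hA : ∀ G H, AgreeOn t G H → A G → A H) (hB : ∀ G H, AgreeOff t G H → B G → B H) :
    Prob p (fun G => A G ∧ B G) = Prob p A * Prob p B := by
  classical
  rw [Prob_eq, Prob_eq, Prob_eq, EG_eq, EG_eq, EG_eq,
    ← EE_indep_set {e : Prs (Fin n) | ∀ v ∈ e.1, (v : ℕ) < t}]
  · refine EE_congr fun ω => ?_
    by_cases h : A (gr ω) <;> by_cases h' : B (gr ω) <;> simp [h, h']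
  · intro ω ω' h
    have hag : AgreeOn t (gr ω) (gr ω') := by
      intro u v hu hv
      rw [gr_adj, gr_adj]
      refine exists_congr fun hd => ?_
      rw [h ⟨s(u, v), hd⟩]
      intro w hw
      rcases Sym2.mem_iff.1 hw with rfl | rfl <;> assumption
    have : A (gr ω) ↔ A (gr ω') := ⟨hA _ _ hag, hA _ _ hag.symm⟩
    simp only [this]
  · intro ω ω' h
    have hag : AgreeOff t (gr ω) (gr ω') := by
      intro u v huv
      rw [gr_adj, gr_adj]
      refine exists_congr fun hd => ?_
      rw [h ⟨s(u, v), hd⟩]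
      intro hw
      have h1 := hw u (Sym2.mem_mk_left u v)
      have h2 := hw v (Sym2.mem_mk_right u v)
      omega
    have : B (gr ω) ↔ B (gr ω') := ⟨hB _ _ hag, hB _ _ hag.symm⟩
    simp only [this]

open Classical in
/-- the number of non-adjacent pairs in `A × U` -/
noncomputable def nonadj (G : SimpleGraph (Fin n)) (A U : Finset (Fin n)) : ℕ :=
  ((A ×ˢ U).filter fun x => ¬ G.Adj x.1 x.2).card

open Classical in
/-- the pairs between `A` and `U` -/
noncomputable def crs (A U : Finset (Fin n)) : Finset (Prs (Fin n)) :=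
  Finset.univ.filter fun e => ∃ a ∈ A, ∃ u ∈ U, e.1 = s(a, u)

theorem cross_inj {A U : Finset (Fin n)} (h : Disjoint A U) {a u a' u' : Fin n} (ha : a ∈ A)
    (hu' : u' ∈ U) (he : s(a, u) = s(a', u')) : a = a' ∧ u = u' := by
  rcases Sym2.eq_iff.1 he with h1 | ⟨h1, h2⟩
  · exact h1
  · exact absurd ha (h1 ▸ (Finset.disjoint_right.1 h hu'))

theorem card_crs {A U : Finset (Fin n)} (h : Disjoint A U) :
    (crs A U).card = A.card * U.card := by
  classical
  rw [← Finset.card_product]
  symm
  refine Finset.card_bij (fun x hx => ⟨s(x.1, x.2), ?_⟩) ?_ ?_ ?_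
  · have hx' := Finset.mem_product.1 hx
    rw [Sym2.mk_isDiag_iff]
    intro he
    exact (Finset.disjoint_left.1 h hx'.1) (he ▸ hx'.2)
  · intro x hx
    have hx' := Finset.mem_product.1 hx
    exact Finset.mem_filter.2 ⟨Finset.mem_univ _, x.1, hx'.1, x.2, hx'.2, rfl⟩
  · intro x hx y hy he
    have hx' := Finset.mem_product.1 hx
    have hy' := Finset.mem_product.1 hy
    have := cross_inj h hx'.1 hy'.2 (congrArg Subtype.val he)
    exact Prod.ext this.1 this.2
  · intro e he
    obtain ⟨a, ha, u, hu, hau⟩ := (Finset.mem_filter.1 he).2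
    exact ⟨(a, u), Finset.mem_product.2 ⟨ha, hu⟩, Subtype.ext hau.symm⟩

theorem nonadj_gr {A U : Finset (Fin n)} (h : Disjoint A U) (ω : Prs (Fin n) → Bool) :
    nonadj (gr ω) A U = ((crs A U).filter fun e => ω e = false).card := by
  classical
  unfold nonadj
  refine Finset.card_bij (fun x hx => ⟨s(x.1, x.2), ?_⟩) ?_ ?_ ?_
  · have hx' := Finset.mem_product.1 (Finset.mem_filter.1 hx).1
    rw [Sym2.mk_isDiag_iff]
    intro he
    exact (Finset.disjoint_left.1 h hx'.1) (he ▸ hx'.2)
  · intro x hx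
    have hx0 := Finset.mem_filter.1 hx
    have hx' := Finset.mem_product.1 hx0.1
    refine Finset.mem_filter.2 ⟨Finset.mem_filter.2
      ⟨Finset.mem_univ _, x.1, hx'.1, x.2, hx'.2, rfl⟩, ?_⟩
    have h2 := hx0.2
    rw [gr_adj] at h2
    by_contra hne
    exact h2 ⟨_, by simpa using hne⟩
  · intro x hx y hy he
    have hx' := Finset.mem_product.1 (Finset.mem_filter.1 hx).1
    have hy' := Finset.mem_product.1 (Finset.mem_filter.1 hy).1
    have := cross_inj h hx'.1 hy'.2 (congrArg Subtype.val he)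
    exact Prod.ext this.1 this.2
  · intro e he
    have he0 := Finset.mem_filter.1 he
    obtain ⟨a, ha, u, hu, hau⟩ := (Finset.mem_filter.1 he0.1).2
    obtain ⟨e, hd⟩ := e
    simp only at hau
    subst hau
    refine ⟨(a, u), Finset.mem_filter.2 ⟨Finset.mem_product.2 ⟨ha, hu⟩, ?_⟩, rfl⟩
    rw [gr_adj]
    rintro ⟨hd', h2⟩
    rw [he0.2] at h2
    exact Bool.false_ne_true h2

/-- the upper tail of the number of non-adjacent pairs between two disjoint sets -/
theorem prob_nonadj (h0 : 0 < p) (h1 : p < 1) {δ : ℝ} (hδ : 0 < δ) (hδ1 : δ ≤ 1)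
    {A U : Finset (Fin n)} (h : Disjoint A U) :
    Prob p (fun G : SimpleGraph (Fin n) => (1 - p + δ) * (A.card * U.card) < nonadj G A U)
      ≤ Real.exp (-(δ ^ 2 / 4 * (A.card * U.card))) := by
  classical
  set N : ℝ := (A.card : ℝ) * U.card with hN
  set s : ℝ := δ / 2 with hs
  have hs0 : 0 < s := by positivity
  have hN0 : 0 ≤ N := by positivity
  have hmk : Prob p (fun G : SimpleGraph (Fin n) => (1 - p + δ) * N < nonadj G A U)
      ≤ EG p (fun G : SimpleGraph (Fin n) => Real.exp (s * nonadj G A U))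
        / Real.exp (s * ((1 - p + δ) * N)) := by
    refine Prob_le_div h0 h1 _ _ (fun G => (Real.exp_pos _).le) (Real.exp_pos _) ?_
    intro G hG
    exact Real.exp_le_exp.2 (mul_le_mul_of_nonneg_left hG.le hs0.le)
  have hE : EG p (fun G : SimpleGraph (Fin n) => Real.exp (s * nonadj G A U))
      = (p + (1 - p) * Real.exp s) ^ (A.card * U.card) := by
    rw [EG_eq, ← card_crs h, ← mgf_zeros]
    exact EE_congr fun ω => by rw [nonadj_gr h]
  rw [hE] at hmk
  refine hmk.trans ?_
  rw [div_le_iff₀ (Real.exp_pos _), ← Real.exp_add]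
  have hexp : Real.exp s - 1 ≤ s + s ^ 2 := by
    have h2 : |s| ≤ 1 := by
      rw [abs_of_pos hs0]
      linarith
    have h3 := Real.abs_exp_sub_one_sub_id_le h2
    have h4 := (abs_le.1 h3).2
    linarith
  have hb : p + (1 - p) * Real.exp s ≤ Real.exp ((1 - p) * (s + s ^ 2)) := by
    have h3 := Real.add_one_le_exp ((1 - p) * (s + s ^ 2))
    have h4 : (1 - p) * (Real.exp s - 1) ≤ (1 - p) * (s + s ^ 2) :=
      mul_le_mul_of_nonneg_left hexp (by linarith)
    linarith
  have hb0 : 0 ≤ p + (1 - p) * Real.exp s := by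
    have := Real.exp_pos s
    have : 0 ≤ (1 - p) * Real.exp s := mul_nonneg (by linarith) this.le
    linarith
  refine (pow_le_pow_left₀ hb0 hb _).trans ?_
  rw [← Real.exp_nat_mul]
  apply Real.exp_le_exp.2
  push_cast
  rw [← hN]
  have h7 : (1 - p) * (s + s ^ 2) ≤ -(δ ^ 2 / 4) + s * (1 - p + δ) := by
    have : (1 - p) * s ^ 2 ≤ 1 * s ^ 2 := mul_le_mul_of_nonneg_right (by linarith) (sq_nonneg s)
    rw [hs] at *
    nlinarith
  calc N * ((1 - p) * (s + s ^ 2)) ≤ N * (-(δ ^ 2 / 4) + s * (1 - p + δ)) :=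
        mul_le_mul_of_nonneg_left h7 hN0
    _ = -(δ ^ 2 / 4 * N) + s * ((1 - p + δ) * N) := by ring

/-- inside `V` no set of `ℓ` vertices has more than `θ` times the expected number of non-adjacent
pairs with a disjoint set which has at least `ℓ` vertices -/
def Balanced (V : Finset (Fin n)) (ℓ : ℕ) (θ : ℝ) (G : SimpleGraph (Fin n)) : Prop :=
  ∀ A U : Finset (Fin n), A ⊆ V → U ⊆ V → Disjoint A U → A.card = ℓ → ℓ ≤ U.card →
    (nonadj G A U : ℝ) ≤ θ * (ℓ * U.card)

theorem Balanced.mono {V W : Finset (Fin n)} {ℓ : ℕ} {θ : ℝ} {G : SimpleGraph (Fin n)}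
    (hVW : V ⊆ W) (h : Balanced W ℓ θ G) : Balanced V ℓ θ G :=
  fun A U hA hU => h A U (hA.trans hVW) (hU.trans hVW)

theorem prob_not_balanced (h0 : 0 < p) (h1 : p < 1) {δ : ℝ} (hδ : 0 < δ) (hδ1 : δ ≤ 1)
    (hn : 0 < n) {ℓ : ℕ} (hℓ : 12 * Real.log n ≤ δ ^ 2 * ℓ) :
    Prob p (fun G : SimpleGraph (Fin n) => ¬ Balanced Finset.univ ℓ (1 - p + δ) G)
      ≤ Real.exp 1 * ((n : ℝ)⁻¹) ^ ℓ := by
  classical
  have hn0 : (0 : ℝ) < n := by exact_mod_cast hn
  have hn1 : (1 : ℝ) ≤ n := by exact_mod_cast hn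
  have hi0 : 0 < (n : ℝ)⁻¹ := inv_pos.2 hn0
  have hi1 : (n : ℝ)⁻¹ ≤ 1 := inv_le_one_of_one_le₀ hn1
  calc Prob p (fun G : SimpleGraph (Fin n) => ¬ Balanced Finset.univ ℓ (1 - p + δ) G)
      ≤ Prob p (fun G : SimpleGraph (Fin n) =>
        ∃ x ∈ (Finset.powersetCard ℓ (Finset.univ : Finset (Fin n))) ×ˢ
          ((Finset.univ : Finset (Fin n)).powerset),
          Disjoint x.1 x.2 ∧ ℓ ≤ x.2.card ∧
            (1 - p + δ) * (x.1.card * x.2.card) < nonadj G x.1 x.2) := by
        refine Prob_mono h0 h1 fun G hG => ?_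
        unfold Balanced at hG
        push Not at hG
        obtain ⟨A, U, _, _, hd, hA, hU, hlt⟩ := hG
        refine ⟨(A, U), Finset.mem_product.2 ⟨Finset.mem_powersetCard.2
          ⟨Finset.subset_univ _, hA⟩, Finset.mem_powerset.2 (Finset.subset_univ _)⟩, hd, hU, ?_⟩
        simp only
        rw [hA]
        exact hlt
    _ ≤ ∑ x ∈ (Finset.powersetCard ℓ (Finset.univ : Finset (Fin n))) ×ˢ
          ((Finset.univ : Finset (Fin n)).powerset), Prob p (fun G : SimpleGraph (Fin n) =>
          Disjoint x.1 x.2 ∧ ℓ ≤ x.2.card ∧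
            (1 - p + δ) * (x.1.card * x.2.card) < nonadj G x.1 x.2) := Prob_exists h0 h1 _ _
    _ ≤ ∑ x ∈ (Finset.powersetCard ℓ (Finset.univ : Finset (Fin n))) ×ˢ
          ((Finset.univ : Finset (Fin n)).powerset),
          (((n : ℝ)⁻¹) ^ 2) ^ ℓ * ((n : ℝ)⁻¹) ^ x.2.card := by
        refine Finset.sum_le_sum fun x hx => ?_
        have hx' := Finset.mem_product.1 hx
        have hxA := (Finset.mem_powersetCard.1 hx'.1).2
        by_cases hc : Disjoint x.1 x.2 ∧ ℓ ≤ x.2.card
        · refine (Prob_mono h0 h1 fun G hG => hG.2.2).trans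
            ((prob_nonadj h0 h1 hδ hδ1 hc.1).trans ?_)
          rw [hxA]
          have e1 : Real.exp (-(δ ^ 2 / 4 * ((ℓ : ℝ) * x.2.card)))
              ≤ (((n : ℝ)⁻¹) ^ 3) ^ x.2.card := by
            rw [← Real.exp_log hi0, ← Real.exp_nat_mul, ← Real.exp_nat_mul, Real.log_inv]
            apply Real.exp_le_exp.2
            push_cast
            have : (3 * Real.log n) * x.2.card ≤ (δ ^ 2 / 4 * ℓ) * x.2.card :=
              mul_le_mul_of_nonneg_right (by linarith) (by positivity)
            nlinarith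
          refine e1.trans ?_
          calc (((n : ℝ)⁻¹) ^ 3) ^ x.2.card
              = (((n : ℝ)⁻¹) ^ 2) ^ x.2.card * ((n : ℝ)⁻¹) ^ x.2.card := by
                rw [← mul_pow, ← pow_succ]
            _ ≤ (((n : ℝ)⁻¹) ^ 2) ^ ℓ * ((n : ℝ)⁻¹) ^ x.2.card := by
                refine mul_le_mul_of_nonneg_right ?_ (by positivity)
                exact pow_le_pow_of_le_one (by positivity) (pow_le_one₀ hi0.le hi1) hc.2
        · refine le_trans (le_of_eq ?_) (show (0 : ℝ) ≤ _ by positivity)
          have : (fun G : SimpleGraph (Fin n) => Disjoint x.1 x.2 ∧ ℓ ≤ x.2.card ∧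
            (1 - p + δ) * (x.1.card * x.2.card) < nonadj G x.1 x.2) = fun _ => False := by
            funext G
            simp only [eq_iff_iff, iff_false]
            rintro ⟨a, b, _⟩
            exact hc ⟨a, b⟩
          rw [this]
          simp [Prob]
    _ = (n.choose ℓ : ℝ) * ((((n : ℝ)⁻¹) ^ 2) ^ ℓ * ((n : ℝ)⁻¹ + 1) ^ n) := by
        rw [Finset.sum_product]
        simp only
        rw [Finset.sum_const, Finset.card_powersetCard, Finset.card_univ, Fintype.card_fin,
          nsmul_eq_mul, ← Finset.mul_sum]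
        congr 2
        have h2 := Finset.sum_pow_mul_eq_add_pow ((n : ℝ)⁻¹) 1 (Finset.univ : Finset (Fin n))
        simp only [one_pow, mul_one, Finset.card_univ, Fintype.card_fin] at h2
        exact h2
    _ ≤ ((n : ℝ) ^ ℓ) * ((((n : ℝ)⁻¹) ^ 2) ^ ℓ * Real.exp 1) := by
        have h3 : ((n : ℝ)⁻¹ + 1) ^ n ≤ Real.exp 1 := by
          calc ((n : ℝ)⁻¹ + 1) ^ n ≤ Real.exp ((n : ℝ)⁻¹) ^ n :=
                pow_le_pow_left₀ (by positivity) (Real.add_one_le_exp _) _
            _ = Real.exp 1 := by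
                rw [← Real.exp_nat_mul, mul_inv_cancel₀ hn0.ne']
        have h4 : (n.choose ℓ : ℝ) ≤ (n : ℝ) ^ ℓ := by exact_mod_cast Nat.choose_le_pow n ℓ
        exact mul_le_mul h4 (mul_le_mul_of_nonneg_left h3 (by positivity)) (by positivity)
          (by positivity)
    _ = Real.exp 1 * ((n : ℝ)⁻¹) ^ ℓ := by
        have : (n : ℝ) ^ ℓ * (((n : ℝ)⁻¹) ^ 2) ^ ℓ = ((n : ℝ)⁻¹) ^ ℓ := by
          rw [← mul_pow]
          congr 1
          field_simp
        rw [← mul_assoc, this, mul_comm]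

end Pool.Agent.H61S
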