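import Pool.Agent.H61S.Model

/-!
One-pass algorithms which read a graph row by row and write a colouring on a write-only output.
For every vertex `v` there is an algorithm with little more memory which returns the first `k`
vertices of the colour class of `v` which are written from the moment when `v` is written.
-/

set_option autoImplicit false

namespace Pool.Agent.H61S

open Finset Pool.Agent.H85.Online Pool.Agent.H72.Karp

variable {n : ℕ} {Q : Type}

/-- A deterministic one-pass algorithm on graphs on `Fin n` with the set `Q` of memory states and a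
write-only output, with no bound on computation. In the state `q` it reads the row of the next
vertex `i`, writes the pairs `(vertex, colour)` in `write q i (row G i)`, and goes to the state
`step q i (row G i)`. It never reads what it has written. -/
structure ColAlg (n : ℕ) (Q : Type) where
  /-- the first state -/
  start : Q
  /-- the next state -/
  step : Q → Fin n → Finset (Fin n) → Q
  /-- what is written -/
  write : Q → Fin n → Finset (Fin n) → Finset (Fin n × Fin n)

/-- the state after the rows of the first `t` vertices -/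
noncomputable def ColAlg.state (B : ColAlg n Q) (G : SimpleGraph (Fin n)) : ℕ → Q
  | 0 => B.start
  | t + 1 => if h : t < n then B.step (B.state G t) ⟨t, h⟩ (row G ⟨t, h⟩) else B.state G t

/-- the pairs written when the row of `i` is read -/
noncomputable def ColAlg.writes (B : ColAlg n Q) (G : SimpleGraph (Fin n)) (i : Fin n) :
    Finset (Fin n × Fin n) := B.write (B.state G i) i (row G i)

/-- the pairs written up to the row of the last vertex are exactly the pairs `(v, f v)` -/
def ColAlg.Outputs (B : ColAlg n Q) (G : SimpleGraph (Fin n)) (f : Fin n → Fin n) : Prop :=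
  ∀ v c, (∃ i, (v, c) ∈ B.writes G i) ↔ f v = c

/-- at most `k` elements of `X`, all of them if `X` has at most `k` elements -/
noncomputable def cut (k : ℕ) (X : Finset (Fin n)) : {Y : Finset (Fin n) // Y.card ≤ k} :=
  if h : X.card ≤ k then ⟨X, h⟩ else
    ⟨(Finset.exists_subset_card_eq (le_of_not_ge h)).choose,
      (Finset.exists_subset_card_eq (le_of_not_ge h)).choose_spec.2.le⟩

theorem cut_sub (k : ℕ) (X : Finset (Fin n)) : (cut k X).1 ⊆ X := by
  unfold cut
  by_cases h : X.card ≤ k
  · rw [dif_pos h]
  · rw [dif_neg h]
    exact (Finset.exists_subset_card_eq (le_of_not_ge h)).choose_spec.1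

theorem cut_or (k : ℕ) (X : Finset (Fin n)) :
    (cut k X).1 = X ∨ (cut k X).1.card = k := by
  unfold cut
  by_cases h : X.card ≤ k
  · rw [dif_pos h]
    exact Or.inl rfl
  · rw [dif_neg h]
    exact Or.inr (Finset.exists_subset_card_eq (le_of_not_ge h)).choose_spec.2

theorem cut_card {k : ℕ} {X : Finset (Fin n)} (hX : k ≤ X.card) : (cut k X).1.card = k := by
  rcases cut_or k X with h | h
  · have := (cut k X).2
    rw [h] at this
    rw [h]
    omega
  · exact h

/-- the vertices which get the colour `c` in `W` -/
def cls (W : Finset (Fin n × Fin n)) (c : Fin n) : Finset (Fin n) :=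
  Finset.univ.filter fun u => (u, c) ∈ W

theorem mem_cls {W : Finset (Fin n × Fin n)} {c u : Fin n} : u ∈ cls W c ↔ (u, c) ∈ W := by
  unfold cls
  simp

/-- how the collected part changes when `W` is written -/
noncomputable def next (v : Fin n) (k : ℕ) (W : Finset (Fin n × Fin n)) :
    Option (Fin n × {Y : Finset (Fin n) // Y.card ≤ k}) →
      Option (Fin n × {Y : Finset (Fin n) // Y.card ≤ k})
  | some x => some (x.1, cut k (x.2.1 ∪ cls W x.1))
  | none => if h : ∃ c, (v, c) ∈ W then some (h.choose, cut k (cls W h.choose)) else none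

/-- the algorithm which collects the class of `v` -/
noncomputable def follow (B : ColAlg n Q) (v : Fin n) (k : ℕ) :
    RowAlg n (Q × Option (Fin n × {Y : Finset (Fin n) // Y.card ≤ k})) where
  start := (B.start, none)
  step q i R := (B.step q.1 i R, next v k (B.write q.1 i R) q.2)
  out q := (q.2.map fun x => x.2.1).getD ∅

theorem follow_fst (B : ColAlg n Q) (v : Fin n) (k : ℕ) (G : SimpleGraph (Fin n)) :
    ∀ t : ℕ, ((follow B v k).state G t).1 = B.state G t
  | 0 => rfl
  | t + 1 => by
    have ih := follow_fst B v k G t
    change (if h : t < n then _ else _ : _ × _).1 = (if h : t < n then _ else _)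
    by_cases h : t < n
    · rw [dif_pos h, dif_pos h]
      change B.step ((follow B v k).state G t).1 _ _ = _
      rw [ih]
    · rw [dif_neg h, dif_neg h, ih]

theorem follow_snd (B : ColAlg n Q) (v : Fin n) (k : ℕ) (G : SimpleGraph (Fin n)) (i : Fin n) :
    ((follow B v k).state G (i + 1)).2
      = next v k (B.writes G i) ((follow B v k).state G i).2 := by
  change (if h : (i : ℕ) < n then _ else _ : _ × _).2 = _
  rw [dif_pos i.isLt]
  change next v k (B.write ((follow B v k).state G i).1 _ _) _ = _
  rw [follow_fst]
  rfl

/-- the vertices which have got the colour `c` before the row of `t` -/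
noncomputable def ColAlg.done (B : ColAlg n Q) (G : SimpleGraph (Fin n)) (c : Fin n) (t : ℕ) :
    Finset (Fin n) :=
  open Classical in Finset.univ.filter fun u => ∃ i : Fin n, (i : ℕ) < t ∧ (u, c) ∈ B.writes G i

theorem mem_done {B : ColAlg n Q} {G : SimpleGraph (Fin n)} {c u : Fin n} {t : ℕ} :
    u ∈ B.done G c t ↔ ∃ i : Fin n, (i : ℕ) < t ∧ (u, c) ∈ B.writes G i := by
  unfold ColAlg.done
  simp

theorem done_succ (B : ColAlg n Q) (G : SimpleGraph (Fin n)) (c i : Fin n) :
    B.done G c (i + 1) = B.done G c i ∪ cls (B.writes G i) c := by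
  classical
  ext u
  rw [Finset.mem_union, mem_done, mem_done, mem_cls]
  constructor
  · rintro ⟨j, hj, hu⟩
    by_cases h : (j : ℕ) < i
    · exact Or.inl ⟨j, h, hu⟩
    · right
      have : j = i := Fin.ext (by omega)
      rw [← this]
      exact hu
  · rintro (⟨j, hj, hu⟩ | hu)
    · exact ⟨j, by omega, hu⟩
    · exact ⟨i, by omega, hu⟩

theorem follow_inv {B : ColAlg n Q} {G : SimpleGraph (Fin n)} {f : Fin n → Fin n}
    (hf : B.Outputs G f) (k : ℕ) {v : Fin n}
    (hv : ∀ t, (B.done G (f v) t).Nonempty → v ∈ B.done G (f v) t) :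
    ∀ t : ℕ, t ≤ n →
      (B.done G (f v) t = ∅ ∧ ((follow B v k).state G t).2 = none) ∨
      (v ∈ B.done G (f v) t ∧ ∃ X : {Y : Finset (Fin n) // Y.card ≤ k},
        ((follow B v k).state G t).2 = some (f v, X) ∧ X.1 ⊆ B.done G (f v) t ∧
          (X.1 = B.done G (f v) t ∨ X.1.card = k))
  | 0, _ => by
    left
    refine ⟨?_, rfl⟩
    ext u
    rw [mem_done]
    simp
  | t + 1, ht => by
    classical
    have htn : t < n := ht
    have ih := follow_inv hf k hv t htn.le
    have e1 := done_succ B G (f v) ⟨t, htn⟩
    have e2 := follow_snd B v k G ⟨t, htn⟩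
    change B.done G (f v) (t + 1) = B.done G (f v) t ∪ _ at e1
    change ((follow B v k).state G (t + 1)).2 = next v k _ ((follow B v k).state G t).2 at e2
    rcases ih with ⟨h1, h2⟩ | ⟨h1, X, h2, h3, h4⟩
    · rw [h2] at e2
      rw [h1, Finset.empty_union] at e1
      by_cases hne : (B.done G (f v) (t + 1)).Nonempty
      · right
        have hmem := hv _ hne
        refine ⟨hmem, ?_⟩
        have hex : ∃ c, (v, c) ∈ B.writes G ⟨t, htn⟩ := by
          rw [e1, mem_cls] at hmem
          exact ⟨_, hmem⟩
        have hc : hex.choose = f v := ((hf v _).1 ⟨_, hex.choose_spec⟩).symm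
        refine ⟨cut k (cls (B.writes G ⟨t, htn⟩) (f v)), ?_, ?_, ?_⟩
        · rw [e2]
          unfold next
          rw [dif_pos hex, hc]
        · rw [e1]
          exact cut_sub _ _
        · rw [e1]
          exact cut_or _ _
      · left
        have he := Finset.not_nonempty_iff_eq_empty.1 hne
        refine ⟨he, ?_⟩
        rw [e2]
        unfold next
        rw [dif_neg]
        rintro ⟨c, hc⟩
        have hcf : f v = c := (hf v c).1 ⟨_, hc⟩
        have hmem : v ∈ B.done G (f v) (t + 1) := by
          rw [e1, mem_cls, hcf]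
          exact hc
        rw [he] at hmem
        exact absurd hmem (Finset.notMem_empty _)
    · right
      rw [h2] at e2
      refine ⟨by rw [e1]; exact Finset.mem_union_left _ h1, ?_⟩
      refine ⟨cut k (X.1 ∪ cls (B.writes G ⟨t, htn⟩) (f v)), e2, ?_, ?_⟩
      · rw [e1]
        exact (cut_sub _ _).trans (Finset.union_subset_union h3 (Finset.Subset.refl _))
      · rcases h4 with h4 | h4
        · rw [e1, ← h4]
          exact cut_or _ _
        · right
          exact cut_card (h4.ge.trans (Finset.card_le_card Finset.subset_union_left))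

/-- in every class with at least `k` vertices there is a vertex `v` for which `follow` returns `k`
vertices of the class -/
theorem follow_large {B : ColAlg n Q} {G : SimpleGraph (Fin n)} {f : Fin n → Fin n}
    (hf : B.Outputs G f) {k : ℕ} (hk : 0 < k) {c : Fin n}
    (hc : k ≤ (Finset.univ.filter fun u => f u = c).card) :
    ∃ v, f v = c ∧ k ≤ ((follow B v k).result G).card ∧
      ∀ u ∈ (follow B v k).result G, f u = c := by
  classical
  have hfull : B.done G c n = Finset.univ.filter fun u => f u = c := by
    ext u
    rw [mem_done, Finset.mem_filter]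
    constructor
    · rintro ⟨i, _, hi⟩
      exact ⟨Finset.mem_univ _, (hf u c).1 ⟨i, hi⟩⟩
    · rintro ⟨_, h⟩
      obtain ⟨i, hi⟩ := (hf u c).2 h
      exact ⟨i, i.isLt, hi⟩
  have hex : ∃ t : ℕ, (B.done G c t).Nonempty := by
    refine ⟨n, ?_⟩
    rw [hfull]
    exact Finset.card_pos.1 (lt_of_lt_of_le hk hc)
  obtain ⟨v, hv⟩ := Nat.find_spec hex
  have hfv : f v = c := by
    rw [mem_done] at hv
    obtain ⟨i, _, hi⟩ := hv
    exact (hf v c).1 ⟨i, hi⟩
  have hvall : ∀ t, (B.done G (f v) t).Nonempty → v ∈ B.done G (f v) t := by
    intro t ht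
    rw [hfv] at ht ⊢
    have hle : Nat.find hex ≤ t := Nat.find_min' hex ht
    rw [mem_done] at hv ⊢
    obtain ⟨i, h1, h2⟩ := hv
    exact ⟨i, lt_of_lt_of_le h1 hle, h2⟩
  refine ⟨v, hfv, ?_⟩
  have hinv := follow_inv hf k hvall n le_rfl
  rw [hfv, hfull] at hinv
  rcases hinv with ⟨h1, _⟩ | ⟨_, X, h2, h3, h4⟩
  · rw [h1, Finset.card_empty] at hc
    omega
  · have hres : (follow B v k).result G = X.1 := by
      change ((((follow B v k).state G n).2).map fun x => x.2.1).getD ∅ = _
      rw [h2]
      rfl
    rw [hres]
    constructor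
    · rcases h4 with h4 | h4
      · rw [h4]
        exact hc
      · exact h4.ge
    · intro u hu
      exact (Finset.mem_filter.1 (h3 hu)).2

end Pool.Agent.H61S
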