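import Pool.Agent.H61S.Asymp
import Pool.Agent.H61S.Colour
import Pool.Agent.H72.KarpS.Ratio
import Pool.Agent.H72.KarpS.AlphaS

/-!
The lower bound for colourings written by one-pass algorithms which read a graph row by row.
-/

set_option autoImplicit false

namespace Pool.Agent.H61S

open Finset Filter Pool.Agent.H85.Online Pool.Agent.H72.Karp

variable {n : ℕ} {p : ℝ}

theorem classes_count (f : Fin n → Fin n) (k : ℕ) {M : ℝ} (hM0 : 0 ≤ M)
    (hM : ∀ c, ((Finset.univ.filter fun u => f u = c).card : ℝ) ≤ M) :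
    (n : ℝ) ≤ (Finset.univ.image f).card * k +
      (Finset.univ.filter fun c => k ≤ (Finset.univ.filter fun u => f u = c).card).card * M := by
  classical
  have h1 : (Finset.univ : Finset (Fin n)).card
      = ∑ c ∈ Finset.univ.image f, ((Finset.univ : Finset (Fin n)).filter (fun v => f v = c)).card :=
    Finset.card_eq_sum_card_fiberwise (fun v _ => Finset.mem_image_of_mem _ (Finset.mem_univ _))
  rw [Finset.card_univ, Fintype.card_fin] at h1
  have h2 : (n : ℝ) = ∑ c ∈ Finset.univ.image f,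
      (((Finset.univ : Finset (Fin n)).filter (fun v => f v = c)).card : ℝ) := by
    exact_mod_cast h1
  rw [h2]
  calc ∑ c ∈ Finset.univ.image f,
        (((Finset.univ : Finset (Fin n)).filter (fun v => f v = c)).card : ℝ)
      ≤ ∑ c ∈ Finset.univ.image f, ((k : ℝ) +
        if k ≤ (Finset.univ.filter fun u => f u = c).card then M else 0) := by
        refine Finset.sum_le_sum fun c _ => ?_
        by_cases h : k ≤ (Finset.univ.filter fun u => f u = c).card
        · rw [if_pos h]
          have := hM c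
          have hk : (0 : ℝ) ≤ k := Nat.cast_nonneg k
          linarith
        · rw [if_neg h, add_zero]
          have h3 : (Finset.univ.filter fun u => f u = c).card ≤ k := by omega
          exact_mod_cast h3
    _ = (Finset.univ.image f).card * k + ∑ c ∈ Finset.univ.image f,
        (if k ≤ (Finset.univ.filter fun u => f u = c).card then M else 0) := by
        rw [Finset.sum_add_distrib, Finset.sum_const, nsmul_eq_mul]
    _ ≤ (Finset.univ.image f).card * k + ∑ c,
        (if k ≤ (Finset.univ.filter fun u => f u = c).card then M else 0) := by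
        refine add_le_add le_rfl (Finset.sum_le_sum_of_subset_of_nonneg (Finset.subset_univ _) ?_)
        intro c _ _
        by_cases h : k ≤ (Finset.univ.filter fun u => f u = c).card
        · rw [if_pos h]
          exact hM0
        · rw [if_neg h]
    _ = _ := by
        rw [← Finset.sum_filter, Finset.sum_const, nsmul_eq_mul]

/-- the vertices whose classes are followed with success are as many as the large classes -/
theorem large_le_good {Q : Type} {B : ColAlg n Q} {G : SimpleGraph (Fin n)} {f : Fin n → Fin n}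
    (hf : B.Outputs G f) (hprop : ∀ u v, G.Adj u v → f u ≠ f v) {k : ℕ} (hk : 0 < k) :
    (Finset.univ.filter fun c => k ≤ (Finset.univ.filter fun u => f u = c).card).card
      ≤ ({v | Indep G ((follow B v k).result G) ∧ k ≤ ((follow B v k).result G).card} :
        Set (Fin n)).ncard := by
  classical
  have hfin : ({v | Indep G ((follow B v k).result G) ∧ k ≤ ((follow B v k).result G).card} :
      Set (Fin n)).Finite := Set.toFinite _
  rw [Set.ncard_eq_toFinset_card _ hfin]
  have hsub : (Finset.univ.filter fun c => k ≤ (Finset.univ.filter fun u => f u = c).card)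
      ⊆ hfin.toFinset.image f := by
    intro c hc
    obtain ⟨v, h1, h2, h3⟩ := follow_large hf hk (Finset.mem_filter.1 hc).2
    refine Finset.mem_image.2 ⟨v, ?_, h1⟩
    rw [Set.Finite.mem_toFinset]
    refine ⟨?_, h2⟩
    intro u hu w hw hadj
    exact hprop u w hadj ((h3 u hu).trans (h3 w hw).symm)
  exact (Finset.card_le_card hsub).trans Finset.card_image_le

theorem card_follow (n k : ℕ) (Q : Type) [Fintype Q] :
    Fintype.card (Q × Option (Fin n × {Y : Finset (Fin n) // Y.card ≤ k}))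
      ≤ Fintype.card Q * (n + 1) ^ (k + 1) := by
  classical
  rw [Fintype.card_prod, Fintype.card_option, Fintype.card_prod, Fintype.card_fin,
    Fintype.card_subtype]
  refine Nat.mul_le_mul_left _ ?_
  have h2 := Pool.Agent.H72.KarpS.card_small (Fin n) k
  rw [Fintype.card_fin] at h2
  calc n * (Finset.univ.filter fun Y : Finset (Fin n) => Y.card ≤ k).card + 1
      ≤ n * (n + 1) ^ k + (n + 1) ^ k :=
        Nat.add_le_add (Nat.mul_le_mul_left _ h2) (Nat.one_le_pow _ _ (Nat.succ_pos _))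
    _ = (n + 1) ^ (k + 1) := by ring

theorem colour_lower (h0 : 0 < p) (h1 : p < 1) {μ ε r : ℝ} (hμ0 : 0 ≤ μ) (hμ1 : μ ≤ 1)
    (hε : 0 < ε) (hε1 : ε ≤ 1) (hr : 0 ≤ r)
    (hrε : r * (1 + μ + 2 * ε) * (1 / 2 + ε) ≤ 1 - ε) :
    ∀ᶠ n : ℕ in atTop, ∀ (Q : Type) [Fintype Q] (B : ColAlg n Q),
      (Fintype.card Q : ℝ) ≤ (2 : ℝ) ^ ((n : ℝ) ^ (2 * μ + ε ^ 2 / 160)) →
      Prob p (fun G => ∃ f, B.Outputs G f ∧ (∀ u v, G.Adj u v → f u ≠ f v) ∧
        ((Finset.univ.image f).card : ℝ) ≤ r * G.chromaticNumber.toNat)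
        ≤ (n : ℝ) ^ (-(ε ^ 2 / 160)) := by
  classical
  obtain ⟨c, hc⟩ : ∃ c : ℝ, c = ε ^ 2 / 160 := ⟨_, rfl⟩
  have hc0 : 0 < c := by rw [hc]; positivity
  have hc1 : c ≤ 1 / 160 := by
    rw [hc]
    have : ε ^ 2 ≤ 1 := by nlinarith
    linarith
  obtain ⟨a, ha⟩ : ∃ a : ℝ, a = -Real.log (1 - p) := ⟨_, rfl⟩
  have ha0 : 0 < a := by rw [ha]; exact neg_log_pos h0 h1
  filter_upwards [lower h0 h1 hμ0 hμ1 hε hε1,
    Pool.Agent.H72.KarpS.chi_upper h0 h1 hε zero_le_one,
    Pool.Agent.H72.KarpS.alpha_bound' h0 h1 one_pos 1,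
    log_nat_tendsto.eventually_ge_atTop 4, log_nat_tendsto.eventually_ge_atTop a,
    log_nat_tendsto.eventually_ge_atTop (a / ε),
    poly_le_exp (10 / a + 1) 2 hc0, poly_le_exp (8 / (a * ε)) 1 hc0, eventually_ge_atTop 2]
    with n k1 k2 k3 e1 e2 e3 g1 g2 hn2
  intro Q _ B hK
  obtain ⟨lam, hlam⟩ : ∃ lam : ℝ, lam = Real.log (n : ℝ) := ⟨_, rfl⟩
  rw [← hlam] at e1 e2 e3 g1 g2
  rw [pow_one] at g2
  have hn0 : (0 : ℝ) < n := by
    exact_mod_cast (show 0 < n by omega)
  have hn1 : (1 : ℝ) ≤ n := by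
    exact_mod_cast (show 1 ≤ n by omega)
  have hnexp : (n : ℝ) = Real.exp lam := by rw [hlam, Real.exp_log hn0]
  have hrp : ∀ y : ℝ, (n : ℝ) ^ y = Real.exp (y * lam) := by
    intro y
    rw [Real.rpow_def_of_pos hn0, ← hlam, mul_comm]
  have hlam0 : 0 < lam := by linarith
  have hLL : LL p n = lam / a := by rw [LL_eq, ← ha, ← hlam]
  obtain ⟨L, hL⟩ : ∃ L : ℝ, L = lam / a := ⟨_, rfl⟩
  rw [← hL] at hLL
  have hL1 : 1 ≤ L := by
    rw [hL, le_div_iff₀ ha0]
    linarith
  have hL0 : 0 < L := by linarith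
  have hεL : 1 ≤ ε * L := by
    rw [hL]
    rw [div_le_iff₀ hε] at e3
    rw [← mul_div_assoc, le_div_iff₀ ha0]
    linarith
  obtain ⟨k, hk⟩ : ∃ k : ℕ, k = ⌈(1 + μ + ε) * L⌉₊ := ⟨_, rfl⟩
  have hk1 : (1 + μ + ε) * L ≤ k := by rw [hk]; exact Nat.le_ceil _
  have hk2 : (k : ℝ) ≤ (1 + μ + 2 * ε) * L := by
    have h2 : (k : ℝ) < (1 + μ + ε) * L + 1 := by
      rw [hk]
      exact Nat.ceil_lt_add_one (by positivity)
    have h3 : (1 + μ + 2 * ε) * L = (1 + μ + ε) * L + ε * L := by ring
    linarith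
  have hkpos : 0 < k := by
    have h2 : (0 : ℝ) < k := lt_of_lt_of_le (by positivity) hk1
    exact_mod_cast h2
  -- the number of states
  have hx0 : ∀ y : ℝ, 0 ≤ y → (1 : ℝ) ≤ (n : ℝ) ^ y := by
    intro y hy
    rw [hrp]
    exact Real.one_le_exp (by positivity)
  have hstates : (Fintype.card (Q × Option (Fin n × {Y : Finset (Fin n) // Y.card ≤ k})) : ℝ)
      ≤ Real.exp ((n : ℝ) ^ (2 * μ + ε ^ 2 / 80)) := by
    have h2 : (Fintype.card (Q × Option (Fin n × {Y : Finset (Fin n) // Y.card ≤ k})) : ℝ)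
        ≤ Fintype.card Q * ((n : ℝ) + 1) ^ (k + 1) := by
      exact_mod_cast card_follow n k Q
    refine h2.trans ?_
    obtain ⟨x, hx⟩ : ∃ x : ℝ, x = (n : ℝ) ^ (2 * μ + c) := ⟨_, rfl⟩
    rw [← hc, ← hx] at hK
    have hx1 : 1 ≤ x := by
      rw [hx]
      exact hx0 _ (by positivity)
    have h3 : (2 : ℝ) ^ x ≤ Real.exp x := by
      rw [Real.rpow_def_of_pos (by norm_num)]
      apply Real.exp_le_exp.2
      have h4 : Real.log 2 ≤ 1 := by
        have := Real.log_two_lt_d9
        linarith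
      nlinarith
    have h5 : (n : ℝ) + 1 ≤ Real.exp (2 * lam) := by
      have h6 : (n : ℝ) + 1 ≤ 2 * n := by linarith
      have h7 : (2 : ℝ) ≤ Real.exp lam := by
        have := Real.add_one_le_exp lam
        linarith
      have h8 : Real.exp (2 * lam) = Real.exp lam * n := by
        rw [hnexp, ← Real.exp_add]
        congr 1
        ring
      rw [h8]
      have := mul_le_mul_of_nonneg_right h7 hn0.le
      linarith
    have h6 : ((n : ℝ) + 1) ^ (k + 1) ≤ Real.exp (10 / a * lam ^ 2) := by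
      refine (pow_le_pow_left₀ (by positivity) h5 _).trans ?_
      rw [← Real.exp_nat_mul]
      apply Real.exp_le_exp.2
      have h7 : ((k + 1 : ℕ) : ℝ) ≤ 5 * L := by
        push_cast
        have h8 : (1 + μ + 2 * ε) * L ≤ 4 * L := mul_le_mul_of_nonneg_right (by linarith) hL0.le
        linarith
      have h8 := mul_le_mul_of_nonneg_right h7 (show 0 ≤ 2 * lam by positivity)
      have h9 : 5 * L * (2 * lam) = 10 / a * lam ^ 2 := by
        rw [hL]
        field_simp
        ring
      linarith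
    have h7 : (n : ℝ) ^ (2 * μ + ε ^ 2 / 80) = x * Real.exp (c * lam) := by
      rw [hx, hrp, hrp, ← Real.exp_add, hc]
      congr 1
      ring
    rw [h7]
    calc (Fintype.card Q : ℝ) * ((n : ℝ) + 1) ^ (k + 1)
        ≤ Real.exp x * Real.exp (10 / a * lam ^ 2) :=
          mul_le_mul (hK.trans h3) h6 (by positivity) (Real.exp_pos _).le
      _ = Real.exp (x + 10 / a * lam ^ 2) := (Real.exp_add _ _).symm
      _ ≤ Real.exp (x * Real.exp (c * lam)) := by
          apply Real.exp_le_exp.2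
          have h8 : (1 : ℝ) ≤ lam ^ 2 := by nlinarith
          have h9 : 1 + 10 / a * lam ^ 2 ≤ Real.exp (c * lam) := by
            refine le_trans ?_ g1
            rw [add_mul]
            linarith
          have h10 : x * (1 + 10 / a * lam ^ 2) ≤ x * Real.exp (c * lam) :=
            mul_le_mul_of_nonneg_left h9 (by linarith)
          have h11 : 0 ≤ 10 / a * lam ^ 2 := by positivity
          have h12 : 10 / a * lam ^ 2 ≤ x * (10 / a * lam ^ 2) := le_mul_of_one_le_left h11 hx1
          linarith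
  -- the three events
  have hM0 : 0 < ε * n / (4 * L) := by positivity
  obtain ⟨Gd, hGd⟩ : ∃ Gd : SimpleGraph (Fin n) → Fin n → Prop, Gd = fun G v =>
    Indep G ((follow B v k).result G) ∧ k ≤ ((follow B v k).result G).card := ⟨_, rfl⟩
  have hgood : ∀ v, Prob p (fun G => Gd G v) ≤ (n : ℝ) ^ (-(ε ^ 2 / 80)) := by
    intro v
    refine le_trans (Prob_mono h0 h1 fun G hG => ?_) (k1 _ (follow B v k) hstates)
    rw [hGd] at hG
    refine ⟨hG.1, ?_⟩
    rw [hLL]
    refine hk1.trans ?_
    exact_mod_cast hG.2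
  have hmark := Prob_markov h0 h1 Gd (ε * n / (4 * L)) hM0 _ hgood
  have hsplit : ∀ G : SimpleGraph (Fin n), (∃ f, B.Outputs G f ∧ (∀ u v, G.Adj u v → f u ≠ f v) ∧
      ((Finset.univ.image f).card : ℝ) ≤ r * G.chromaticNumber.toNat) →
      ((¬ (G.chromaticNumber.toNat : ℝ) ≤ (1 / 2 + ε) * (n / LL p n)) ∨
        (¬ ∀ I : Finset (Fin n), Indep G I → (I.card : ℝ) ≤ (2 + 1) * LL p n)) ∨
      ε * n / (4 * L) < ({v | Gd G v} : Set (Fin n)).ncard := by
    rintro G ⟨f, hf, hprop, hnum⟩
    by_cases q1 : (G.chromaticNumber.toNat : ℝ) ≤ (1 / 2 + ε) * (n / LL p n)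
    · by_cases q2 : ∀ I : Finset (Fin n), Indep G I → (I.card : ℝ) ≤ (2 + 1) * LL p n
      · right
        rw [hLL] at q1 q2
        have hcl := classes_count f k (M := (2 + 1) * L) (by positivity) (fun c => q2 _ (by
          intro u hu v hv hadj
          exact hprop u v hadj
            ((Finset.mem_filter.1 hu).2.trans (Finset.mem_filter.1 hv).2.symm)))
        have hlg : (((Finset.univ.filter fun c =>
            k ≤ (Finset.univ.filter fun u => f u = c).card).card : ℕ) : ℝ)
            ≤ ({v | Gd G v} : Set (Fin n)).ncard := by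
          rw [hGd]
          exact_mod_cast large_le_good hf hprop hkpos
        have hA : ((Finset.univ.image f).card : ℝ) * k ≤ (1 - ε) * n := by
          have h2 : ((Finset.univ.image f).card : ℝ) ≤ r * ((1 / 2 + ε) * (n / L)) :=
            hnum.trans (mul_le_mul_of_nonneg_left q1 hr)
          have h3 : ((Finset.univ.image f).card : ℝ) * k
              ≤ r * ((1 / 2 + ε) * (n / L)) * ((1 + μ + 2 * ε) * L) :=
            mul_le_mul h2 hk2 (Nat.cast_nonneg k) (by positivity)
          have h4 : r * ((1 / 2 + ε) * (n / L)) * ((1 + μ + 2 * ε) * L)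
              = r * (1 + μ + 2 * ε) * (1 / 2 + ε) * n := by
            field_simp
          rw [h4] at h3
          exact h3.trans (mul_le_mul_of_nonneg_right hrε hn0.le)
        have hB : ε * n ≤ ({v | Gd G v} : Set (Fin n)).ncard * ((2 + 1) * L) := by
          have h2 := mul_le_mul_of_nonneg_right hlg (show 0 ≤ (2 + 1) * L by positivity)
          linarith
        rw [div_lt_iff₀ (by positivity)]
        have hpos : (0 : ℝ) < ({v | Gd G v} : Set (Fin n)).ncard := by
          by_contra hcon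
          have h2 : (({v | Gd G v} : Set (Fin n)).ncard : ℝ) = 0 :=
            le_antisymm (not_lt.1 hcon) (Nat.cast_nonneg _)
          rw [h2, zero_mul] at hB
          have : 0 < ε * n := by positivity
          linarith
        have h3 : (0 : ℝ) < ({v | Gd G v} : Set (Fin n)).ncard * L := mul_pos hpos hL0
        linarith
      · exact Or.inl (Or.inr q2)
    · exact Or.inl (Or.inl q1)
  refine (Prob_mono h0 h1 hsplit).trans ((Prob_or h0 h1 _ _).trans
    ((add_le_add ((Prob_or h0 h1 _ _).trans (add_le_add k2 k3)) hmark).trans ?_))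
  rw [← hc, hrp, hrp, hrp]
  have t1 : Real.exp (-1 * lam) ≤ Real.exp (-c * lam) / 4 := by
    have h2 : 4 ≤ Real.exp ((1 - c) * lam) := by
      have h3 := Real.add_one_le_exp ((1 - c) * lam)
      have h4 : (1 - 1 / 160) * 4 ≤ (1 - c) * lam :=
        mul_le_mul (by linarith) e1 (by norm_num) (by linarith)
      linarith
    have h3 : Real.exp (-c * lam) = Real.exp (-1 * lam) * Real.exp ((1 - c) * lam) := by
      rw [← Real.exp_add]
      congr 1
      ring
    have h4 := mul_le_mul_of_nonneg_left h2 (Real.exp_pos (-1 * lam)).le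
    linarith
  have t2 : n * Real.exp (-(ε ^ 2 / 80) * lam) / (ε * n / (4 * L)) ≤ Real.exp (-c * lam) / 2 := by
    have h2 : n * Real.exp (-(ε ^ 2 / 80) * lam) / (ε * n / (4 * L))
        = 4 * L / ε * Real.exp (-(ε ^ 2 / 80) * lam) := by
      field_simp
    have h3 : Real.exp (-c * lam) = Real.exp (-(ε ^ 2 / 80) * lam) * Real.exp (c * lam) := by
      rw [← Real.exp_add, hc]
      congr 1
      ring
    have h4 : 8 * L / ε ≤ Real.exp (c * lam) := by
      have h5 : 8 * L / ε = 8 / (a * ε) * lam := by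
        rw [hL]
        field_simp
      rw [h5]
      exact g2
    rw [h2, h3]
    have h5 := mul_le_mul_of_nonneg_right h4 (Real.exp_pos (-(ε ^ 2 / 80) * lam)).le
    have h6 : 8 * L / ε = 2 * (4 * L / ε) := by ring
    rw [h6] at h5
    linarith
  linarith

/-- the form with the best ratio -/
theorem colour_ratio (h0 : 0 < p) (h1 : p < 1) {μ r : ℝ} (hμ0 : 0 ≤ μ) (hμ1 : μ ≤ 1)
    (hr : 0 ≤ r) (hrμ : r * (1 + μ) < 2) :
    ∃ c : ℝ, 0 < c ∧ ∀ᶠ n : ℕ in atTop, ∀ (Q : Type) [Fintype Q] (B : ColAlg n Q),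
      (Fintype.card Q : ℝ) ≤ (2 : ℝ) ^ ((n : ℝ) ^ (2 * μ + c)) →
      Prob p (fun G => ∃ f, B.Outputs G f ∧ (∀ u v, G.Adj u v → f u ≠ f v) ∧
        ((Finset.univ.image f).card : ℝ) ≤ r * G.chromaticNumber.toNat) ≤ (n : ℝ) ^ (-c) := by
  obtain ⟨ε, hε⟩ : ∃ ε : ℝ, ε = min 1 ((1 - r * (1 + μ) / 2) / (5 * r + 1)) := ⟨_, rfl⟩
  have hgap : 0 < (1 - r * (1 + μ) / 2) / (5 * r + 1) := div_pos (by linarith) (by linarith)
  have hε0 : 0 < ε := by rw [hε]; exact lt_min one_pos hgap
  have hε1 : ε ≤ 1 := by rw [hε]; exact min_le_left _ _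
  have hε2 : ε * (5 * r + 1) ≤ 1 - r * (1 + μ) / 2 := by
    have h2 : ε ≤ (1 - r * (1 + μ) / 2) / (5 * r + 1) := by rw [hε]; exact min_le_right _ _
    rwa [le_div_iff₀ (by linarith)] at h2
  refine ⟨ε ^ 2 / 160, by positivity, colour_lower h0 h1 hμ0 hμ1 hε0 hε1 hr ?_⟩
  have h2 : r * (1 + μ + 2 * ε) * (1 / 2 + ε)
      = r * (1 + μ) / 2 + r * ε * (2 + μ + 2 * ε) := by ring
  have h3 : r * ε * (2 + μ + 2 * ε) ≤ r * ε * 5 :=
    mul_le_mul_of_nonneg_left (by linarith) (by positivity)
  have h4 : ε * (5 * r + 1) = r * ε * 5 + ε := by ring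
  rw [h2]
  linarith

end Pool.Agent.H61S
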