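import Pool.Agent.H61S.Cover
import Pool.Agent.H72.KarpS.GoodS

/-!
A set `X` almost all pairs of which lie in a given set `E` of pairs is contained, up to few
vertices, in one of `n + 1` small sets. Hence there are few independent sets of this kind.
-/

set_option autoImplicit false
set_option linter.unusedSectionVars false

namespace Pool.Agent.H61S

open Finset Pool.Agent.H85.Online Pool.Agent.H72.Karp

variable {n : ℕ}

/-- the vertices joined to `v` by a pair of `E` -/
def nE (E : Finset (Sym2 (Fin n))) (v : Fin n) : Finset (Fin n) :=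
  Finset.univ.filter fun u => u ≠ v ∧ s(v, u) ∈ E

theorem fiber_le_two (S : Finset (Fin n × Fin n)) (e : Sym2 (Fin n)) :
    (S.filter fun x => s(x.1, x.2) = e).card ≤ 2 := by
  classical
  induction e using Sym2.ind with
  | _ a b =>
  refine le_trans (Finset.card_le_card (t := {(a, b), (b, a)}) ?_) Finset.card_le_two
  intro x hx
  have h := (Finset.mem_filter.1 hx).2
  rw [Finset.mem_insert, Finset.mem_singleton]
  rcases Sym2.eq_iff.1 h with ⟨h1, h2⟩ | ⟨h1, h2⟩
  · left
    exact Prod.ext h1 h2
  · right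
    exact Prod.ext h1 h2

theorem sum_nE (E : Finset (Sym2 (Fin n))) : ∑ v, (nE E v).card ≤ 2 * E.card := by
  classical
  have h1 : ∑ v, (nE E v).card
      = ((Finset.univ : Finset (Fin n × Fin n)).filter
        fun x => x.2 ≠ x.1 ∧ s(x.1, x.2) ∈ E).card := by
    rw [Finset.card_filter, ← Finset.univ_product_univ, Finset.sum_product]
    refine Finset.sum_congr rfl fun v _ => ?_
    unfold nE
    rw [Finset.card_filter]
  rw [h1]
  refine Finset.card_le_mul_card_image_of_maps_to (f := fun x => s(x.1, x.2)) ?_ 2 ?_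
  · intro x hx
    exact (Finset.mem_filter.1 hx).2.2
  · intro e _
    exact fiber_le_two _ e

/-- the vertices of `X` which are not joined to `v` by a pair of `E` -/
def far (E : Finset (Sym2 (Fin n))) (X : Finset (Fin n)) (v : Fin n) : Finset (Fin n) :=
  X.filter fun u => u ≠ v ∧ s(v, u) ∉ E

theorem sum_far (E : Finset (Sym2 (Fin n))) (X : Finset (Fin n)) :
    ∑ v ∈ X, (far E X v).card ≤ 2 * (prs X \ E).card := by
  classical
  have h1 : ∑ v ∈ X, (far E X v).card
      = ((X ×ˢ X).filter fun x => x.2 ≠ x.1 ∧ s(x.1, x.2) ∉ E).card := by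
    rw [Finset.card_filter, Finset.sum_product]
    refine Finset.sum_congr rfl fun v _ => ?_
    unfold far
    rw [Finset.card_filter]
  rw [h1]
  refine Finset.card_le_mul_card_image_of_maps_to (f := fun x => s(x.1, x.2)) ?_ 2 ?_
  · intro x hx
    obtain ⟨h2, h3, h4⟩ := Finset.mem_filter.1 hx
    obtain ⟨h5, h6⟩ := Finset.mem_product.1 h2
    exact Finset.mem_sdiff.2 ⟨mem_prs.2 ⟨fun he => h3 he.symm, h5, h6⟩, h4⟩
  · intro e _
    exact fiber_le_two _ e

/-- the small sets -/
def small (E : Finset (Sym2 (Fin n))) (d : ℕ) : Option (Fin n) → Finset (Fin n)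
  | none => Finset.univ.filter fun v => d < (nE E v).card
  | some v => if (nE E v).card ≤ d then insert v (nE E v) else ∅

theorem card_small_le {E : Finset (Sym2 (Fin n))} {d : ℕ} (hd : 2 * E.card ≤ d * d) :
    ∀ o : Option (Fin n), (small E d o).card ≤ d + 1
  | none => by
    have h1 : ∑ v ∈ small E d none, (d + 1) ≤ ∑ v ∈ small E d none, (nE E v).card :=
      Finset.sum_le_sum fun v hv => (Finset.mem_filter.1 hv).2
    have h2 : ∑ v ∈ small E d none, (nE E v).card ≤ ∑ v, (nE E v).card :=
      Finset.sum_le_sum_of_subset (Finset.subset_univ _)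
    have h3 := sum_nE E
    rw [Finset.sum_const, smul_eq_mul] at h1
    by_contra hcon
    push Not at hcon
    have h4 : (d + 1 + 1) * (d + 1) ≤ (small E d none).card * (d + 1) :=
      Nat.mul_le_mul_right _ hcon
    nlinarith
  | some v => by
    change (if (nE E v).card ≤ d then insert v (nE E v) else ∅ : Finset (Fin n)).card ≤ d + 1
    split_ifs with h
    · exact (Finset.card_insert_le _ _).trans (Nat.succ_le_succ h)
    · simp

/-- `X` lies in one of the small sets, up to `z` vertices -/
theorem exists_small {E : Finset (Sym2 (Fin n))} {d z e : ℕ} (hz : 2 * e ≤ (z + 1) * (z + 1))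
    {X : Finset (Fin n)} (hX : (prs X \ E).card < e) :
    ∃ o : Option (Fin n), (X \ small E d o).card ≤ z := by
  classical
  set B : Finset (Fin n) := X.filter fun v => z < (far E X v).card with hB
  have hBc : B.card ≤ z := by
    by_contra hcon
    push Not at hcon
    have h1 : ∑ v ∈ B, (z + 1) ≤ ∑ v ∈ B, (far E X v).card :=
      Finset.sum_le_sum fun v hv => (Finset.mem_filter.1 hv).2
    have h2 : ∑ v ∈ B, (far E X v).card ≤ ∑ v ∈ X, (far E X v).card :=
      Finset.sum_le_sum_of_subset (Finset.filter_subset _ _)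
    have h3 := sum_far E X
    rw [Finset.sum_const, smul_eq_mul] at h1
    have h4 : (z + 1) * (z + 1) ≤ B.card * (z + 1) := Nat.mul_le_mul_right _ hcon
    omega
  by_cases hcase : ∀ v ∈ X, v ∉ B → d < (nE E v).card
  · refine ⟨none, le_trans (Finset.card_le_card ?_) hBc⟩
    intro v hv
    obtain ⟨hvX, hv2⟩ := Finset.mem_sdiff.1 hv
    by_contra hvB
    exact hv2 (Finset.mem_filter.2 ⟨Finset.mem_univ _, hcase v hvX hvB⟩)
  · push Not at hcase
    obtain ⟨v, hvX, hvB, hvd⟩ := hcase
    refine ⟨some v, le_trans (Finset.card_le_card (t := far E X v) ?_) ?_⟩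
    · intro u hu
      obtain ⟨huX, hu2⟩ := Finset.mem_sdiff.1 hu
      change u ∉ (if (nE E v).card ≤ d then insert v (nE E v) else ∅ : Finset (Fin n)) at hu2
      rw [if_pos hvd, Finset.mem_insert, not_or] at hu2
      refine Finset.mem_filter.2 ⟨huX, hu2.1, fun hin => hu2.2 ?_⟩
      exact Finset.mem_filter.2 ⟨Finset.mem_univ _, hu2.1, hin⟩
    · by_contra hcon
      push Not at hcon
      exact hvB (Finset.mem_filter.2 ⟨hvX, hcon⟩)

open Classical in
/-- the number of independent sets with `s` vertices which lie almost in `U` -/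
theorem card_near (G : SimpleGraph (Fin n)) (V U : Finset (Fin n)) (s z : ℕ) :
    ((Finset.powersetCard s V).filter fun X => Indep G X ∧ (X \ U).card ≤ z).card
      ≤ (∑ j ∈ Finset.range (s + 1), (indeps G (U ∩ V) j).card) * (n + 1) ^ z := by
  classical
  set T : Finset (Finset (Fin n) × Finset (Fin n)) :=
    ((Finset.range (s + 1)).biUnion fun j => indeps G (U ∩ V) j) ×ˢ
      (Finset.univ.filter fun J : Finset (Fin n) => J.card ≤ z) with hT
  have h1 : ((Finset.powersetCard s V).filter fun X => Indep G X ∧ (X \ U).card ≤ z).card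
      ≤ T.card := by
    refine Finset.card_le_card_of_injOn (fun X => (X ∩ U, X \ U)) ?_ ?_
    · intro X hX
      obtain ⟨hX1, hX2, hX3⟩ := Finset.mem_filter.1 hX
      obtain ⟨hXV, hXs⟩ := Finset.mem_powersetCard.1 hX1
      refine Finset.mem_coe.2 (Finset.mem_product.2 ⟨Finset.mem_biUnion.2
        ⟨(X ∩ U).card, ?_, ?_⟩, ?_⟩)
      · rw [Finset.mem_range, Nat.lt_succ_iff, ← hXs]
        exact Finset.card_le_card Finset.inter_subset_left
      · refine Finset.mem_filter.2 ⟨Finset.mem_powersetCard.2 ⟨?_, rfl⟩, ?_⟩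
        · intro v hv
          obtain ⟨ha, hb⟩ := Finset.mem_inter.1 hv
          exact Finset.mem_inter.2 ⟨hb, hXV ha⟩
        · exact indep_sub Finset.inter_subset_left hX2
      · exact Finset.mem_filter.2 ⟨Finset.mem_univ _, hX3⟩
    · intro X _ Y _ h
      have h2 := congrArg Prod.fst h
      have h3 := congrArg Prod.snd h
      simp only at h2 h3
      rw [← Finset.sdiff_union_inter X U, ← Finset.sdiff_union_inter Y U, h2, h3]
  refine h1.trans ?_
  rw [hT, Finset.card_product]
  refine Nat.mul_le_mul Finset.card_biUnion_le ?_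
  have h2 := Pool.Agent.H72.KarpS.card_small (Fin n) z
  rw [Fintype.card_fin] at h2
  exact h2

open Classical in
/-- the number of independent sets almost all pairs of which lie in `E` -/
theorem card_covered {V : Finset (Fin n)} {ℓ : ℕ} {θ δ β Λ : ℝ} {G : SimpleGraph (Fin n)}
    (hB : Balanced V ℓ θ G) (hθ : 0 ≤ θ) (hδ : 0 < δ) (hℓ : 0 < ℓ) (hβ : 0 < β)
    (hρ : θ + δ ≤ Real.exp (-β)) (hΛ1 : (ℓ : ℝ) + 1 ≤ Λ) (hΛ2 : 2 * (ℓ : ℝ) ≤ Λ)
    (hΛ3 : (ℓ : ℝ) ≤ δ * Λ) {E : Finset (Sym2 (Fin n))} {d z e s : ℕ}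
    (hd : 2 * E.card ≤ d * d) (hz : 2 * e ≤ (z + 1) * (z + 1)) {x : ℝ} (hx : 0 ≤ x)
    (hdx : (d : ℝ) + 1 ≤ Real.exp x) :
    (((Finset.powersetCard s V).filter fun X => Indep G X ∧ (prs X \ E).card < e).card : ℝ)
      ≤ (n + 1) * ((s + 1) * (Λ ^ s * Real.exp (x ^ 2 / (2 * β) + x)) * (n + 1) ^ z) := by
  classical
  have hΛ0 : 1 ≤ Λ := by
    have : (1 : ℝ) ≤ ℓ := by exact_mod_cast hℓ
    linarith
  set B : ℝ := (s + 1) * (Λ ^ s * Real.exp (x ^ 2 / (2 * β) + x)) * (n + 1) ^ z with hBdef
  have h1 : (Finset.powersetCard s V).filter (fun X => Indep G X ∧ (prs X \ E).card < e)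
      ⊆ (Finset.univ : Finset (Option (Fin n))).biUnion fun o =>
        (Finset.powersetCard s V).filter fun X => Indep G X ∧ (X \ small E d o).card ≤ z := by
    intro X hX
    obtain ⟨hX1, hX2, hX3⟩ := Finset.mem_filter.1 hX
    obtain ⟨o, ho⟩ := exists_small (d := d) hz hX3
    exact Finset.mem_biUnion.2 ⟨o, Finset.mem_univ _, Finset.mem_filter.2 ⟨hX1, hX2, ho⟩⟩
  have h2 : ∀ o : Option (Fin n), (((Finset.powersetCard s V).filter fun X =>
      Indep G X ∧ (X \ small E d o).card ≤ z).card : ℝ) ≤ B := by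
    intro o
    have h3 : (((Finset.powersetCard s V).filter fun X =>
        Indep G X ∧ (X \ small E d o).card ≤ z).card : ℝ)
        ≤ (∑ j ∈ Finset.range (s + 1), ((indeps G (small E d o ∩ V) j).card : ℝ))
          * (n + 1) ^ z := by
      exact_mod_cast card_near G V (small E d o) s z
    refine h3.trans ?_
    rw [hBdef]
    refine mul_le_mul_of_nonneg_right ?_ (by positivity)
    calc ∑ j ∈ Finset.range (s + 1), ((indeps G (small E d o ∩ V) j).card : ℝ)
        ≤ ∑ j ∈ Finset.range (s + 1), Λ ^ s * Real.exp (x ^ 2 / (2 * β) + x) := by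
          refine Finset.sum_le_sum fun j hj => ?_
          have hjs : j ≤ s := by
            rw [Finset.mem_range] at hj
            omega
          have hc : ((small E d o ∩ V).card : ℝ) ≤ Real.exp x := by
            refine le_trans ?_ hdx
            exact_mod_cast (Finset.card_le_card Finset.inter_subset_left).trans
              (card_small_le hd o)
          refine (few hB hθ hδ hℓ hβ hρ hΛ1 hΛ2 hΛ3 j x hx _ Finset.inter_subset_right hc).trans ?_
          refine mul_le_mul_of_nonneg_right ?_ (Real.exp_pos _).le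
          exact pow_le_pow_right₀ hΛ0 hjs
      _ = (s + 1) * (Λ ^ s * Real.exp (x ^ 2 / (2 * β) + x)) := by
          rw [Finset.sum_const, Finset.card_range, nsmul_eq_mul]
          push_cast
          ring
  calc (((Finset.powersetCard s V).filter fun X =>
        Indep G X ∧ (prs X \ E).card < e).card : ℝ)
      ≤ ∑ o : Option (Fin n), (((Finset.powersetCard s V).filter fun X =>
        Indep G X ∧ (X \ small E d o).card ≤ z).card : ℝ) := by
        exact_mod_cast (Finset.card_le_card h1).trans Finset.card_biUnion_le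
    _ ≤ ∑ _o : Option (Fin n), B := Finset.sum_le_sum fun o _ => h2 o
    _ = (n + 1) * B := by
        rw [Finset.sum_const, Finset.card_univ, Fintype.card_option, Fintype.card_fin,
          nsmul_eq_mul]
        push_cast
        ring

end Pool.Agent.H61S
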