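import Pool.Agent.H61S.Model
import Pool.Agent.H61S.Struct
import Pool.Agent.H85.Online.Comb

/-!
The finite form of the lower bound for one-pass algorithms with few states.
-/

set_option autoImplicit false
set_option linter.unusedSectionVars false

namespace Pool.Agent.H61S

open Finset Pool.Agent.H85.Online Pool.Agent.H72.Karp

variable {n : ℕ} {Q : Type} {p : ℝ}

/-- given the state `q` at the time `t`, the set `X` is independent with probability at least `δ` -/
def Cond (p : ℝ) (A : RowAlg n Q) (δ : ℝ) (t : ℕ) (q : Q) (X : Finset (Fin n)) : Prop :=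
  δ * Prob p (fun G => A.state G t = q) ≤ Prob p (fun G => A.state G t = q ∧ Indep G X)

theorem sum_tight (h0 : 0 < p) (h1 : p < 1) (A : RowAlg n Q) (s : ℕ) :
    ∑ t ∈ Finset.range (n + 1), Prob p (fun G => Tight s t (A.result G)) ≤ 1 := by
  classical
  rw [← Prob_true (p := p) (n := n) h1]
  unfold Prob
  rw [Finset.sum_comm]
  refine Finset.sum_le_sum fun G _ => ?_
  rw [if_pos trivial]
  have hw := weight_nonneg h0 h1 G
  by_cases hex : ∃ t ∈ Finset.range (n + 1), Tight s t (A.result G)
  · obtain ⟨t, ht, hT⟩ := hex
    rw [Finset.sum_eq_single t]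
    · rw [if_pos hT]
    · intro b _ hb
      rw [if_neg]
      intro hb'
      exact hb (hb'.unique hT)
    · intro hn
      exact absurd ht hn
  · rw [Finset.sum_eq_zero]
    · exact hw
    · intro t ht
      rw [if_neg]
      exact fun hT => hex ⟨t, ht, hT⟩

/-- light states -/
theorem prob_light (h0 : 0 < p) (h1 : p < 1) [Fintype Q] (A : RowAlg n Q) (t : ℕ) {τ : ℝ}
    (hτ : 0 ≤ τ) :
    Prob p (fun G => Prob p (fun H : SimpleGraph (Fin n) => A.state H t = A.state G t) < τ)
      ≤ Fintype.card Q * τ := by
  classical
  rw [Prob_fiber (fun G : SimpleGraph (Fin n) => A.state G t)]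
  calc ∑ q : Q, Prob p (fun G : SimpleGraph (Fin n) => A.state G t = q ∧
        Prob p (fun H : SimpleGraph (Fin n) => A.state H t = A.state G t) < τ)
      ≤ ∑ _q : Q, τ := by
        refine Finset.sum_le_sum fun q _ => ?_
        by_cases hq : Prob p (fun H : SimpleGraph (Fin n) => A.state H t = q) < τ
        · exact (Prob_mono h0 h1 fun G hG => hG.1).trans hq.le
        · refine le_trans (le_of_eq ?_) hτ
          have : (fun G : SimpleGraph (Fin n) => A.state G t = q ∧
              Prob p (fun H : SimpleGraph (Fin n) => A.state H t = A.state G t) < τ)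
              = fun _ => False := by
            funext G
            simp only [eq_iff_iff, iff_false]
            rintro ⟨h2, h3⟩
            rw [h2] at h3
            exact hq h3
          rw [this]
          simp [Prob]
    _ = Fintype.card Q * τ := by
        rw [Finset.sum_const, Finset.card_univ, nsmul_eq_mul]

/-- the event that the early part of the output is independent although this was unlikely -/
theorem prob_lucky (h0 : 0 < p) (h1 : p < 1) [Fintype Q] (A : RowAlg n Q) {t : ℕ} (ht : t ≤ n)
    (s : ℕ) {δ : ℝ} (hδ : 0 ≤ δ) :
    Prob p (fun G => Tight s t (A.result G) ∧ Indep G (bef t (A.result G)) ∧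
        ¬ Cond p A δ t (A.state G t) (bef t (A.result G)))
      ≤ δ * Prob p (fun G => Tight s t (A.result G)) := by
  classical
  set f : SimpleGraph (Fin n) → Q × Finset (Fin n) :=
    fun G => (A.state G t, bef t (A.result G)) with hf
  rw [Prob_fiber f, Prob_fiber f (fun G => Tight s t (A.result G)), Finset.mul_sum]
  refine Finset.sum_le_sum fun x _ => ?_
  obtain ⟨q, X⟩ := x
  by_cases hx : Cond p A δ t q X
  · refine le_trans (le_of_eq ?_) (mul_nonneg hδ (Prob_nonneg h0 h1 _))
    have : (fun G : SimpleGraph (Fin n) => f G = (q, X) ∧ Tight s t (A.result G) ∧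
        Indep G (bef t (A.result G)) ∧ ¬ Cond p A δ t (A.state G t) (bef t (A.result G)))
        = fun _ => False := by
      funext G
      simp only [eq_iff_iff, iff_false]
      rintro ⟨h2, _, _, h3⟩
      simp only [hf, Prod.mk.injEq] at h2
      rw [h2.1, h2.2] at h3
      exact h3 hx
    rw [this]
    simp [Prob]
  · by_cases hex : ∃ G : SimpleGraph (Fin n), f G = (q, X) ∧ Tight s t (A.result G)
    · obtain ⟨G₀, hG₀, hT₀⟩ := hex
      have htight : ∀ G : SimpleGraph (Fin n), bef t (A.result G) = X →
          Tight s t (A.result G) := by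
        intro G hG
        simp only [hf, Prod.mk.injEq] at hG₀
        refine ⟨by rw [hG, ← hG₀.2]; exact hT₀.1, ?_⟩
        obtain ⟨v, hv, hvt⟩ := hT₀.2
        have hvX : v ∈ X := by
          rw [← hG₀.2]
          exact mem_bef.2 ⟨hv, by omega⟩
        rw [← hG] at hvX
        exact ⟨v, (mem_bef.1 hvX).1, hvt⟩
      have hind1 := Prob_cut (p := p) t
        (fun G : SimpleGraph (Fin n) => A.state G t = q ∧ (X = bef t X ∧ Indep G X))
        (fun G : SimpleGraph (Fin n) => A.early t q G = X) (by
          intro G H hGH hG
          refine ⟨(A.state_congr hGH t le_rfl).symm.trans hG.1, hG.2.1, ?_⟩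
          intro u hu v hv huv
          rw [hG.2.1] at hu hv
          exact hG.2.2 u (mem_bef.1 hu).1 v (mem_bef.1 hv).1
            ((hGH u v (mem_bef.1 hu).2 (mem_bef.1 hv).2).2 huv)) (by
          intro G H hGH hG
          rw [← hG]
          unfold RowAlg.early
          rw [A.go_congr hGH])
      have hind2 := Prob_cut (p := p) t
        (fun G : SimpleGraph (Fin n) => A.state G t = q)
        (fun G : SimpleGraph (Fin n) => A.early t q G = X) (by
          intro G H hGH hG
          exact (A.state_congr hGH t le_rfl).symm.trans hG) (by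
          intro G H hGH hG
          rw [← hG]
          unfold RowAlg.early
          rw [A.go_congr hGH])
      calc Prob p (fun G : SimpleGraph (Fin n) => f G = (q, X) ∧ Tight s t (A.result G) ∧
            Indep G (bef t (A.result G)) ∧ ¬ Cond p A δ t (A.state G t) (bef t (A.result G)))
          ≤ Prob p (fun G : SimpleGraph (Fin n) =>
            (A.state G t = q ∧ (X = bef t X ∧ Indep G X)) ∧ A.early t q G = X) := by
            refine Prob_mono h0 h1 fun G hG => ?_
            obtain ⟨h2, _, h4, _⟩ := hG
            simp only [hf, Prod.mk.injEq] at h2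
            refine ⟨⟨h2.1, ?_, ?_⟩, ?_⟩
            · rw [← h2.2]
              ext v
              simp only [mem_bef]
              tauto
            · rw [← h2.2]
              exact h4
            · rw [← h2.1, A.early_state ht, h2.2]
        _ = Prob p (fun G : SimpleGraph (Fin n) => A.state G t = q ∧ (X = bef t X ∧ Indep G X))
            * Prob p (fun G : SimpleGraph (Fin n) => A.early t q G = X) := hind1
        _ ≤ (δ * Prob p (fun G : SimpleGraph (Fin n) => A.state G t = q))
            * Prob p (fun G : SimpleGraph (Fin n) => A.early t q G = X) := by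
            refine mul_le_mul_of_nonneg_right ?_ (Prob_nonneg h0 h1 _)
            unfold Cond at hx
            push Not at hx
            exact (Prob_mono h0 h1 fun G hG => ⟨hG.1, hG.2.2⟩).trans hx.le
        _ = δ * Prob p (fun G : SimpleGraph (Fin n) => A.state G t = q ∧ A.early t q G = X) := by
            rw [hind2]
            ring
        _ ≤ δ * Prob p (fun G : SimpleGraph (Fin n) => f G = (q, X) ∧
              Tight s t (A.result G)) := by
            refine mul_le_mul_of_nonneg_left (Prob_mono h0 h1 fun G hG => ?_) hδ
            obtain ⟨h2, h3⟩ := hG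
            rw [← h2, A.early_state ht] at h3
            exact ⟨by simp only [hf, h2, h3], htight G h3⟩
    · refine le_trans (le_of_eq ?_) (mul_nonneg hδ (Prob_nonneg h0 h1 _))
      have : (fun G : SimpleGraph (Fin n) => f G = (q, X) ∧ Tight s t (A.result G) ∧
          Indep G (bef t (A.result G)) ∧ ¬ Cond p A δ t (A.state G t) (bef t (A.result G)))
          = fun _ => False := by
        funext G
        simp only [eq_iff_iff, iff_false]
        rintro ⟨h2, h3, _⟩
        exact hex ⟨G, h2, h3⟩
      rw [this]
      simp [Prob]

end Pool.Agent.H61S
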