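import Pool.Agent.H61S.Few

/-!
If an event `A` has probability at least `w`, then there is a set of at most
`(2/δ) log(2/(δw)) c` pairs which contains almost all pairs of every set `X` that is independent
with conditional probability at least `δ` given `A`.
-/

set_option autoImplicit false
set_option linter.unusedSectionVars false

namespace Pool.Agent.H61S

open Finset Pool.Agent.H85.Online Pool.Agent.H72.Karp

variable {n : ℕ} {p : ℝ}

/-- the pairs inside `X` -/
def prs (X : Finset (Fin n)) : Finset (Sym2 (Fin n)) := X.offDiag.image Sym2.mk.uncurry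

theorem mem_prs {X : Finset (Fin n)} {u v : Fin n} :
    s(u, v) ∈ prs X ↔ u ≠ v ∧ u ∈ X ∧ v ∈ X := by
  unfold prs
  rw [Finset.mem_image]
  constructor
  · rintro ⟨⟨a, b⟩, hab, he⟩
    have hab' := Finset.mem_offDiag.1 hab
    rcases Sym2.eq_iff.1 he with ⟨h1, h2⟩ | ⟨h1, h2⟩
    · simp only at h1 h2
      subst h1; subst h2
      exact ⟨hab'.2.2, hab'.1, hab'.2.1⟩
    · simp only at h1 h2
      subst h1; subst h2
      exact ⟨hab'.2.2.symm, hab'.2.1, hab'.1⟩
  · rintro ⟨h1, h2, h3⟩
    exact ⟨(u, v), Finset.mem_offDiag.2 ⟨h2, h3, h1⟩, rfl⟩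

theorem card_prs (X : Finset (Fin n)) : (prs X).card = X.card.choose 2 :=
  Sym2.card_image_offDiag X

theorem indep_iff {G : SimpleGraph (Fin n)} {X : Finset (Fin n)} :
    Indep G X ↔ ∀ e ∈ prs X, e ∉ G.edgeSet := by
  constructor
  · intro h e he
    induction e using Sym2.ind with
    | _ u v =>
    obtain ⟨_, hu, hv⟩ := mem_prs.1 he
    rw [SimpleGraph.mem_edgeSet]
    exact h u hu v hv
  · intro h u hu v hv huv
    exact h s(u, v) (mem_prs.2 ⟨huv.ne, hu, hv⟩) huv

theorem indep_sup_edge {G : SimpleGraph (Fin n)} {X : Finset (Fin n)} {u v : Fin n} (huv : u ≠ v)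
    (h : s(u, v) ∉ prs X) : Indep (G ⊔ SimpleGraph.edge u v) X ↔ Indep G X := by
  rw [indep_iff, indep_iff]
  refine forall_congr' fun e => forall_congr' fun he => ?_
  rw [edgeSet_sup_edge G huv, Set.mem_insert_iff]
  have : e ≠ s(u, v) := by
    rintro rfl
    exact h he
  simp [this]

/-- the pairs inside the sets of a list -/
def cov : List (Finset (Fin n)) → Finset (Sym2 (Fin n))
  | [] => ∅
  | X :: l => prs X ∪ cov l

/-- every set of the list has at least `e` new pairs -/
def NewL (F : Finset (Fin n) → Prop) (e : ℕ) : List (Finset (Fin n)) → Prop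
  | [] => True
  | X :: l => F X ∧ e ≤ (prs X \ cov l).card ∧ NewL F e l

theorem NewL.card {F : Finset (Fin n) → Prop} {e : ℕ} :
    ∀ {l : List (Finset (Fin n))}, NewL F e l → e * l.length ≤ (cov l).card
  | [], _ => by simp
  | X :: l, h => by
    have ih := NewL.card h.2.2
    have h2 : (cov (X :: l)).card = (prs X \ cov l).card + (cov l).card := by
      change (prs X ∪ cov l).card = _
      rw [← Finset.sdiff_union_self_eq_union, Finset.card_union_of_disjoint
        Finset.sdiff_disjoint]
    rw [h2, List.length_cons, mul_add, mul_one]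
    have := h.2.1
    omega

theorem NewL.card_le {F : Finset (Fin n) → Prop} {e c : ℕ} (hF : ∀ X, F X → (prs X).card ≤ c) :
    ∀ {l : List (Finset (Fin n))}, NewL F e l → (cov l).card ≤ l.length * c
  | [], _ => by simp [cov]
  | X :: l, h => by
    have ih := NewL.card_le hF h.2.2
    have h2 : (cov (X :: l)).card ≤ (prs X).card + (cov l).card := Finset.card_union_le _ _
    have := hF X h.1
    rw [List.length_cons, add_mul, one_mul]
    omega

theorem exists_maximal_list (F : Finset (Fin n) → Prop) {e : ℕ} (he : 0 < e) :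
    ∃ l, NewL F e l ∧ ∀ X, F X → (prs X \ cov l).card < e := by
  by_contra hcon
  push Not at hcon
  have hall : ∀ m : ℕ, ∃ l, NewL F e l ∧ l.length = m := by
    intro m
    induction m with
    | zero => exact ⟨[], trivial, rfl⟩
    | succ m ih =>
      obtain ⟨l, hl, hm⟩ := ih
      obtain ⟨X, hX, hXe⟩ := hcon l hl
      exact ⟨X :: l, ⟨hX, hXe, hl⟩, by rw [List.length_cons, hm]⟩
  obtain ⟨l, hl, hm⟩ := hall (Fintype.card (Sym2 (Fin n)) + 1)
  have h1 := hl.card
  have h2 : (cov l).card ≤ Fintype.card (Sym2 (Fin n)) := Finset.card_le_univ _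
  rw [hm] at h1
  nlinarith

open Classical in
/-- the number of independent sets in the list -/
noncomputable def cnt (G : SimpleGraph (Fin n)) : List (Finset (Fin n)) → ℕ
  | [] => 0
  | X :: l => (if Indep G X then 1 else 0) + cnt G l

theorem cnt_le (G : SimpleGraph (Fin n)) : ∀ l : List (Finset (Fin n)), cnt G l ≤ l.length
  | [] => le_rfl
  | X :: l => by
    have := cnt_le G l
    unfold cnt
    rw [List.length_cons]
    split_ifs <;> omega

theorem cnt_sup_edge {G : SimpleGraph (Fin n)} {u v : Fin n} (huv : u ≠ v) :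
    ∀ {l : List (Finset (Fin n))}, s(u, v) ∉ cov l →
      cnt (G ⊔ SimpleGraph.edge u v) l = cnt G l
  | [], _ => rfl
  | X :: l, h => by
    have h' : s(u, v) ∉ prs X ∪ cov l := h
    rw [Finset.mem_union, not_or] at h'
    unfold cnt
    rw [cnt_sup_edge huv h'.2]
    by_cases hX : Indep G X
    · rw [if_pos ((indep_sup_edge huv h'.1).2 hX), if_pos hX]
    · rw [if_neg (fun hh => hX ((indep_sup_edge huv h'.1).1 hh)), if_neg hX]

theorem tail_cnt (h0 : 0 < p) (h1 : p < 1) {F : Finset (Fin n) → Prop} {e : ℕ} :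
    ∀ {l : List (Finset (Fin n))}, NewL F e l → ∀ r : ℕ,
      Prob p (fun G : SimpleGraph (Fin n) => r ≤ cnt G l)
        ≤ (l.length.choose r : ℝ) * ((1 - p) ^ e) ^ r
  | [], _, r => by
    rcases Nat.eq_zero_or_pos r with rfl | hr
    · simpa using Prob_le_one h0 h1 _
    · have : (fun G : SimpleGraph (Fin n) => r ≤ cnt G []) = fun _ => False := by
        funext G
        simp only [cnt, eq_iff_iff, iff_false]
        omega
      rw [this]
      have : Prob p (fun _ : SimpleGraph (Fin n) => False) = 0 := by simp [Prob]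
      rw [this]
      have : 0 ≤ 1 - p := by linarith
      positivity
  | X :: l, h, r => by
    have hy0 : 0 ≤ (1 - p) ^ e := pow_nonneg (by linarith) _
    cases r with
    | zero => simpa using Prob_le_one h0 h1 _
    | succ r =>
      have ih1 := tail_cnt h0 h1 h.2.2 (r + 1)
      have ih2 := tail_cnt h0 h1 h.2.2 r
      have hind := Prob_and_no_edges (p := p)
        (fun G : SimpleGraph (Fin n) => r ≤ cnt G l) (prs X \ cov l) (by
          intro u v huv
          obtain ⟨h2, h3⟩ := Finset.mem_sdiff.1 huv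
          have hne := (mem_prs.1 h2).1
          refine ⟨hne, fun G => ?_⟩
          show r ≤ cnt (G ⊔ SimpleGraph.edge u v) l ↔ r ≤ cnt G l
          rw [cnt_sup_edge hne h3])
      calc Prob p (fun G : SimpleGraph (Fin n) => r + 1 ≤ cnt G (X :: l))
          ≤ Prob p (fun G : SimpleGraph (Fin n) => r + 1 ≤ cnt G l ∨
              (r ≤ cnt G l ∧ ∀ e ∈ prs X \ cov l, e ∉ G.edgeSet)) := by
            refine Prob_mono h0 h1 fun G hG => ?_
            unfold cnt at hG
            split_ifs at hG with hX
            · right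
              refine ⟨by omega, fun e he => indep_iff.1 hX e (Finset.mem_sdiff.1 he).1⟩
            · left
              omega
        _ ≤ Prob p (fun G : SimpleGraph (Fin n) => r + 1 ≤ cnt G l) +
            Prob p (fun G : SimpleGraph (Fin n) =>
              r ≤ cnt G l ∧ ∀ e ∈ prs X \ cov l, e ∉ G.edgeSet) := Prob_or h0 h1 _ _
        _ ≤ (l.length.choose (r + 1) : ℝ) * ((1 - p) ^ e) ^ (r + 1)
            + (1 - p) ^ e * ((l.length.choose r : ℝ) * ((1 - p) ^ e) ^ r) := by
            refine add_le_add ih1 ?_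
            rw [hind]
            refine mul_le_mul ?_ ih2 (Prob_nonneg h0 h1 _) hy0
            exact pow_le_pow_of_le_one (by linarith) (by linarith) h.2.1
        _ = ((X :: l).length.choose (r + 1) : ℝ) * ((1 - p) ^ e) ^ (r + 1) := by
            rw [List.length_cons, Nat.choose_succ_succ]
            push_cast
            ring

open Classical in
theorem sum_cnt (h0 : 0 < p) (h1 : p < 1) (A : SimpleGraph (Fin n) → Prop)
    {F : Finset (Fin n) → Prop} {e : ℕ} {w : ℝ}
    (hF : ∀ X, F X → w ≤ Prob p (fun G => A G ∧ Indep G X)) :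
    ∀ {l : List (Finset (Fin n))}, NewL F e l →
      w * l.length ≤ EG p (fun G => if A G then (cnt G l : ℝ) else 0)
  | [], _ => by
    simp [EG, cnt]
  | X :: l, h => by
    have ih := sum_cnt h0 h1 A hF h.2.2
    have h2 := hF X h.1
    have h3 : EG p (fun G : SimpleGraph (Fin n) => if A G then (cnt G (X :: l) : ℝ) else 0)
        = Prob p (fun G => A G ∧ Indep G X) + EG p (fun G => if A G then (cnt G l : ℝ) else 0) := by
      rw [Prob_eq]
      unfold EG
      rw [← Finset.sum_add_distrib]
      refine Finset.sum_congr rfl fun G _ => ?_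
      rw [← mul_add]
      congr 1
      by_cases hA : A G <;> by_cases hI : Indep G X <;> simp [hA, hI, cnt]
    rw [h3, List.length_cons]
    push_cast
    linarith

/-- the length of a list of sets with new pairs which are independent with probability at least
`δ` given `A` -/
theorem length_bound (h0 : 0 < p) (h1 : p < 1) (A : SimpleGraph (Fin n) → Prop)
    {F : Finset (Fin n) → Prop} {e : ℕ} (he : 0 < e) {δ : ℝ} (hδ : 0 < δ) (hδ1 : δ ≤ 1)
    (hA : 0 < Prob p A) (hF : ∀ X, F X → δ * Prob p A ≤ Prob p (fun G => A G ∧ Indep G X))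
    (hy : (n : ℝ) ^ 2 * (1 - p) ^ e ≤ Real.exp (-1)) {l : List (Finset (Fin n))}
    (hl : NewL F e l) : (l.length : ℝ) ≤ 2 / δ * Real.log (2 / (δ * Prob p A)) := by
  classical
  set w : ℝ := Prob p A with hw
  have hw1 : w ≤ 1 := Prob_le_one h0 h1 A
  set m : ℕ := l.length with hm
  have hlog : 0 ≤ Real.log (2 / (δ * w)) := by
    refine Real.log_nonneg ?_
    rw [le_div_iff₀ (by positivity)]
    nlinarith
  rcases Nat.eq_zero_or_pos m with hm0 | hmpos
  · rw [hm0]
    simp only [Nat.cast_zero]
    positivity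
  have hmr : (0 : ℝ) < m := by exact_mod_cast hmpos
  set r : ℕ := ⌈δ * m / 2⌉₊ with hr
  have hr1 : δ * m / 2 ≤ r := Nat.le_ceil _
  have hsum := sum_cnt h0 h1 A hF hl
  have hup : EG p (fun G : SimpleGraph (Fin n) => if A G then (cnt G l : ℝ) else 0)
      ≤ m * Prob p (fun G : SimpleGraph (Fin n) => r ≤ cnt G l) + (δ * m / 2) * w := by
    rw [hw, Prob_eq, Prob_eq]
    unfold EG
    rw [Finset.mul_sum, Finset.mul_sum, ← Finset.sum_add_distrib]
    refine Finset.sum_le_sum fun G _ => ?_
    have hwt := weight_nonneg h0 h1 G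
    have hc : (cnt G l : ℝ) ≤ m := by exact_mod_cast cnt_le G l
    have hd0 : 0 ≤ δ * m / 2 := by positivity
    have key : (if A G then (cnt G l : ℝ) else 0)
        ≤ m * (if r ≤ cnt G l then 1 else 0) + δ * m / 2 * (if A G then 1 else 0) := by
      by_cases hAG : A G
      · rw [if_pos hAG, if_pos hAG]
        by_cases hrc : r ≤ cnt G l
        · rw [if_pos hrc]
          linarith
        · rw [if_neg hrc]
          push Not at hrc
          have hc2 : (cnt G l : ℝ) ≤ δ * m / 2 := by
            have := Nat.lt_ceil.1 hrc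
            exact this.le
          linarith
      · rw [if_neg hAG, if_neg hAG]
        split_ifs <;> simp
    calc weight p G * (if A G then (cnt G l : ℝ) else 0)
        ≤ weight p G * (m * (if r ≤ cnt G l then 1 else 0)
          + δ * m / 2 * (if A G then 1 else 0)) := mul_le_mul_of_nonneg_left key hwt
      _ = m * (weight p G * (if r ≤ cnt G l then 1 else 0))
          + δ * m / 2 * (weight p G * (if A G then 1 else 0)) := by ring
      _ = _ := by
          by_cases hrc : r ≤ cnt G l <;> simp [hrc]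
  have hP : δ * w / 2 ≤ Prob p (fun G : SimpleGraph (Fin n) => r ≤ cnt G l) := by
    have h3 : δ * w * m ≤ m * Prob p (fun G : SimpleGraph (Fin n) => r ≤ cnt G l)
        + (δ * m / 2) * w := hsum.trans hup
    have h4 : m * (δ * w / 2) ≤ m * Prob p (fun G : SimpleGraph (Fin n) => r ≤ cnt G l) := by
      linarith
    exact le_of_mul_le_mul_left h4 hmr
  have hmn : (m : ℝ) ≤ (n : ℝ) ^ 2 := by
    have h3 : e * m ≤ (cov l).card := hl.card
    have h4 : (cov l).card ≤ (n + 1).choose 2 := by
      have := Finset.card_le_univ (cov l)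
      rwa [Sym2.card, Fintype.card_fin] at this
    have h5 : (n + 1).choose 2 ≤ n ^ 2 := by
      rw [Nat.choose_two_right, Nat.add_sub_cancel]
      refine Nat.div_le_of_le_mul ?_
      nlinarith
    have h6 : m ≤ e * m := Nat.le_mul_of_pos_left _ he
    exact_mod_cast h6.trans (h3.trans (h4.trans h5))
  have htail : Prob p (fun G : SimpleGraph (Fin n) => r ≤ cnt G l) ≤ Real.exp (-(δ * m / 2)) := by
    have hy0 : 0 ≤ (1 - p) ^ e := pow_nonneg (by linarith) _
    calc Prob p (fun G : SimpleGraph (Fin n) => r ≤ cnt G l)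
        ≤ (m.choose r : ℝ) * ((1 - p) ^ e) ^ r := tail_cnt h0 h1 hl r
      _ ≤ (m : ℝ) ^ r * ((1 - p) ^ e) ^ r := by
          refine mul_le_mul_of_nonneg_right ?_ (by positivity)
          exact_mod_cast Nat.choose_le_pow m r
      _ = (m * (1 - p) ^ e) ^ r := by rw [mul_pow]
      _ ≤ (Real.exp (-1)) ^ r := by
          refine pow_le_pow_left₀ (by positivity) (le_trans ?_ hy) _
          exact mul_le_mul_of_nonneg_right hmn hy0
      _ = Real.exp (-(r : ℝ)) := by
          rw [← Real.exp_nat_mul]
          congr 1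
          ring
      _ ≤ Real.exp (-(δ * m / 2)) := Real.exp_le_exp.2 (by linarith)
  have hfin : δ * w / 2 ≤ Real.exp (-(δ * m / 2)) := hP.trans htail
  have hlog2 : δ * m / 2 ≤ Real.log (2 / (δ * w)) := by
    rw [Real.le_log_iff_exp_le (by positivity), le_div_iff₀ (by positivity)]
    have h5 : Real.exp (δ * m / 2) * Real.exp (-(δ * m / 2)) = 1 := by
      rw [← Real.exp_add, add_neg_cancel, Real.exp_zero]
    have h6 : Real.exp (δ * m / 2) * (δ * w / 2) ≤ 1 := by
      rw [← h5]
      exact mul_le_mul_of_nonneg_left hfin (Real.exp_pos _).le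
    linarith
  rw [div_mul_eq_mul_div, le_div_iff₀ hδ]
  linarith

/-- The covering lemma. -/
theorem cover (h0 : 0 < p) (h1 : p < 1) (A : SimpleGraph (Fin n) → Prop)
    {F : Finset (Fin n) → Prop} {e c : ℕ} (he : 0 < e) {δ : ℝ} (hδ : 0 < δ) (hδ1 : δ ≤ 1)
    (hA : 0 < Prob p A) (hF : ∀ X, F X → δ * Prob p A ≤ Prob p (fun G => A G ∧ Indep G X))
    (hc : ∀ X, F X → (prs X).card ≤ c) (hy : (n : ℝ) ^ 2 * (1 - p) ^ e ≤ Real.exp (-1)) :
    ∃ E : Finset (Sym2 (Fin n)), (E.card : ℝ) ≤ 2 / δ * Real.log (2 / (δ * Prob p A)) * c ∧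
      ∀ X, F X → (prs X \ E).card < e := by
  obtain ⟨l, hl, hmax⟩ := exists_maximal_list F he
  refine ⟨cov l, ?_, hmax⟩
  have h2 : ((cov l).card : ℝ) ≤ l.length * c := by exact_mod_cast hl.card_le hc
  exact h2.trans (mul_le_mul_of_nonneg_right (length_bound h0 h1 A he hδ hδ1 hA hF hy hl)
    (by positivity))

end Pool.Agent.H61S
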