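import Pool.Agent.H61S.Basic

/-!
In a balanced graph every set of at most `e^x` vertices contains at most `Λ^j e^{x²/(2β)+x}`
independent sets with `j` vertices.
-/

set_option autoImplicit false
set_option linter.unusedSectionVars false

namespace Pool.Agent.H61S

open Finset Pool.Agent.H85.Online Pool.Agent.H72.Karp

variable {n : ℕ}

open Classical in
/-- the independent subsets of `U` with `j` vertices -/
noncomputable def indeps (G : SimpleGraph (Fin n)) (U : Finset (Fin n)) (j : ℕ) :
    Finset (Finset (Fin n)) :=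
  (Finset.powersetCard j U).filter fun Y => Indep G Y

open Classical in
/-- the vertices of `U` other than `v` and not adjacent to `v` -/
noncomputable def nb (G : SimpleGraph (Fin n)) (U : Finset (Fin n)) (v : Fin n) :
    Finset (Fin n) :=
  U.filter fun u => u ≠ v ∧ ¬ G.Adj v u

theorem nb_subset (G : SimpleGraph (Fin n)) (U : Finset (Fin n)) (v : Fin n) : nb G U v ⊆ U := by
  classical
  exact Finset.filter_subset _ _

theorem indep_sub {G : SimpleGraph (Fin n)} {I J : Finset (Fin n)} (h : I ⊆ J)
    (hJ : Indep G J) : Indep G I := fun u hu v hv => hJ u (h hu) v (h hv)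

theorem card_indeps_le (G : SimpleGraph (Fin n)) (U : Finset (Fin n)) (j : ℕ) :
    (indeps G U j).card ≤ U.card ^ j := by
  classical
  refine (Finset.card_le_card (Finset.filter_subset _ _)).trans ?_
  rw [Finset.card_powersetCard]
  exact Nat.choose_le_pow _ _

theorem card_indeps_succ (G : SimpleGraph (Fin n)) (U : Finset (Fin n)) (j : ℕ) :
    (indeps G U (j + 1)).card ≤ ∑ v ∈ U, (indeps G (nb G U v) j).card := by
  classical
  have hsub : indeps G U (j + 1)
      ⊆ U.biUnion fun v => (indeps G (nb G U v) j).image fun Y => insert v Y := by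
    intro Y hY
    obtain ⟨hY1, hY2⟩ := Finset.mem_filter.1 hY
    obtain ⟨hYU, hYc⟩ := Finset.mem_powersetCard.1 hY1
    have hne : Y.Nonempty := by
      rw [← Finset.card_pos]
      omega
    obtain ⟨v, hv⟩ := hne
    refine Finset.mem_biUnion.2 ⟨v, hYU hv, Finset.mem_image.2 ⟨Y.erase v, ?_, ?_⟩⟩
    · refine Finset.mem_filter.2 ⟨Finset.mem_powersetCard.2 ⟨?_, ?_⟩, ?_⟩
      · intro u hu
        obtain ⟨hu1, hu2⟩ := Finset.mem_erase.1 hu
        exact Finset.mem_filter.2 ⟨hYU hu2, hu1, hY2 v hv u hu2⟩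
      · rw [Finset.card_erase_of_mem hv, hYc]
        rfl
      · exact indep_sub (Finset.erase_subset _ _) hY2
    · exact Finset.insert_erase hv
  refine (Finset.card_le_card hsub).trans (Finset.card_biUnion_le.trans ?_)
  exact Finset.sum_le_sum fun v _ => Finset.card_image_le

/-- few vertices have many non-neighbours in `U` -/
theorem few_exceptional {V : Finset (Fin n)} {ℓ : ℕ} {θ δ : ℝ} {G : SimpleGraph (Fin n)}
    (hB : Balanced V ℓ θ G) (hθ : 0 ≤ θ) {U : Finset (Fin n)} (hU : U ⊆ V) (hU2 : 2 * ℓ ≤ U.card)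
    (hU3 : (ℓ : ℝ) ≤ δ * U.card) (hℓ : 0 < ℓ) :
    (U.filter fun v => (θ + δ) * U.card < (nb G U v).card).card < ℓ := by
  classical
  by_contra hcon
  push Not at hcon
  obtain ⟨A, hAs, hAc⟩ := Finset.exists_subset_card_eq hcon
  have hAU : A ⊆ U := hAs.trans (Finset.filter_subset _ _)
  have hc1 : (U \ A).card = U.card - ℓ := by
    rw [Finset.card_sdiff_of_subset hAU, hAc]
  have h1 := hB A (U \ A) (hAU.trans hU) (Finset.sdiff_subset.trans hU)
    Finset.disjoint_sdiff hAc (by omega)
  have h2 : nonadj G A (U \ A) = ∑ v ∈ A, ((U \ A).filter fun u => ¬ G.Adj v u).card := by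
    unfold nonadj
    rw [Finset.card_filter, Finset.sum_product]
    refine Finset.sum_congr rfl fun v _ => ?_
    rw [Finset.card_filter]
  have h3 : ∀ v ∈ A, (θ + δ) * U.card - ℓ
      < (((U \ A).filter fun u => ¬ G.Adj v u).card : ℝ) := by
    intro v hv
    have h4 := (Finset.mem_filter.1 (hAs hv)).2
    have h5 : (nb G U v).card ≤ ((U \ A).filter fun u => ¬ G.Adj v u).card + A.card := by
      refine le_trans (Finset.card_le_card (t := ((U \ A).filter fun u => ¬ G.Adj v u) ∪ A) ?_)
        (Finset.card_union_le _ _)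
      intro u hu
      obtain ⟨hu1, _, hu3⟩ := Finset.mem_filter.1 hu
      by_cases huA : u ∈ A
      · exact Finset.mem_union_right _ huA
      · exact Finset.mem_union_left _ (Finset.mem_filter.2 ⟨Finset.mem_sdiff.2 ⟨hu1, huA⟩, hu3⟩)
    have h6 : ((nb G U v).card : ℝ)
        ≤ ((U \ A).filter fun u => ¬ G.Adj v u).card + A.card := by exact_mod_cast h5
    rw [hAc] at h6
    linarith
  have hAne : A.Nonempty := by
    rw [← Finset.card_pos, hAc]
    exact hℓ
  have h7 : ∑ v ∈ A, ((θ + δ) * (U.card : ℝ) - ℓ) < (nonadj G A (U \ A) : ℝ) := by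
    rw [h2]
    push_cast
    exact Finset.sum_lt_sum_of_nonempty hAne h3
  rw [Finset.sum_const, hAc, nsmul_eq_mul] at h7
  have h8 : (ℓ : ℝ) * (θ * U.card) ≤ ℓ * ((θ + δ) * (U.card : ℝ) - ℓ) := by
    refine mul_le_mul_of_nonneg_left ?_ (by positivity)
    linarith
  have h9 : ((U \ A).card : ℝ) ≤ U.card := by
    exact_mod_cast Finset.card_le_card Finset.sdiff_subset
  have h10 : θ * (ℓ * ((U \ A).card : ℝ)) ≤ θ * (ℓ * (U.card : ℝ)) :=
    mul_le_mul_of_nonneg_left (mul_le_mul_of_nonneg_left h9 (by positivity)) hθ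
  linarith

/-- the number of independent sets in a set of at most `e^x` vertices -/
theorem few {V : Finset (Fin n)} {ℓ : ℕ} {θ δ β Λ : ℝ} {G : SimpleGraph (Fin n)}
    (hB : Balanced V ℓ θ G) (hθ : 0 ≤ θ) (hδ : 0 < δ) (hℓ : 0 < ℓ) (hβ : 0 < β)
    (hρ : θ + δ ≤ Real.exp (-β)) (hΛ1 : (ℓ : ℝ) + 1 ≤ Λ) (hΛ2 : 2 * (ℓ : ℝ) ≤ Λ)
    (hΛ3 : (ℓ : ℝ) ≤ δ * Λ) :
    ∀ (j : ℕ) (x : ℝ), 0 ≤ x → ∀ U : Finset (Fin n), U ⊆ V → (U.card : ℝ) ≤ Real.exp x →
      ((indeps G U j).card : ℝ) ≤ Λ ^ j * Real.exp (x ^ 2 / (2 * β) + x) := by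
  classical
  have hℓ1 : (1 : ℝ) ≤ ℓ := by exact_mod_cast hℓ
  have hΛ0 : 1 ≤ Λ := by linarith
  intro j
  induction j with
  | zero =>
    intro x hx U _ _
    have h1 := card_indeps_le G U 0
    have h2 : ((indeps G U 0).card : ℝ) ≤ 1 := by
      have : (indeps G U 0).card ≤ 1 := by simpa using h1
      exact_mod_cast this
    rw [pow_zero, one_mul]
    refine h2.trans (Real.one_le_exp ?_)
    positivity
  | succ j ih =>
    intro x hx U hUV hUx
    have hh0 : 0 ≤ x ^ 2 / (2 * β) + x := by positivity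
    by_cases hsmall : (U.card : ℝ) < Λ
    · have h1 : ((indeps G U (j + 1)).card : ℝ) ≤ (U.card : ℝ) ^ (j + 1) := by
        exact_mod_cast card_indeps_le G U (j + 1)
      have h2 : (U.card : ℝ) ^ (j + 1) ≤ Λ ^ (j + 1) :=
        pow_le_pow_left₀ (by positivity) hsmall.le _
      have h3 : Λ ^ (j + 1) * 1 ≤ Λ ^ (j + 1) * Real.exp (x ^ 2 / (2 * β) + x) :=
        mul_le_mul_of_nonneg_left (Real.one_le_exp hh0) (by positivity)
      linarith
    · push Not at hsmall
      have hU2 : 2 * ℓ ≤ U.card := by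
        have : 2 * (ℓ : ℝ) ≤ U.card := hΛ2.trans hsmall
        exact_mod_cast this
      have hU3 : (ℓ : ℝ) ≤ δ * U.card :=
        hΛ3.trans (mul_le_mul_of_nonneg_left hsmall hδ.le)
      set Z : Finset (Fin n) := U.filter fun v => (θ + δ) * U.card < (nb G U v).card with hZ
      have hZc : Z.card < ℓ := few_exceptional hB hθ hUV hU2 hU3 hℓ
      set E : ℝ := Λ ^ j * Real.exp (x ^ 2 / (2 * β) + x) with hE
      have hE0 : 0 ≤ E := by positivity
      have hbad : ∀ v ∈ Z, ((indeps G (nb G U v) j).card : ℝ) ≤ E := by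
        intro v _
        refine ih x hx _ ((nb_subset _ _ _).trans hUV) (le_trans ?_ hUx)
        exact_mod_cast Finset.card_le_card (nb_subset _ _ _)
      have hgood : ∀ v ∈ U \ Z, ((indeps G (nb G U v) j).card : ℝ)
          ≤ Λ ^ j * Real.exp (x ^ 2 / (2 * β)) := by
        intro v hv
        obtain ⟨hvU, hvZ⟩ := Finset.mem_sdiff.1 hv
        have h1 : ((nb G U v).card : ℝ) ≤ (θ + δ) * U.card := by
          by_contra hcon
          push Not at hcon
          exact hvZ (Finset.mem_filter.2 ⟨hvU, hcon⟩)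
        have h2 : ((nb G U v).card : ℝ) ≤ Real.exp (x - β) := by
          refine h1.trans ?_
          have e : Real.exp (x - β) = Real.exp (-β) * Real.exp x := by
            rw [← Real.exp_add]
            congr 1
            ring
          rw [e]
          exact mul_le_mul hρ hUx (by positivity) (Real.exp_pos _).le
        by_cases hxβ : β ≤ x
        · refine (ih (x - β) (by linarith) _ ((nb_subset _ _ _).trans hUV) h2).trans ?_
          refine mul_le_mul_of_nonneg_left (Real.exp_le_exp.2 ?_) (by positivity)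
          have e : (x - β) ^ 2 / (2 * β) + (x - β) = x ^ 2 / (2 * β) - β / 2 := by
            field_simp
            ring
          rw [e]
          linarith
        · push Not at hxβ
          have h3 : ((nb G U v).card : ℝ) < 1 := by
            refine lt_of_le_of_lt h2 ?_
            rw [← Real.exp_zero]
            exact Real.exp_lt_exp.2 (by linarith)
          have h4 : (nb G U v).card = 0 := by
            have : (nb G U v).card < 1 := by exact_mod_cast h3
            omega
          have h5 : (indeps G (nb G U v) j).card ≤ 1 := by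
            refine (card_indeps_le G _ j).trans ?_
            rw [h4]
            rcases Nat.eq_zero_or_pos j with rfl | hj
            · simp
            · rw [zero_pow hj.ne']
              exact Nat.zero_le _
          have h6 : ((indeps G (nb G U v) j).card : ℝ) ≤ 1 := by exact_mod_cast h5
          refine h6.trans ?_
          have h7 : (1 : ℝ) ≤ Λ ^ j := one_le_pow₀ hΛ0
          have h8 : (1 : ℝ) ≤ Real.exp (x ^ 2 / (2 * β)) := Real.one_le_exp (by positivity)
          nlinarith
      have h1 : ((indeps G U (j + 1)).card : ℝ)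
          ≤ ∑ v ∈ U, ((indeps G (nb G U v) j).card : ℝ) := by
        exact_mod_cast card_indeps_succ G U j
      have hZU : Z ⊆ U := Finset.filter_subset _ _
      rw [← Finset.sum_sdiff hZU] at h1
      have h2 : ∑ v ∈ U \ Z, ((indeps G (nb G U v) j).card : ℝ) ≤ E := by
        calc ∑ v ∈ U \ Z, ((indeps G (nb G U v) j).card : ℝ)
            ≤ ∑ v ∈ U \ Z, Λ ^ j * Real.exp (x ^ 2 / (2 * β)) := Finset.sum_le_sum hgood
          _ = ((U \ Z).card : ℝ) * (Λ ^ j * Real.exp (x ^ 2 / (2 * β))) := by
              rw [Finset.sum_const, nsmul_eq_mul]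
          _ ≤ Real.exp x * (Λ ^ j * Real.exp (x ^ 2 / (2 * β))) := by
              refine mul_le_mul_of_nonneg_right (le_trans ?_ hUx) (by positivity)
              exact_mod_cast Finset.card_le_card Finset.sdiff_subset
          _ = E := by
              rw [hE, Real.exp_add]
              ring
      have h3 : ∑ v ∈ Z, ((indeps G (nb G U v) j).card : ℝ) ≤ ℓ * E := by
        calc ∑ v ∈ Z, ((indeps G (nb G U v) j).card : ℝ) ≤ ∑ v ∈ Z, E := Finset.sum_le_sum hbad
          _ = (Z.card : ℝ) * E := by rw [Finset.sum_const, nsmul_eq_mul]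
          _ ≤ ℓ * E := by
              refine mul_le_mul_of_nonneg_right ?_ hE0
              exact_mod_cast hZc.le
      calc ((indeps G U (j + 1)).card : ℝ) ≤ E + ℓ * E := by linarith
        _ = (ℓ + 1) * E := by ring
        _ ≤ Λ * E := mul_le_mul_of_nonneg_right hΛ1 hE0
        _ = Λ ^ (j + 1) * Real.exp (x ^ 2 / (2 * β) + x) := by
            rw [hE]
            ring

end Pool.Agent.H61S
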