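import Pool.Agent.H61S.Basic

/-!
One-pass algorithms which read a graph row by row and return a set of vertices.
-/

set_option autoImplicit false

namespace Pool.Agent.H61S

open Finset Pool.Agent.H85.Online Pool.Agent.H72.Karp

/-- the row of the vertex `i`: the vertices before `i` which are adjacent to `i` -/
noncomputable def row {n : ℕ} (G : SimpleGraph (Fin n)) (i : Fin n) : Finset (Fin n) :=
  open Classical in Finset.univ.filter fun j => j < i ∧ G.Adj j i

theorem mem_row {n : ℕ} {G : SimpleGraph (Fin n)} {i j : Fin n} :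
    j ∈ row G i ↔ j < i ∧ G.Adj j i := by
  classical
  unfold row
  simp

/-- A deterministic one-pass algorithm on graphs on `Fin n` with the set `Q` of memory states, with
no bound on computation. In the state `q` it reads the row of the next vertex `i` and goes to the
state `step q i (row G i)`; `out q` is the set of vertices it returns when its last state is `q`. -/
structure RowAlg (n : ℕ) (Q : Type) where
  /-- the first state -/
  start : Q
  /-- the next state -/
  step : Q → Fin n → Finset (Fin n) → Q
  /-- the set which is returned -/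
  out : Q → Finset (Fin n)

variable {n : ℕ} {Q : Type}

/-- the state after the rows of the first `t` vertices -/
noncomputable def RowAlg.state (A : RowAlg n Q) (G : SimpleGraph (Fin n)) : ℕ → Q
  | 0 => A.start
  | t + 1 => if h : t < n then A.step (A.state G t) ⟨t, h⟩ (row G ⟨t, h⟩) else A.state G t

/-- the set returned on the graph `G` -/
noncomputable def RowAlg.result (A : RowAlg n Q) (G : SimpleGraph (Fin n)) : Finset (Fin n) :=
  A.out (A.state G n)

/-- the state after `m` further rows, when the state before the row of the vertex `t` is `q` -/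
noncomputable def RowAlg.go (A : RowAlg n Q) (G : SimpleGraph (Fin n)) (t : ℕ) (q : Q) : ℕ → Q
  | 0 => q
  | m + 1 => if h : t + m < n then A.step (A.go G t q m) ⟨t + m, h⟩ (row G ⟨t + m, h⟩)
      else A.go G t q m

theorem RowAlg.go_state (A : RowAlg n Q) (G : SimpleGraph (Fin n)) (t : ℕ) :
    ∀ m : ℕ, A.go G t (A.state G t) m = A.state G (t + m)
  | 0 => rfl
  | m + 1 => by
    change (if h : t + m < n then _ else _) = (if h : t + m < n then _ else _)
    rw [A.go_state G t m]
    rfl

theorem row_congr {G H : SimpleGraph (Fin n)} {i : Fin n}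
    (h : ∀ j, j < i → (G.Adj j i ↔ H.Adj j i)) : row G i = row H i := by
  classical
  unfold row
  ext j
  simp only [Finset.mem_filter, Finset.mem_univ, true_and]
  exact and_congr_right fun hj => h j hj

theorem RowAlg.state_congr (A : RowAlg n Q) {G H : SimpleGraph (Fin n)} {t : ℕ}
    (h : AgreeOn t G H) : ∀ m : ℕ, m ≤ t → A.state G m = A.state H m
  | 0, _ => rfl
  | m + 1, hm => by
    have ih := A.state_congr h m (by omega)
    change (if h : m < n then _ else _) = (if h : m < n then _ else _)
    rw [ih]
    by_cases hmn : m < n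
    · rw [dif_pos hmn, dif_pos hmn]
      congr 1
      refine row_congr fun j hj => h j ⟨m, hmn⟩ ?_ ?_
      · have : (j : ℕ) < m := hj
        omega
      · exact hm
    · rw [dif_neg hmn, dif_neg hmn]

theorem RowAlg.go_congr (A : RowAlg n Q) {G H : SimpleGraph (Fin n)} {t : ℕ}
    (h : AgreeOff t G H) (q : Q) : ∀ m : ℕ, A.go G t q m = A.go H t q m
  | 0 => rfl
  | m + 1 => by
    have ih := A.go_congr h q m
    change (if h : t + m < n then _ else _) = (if h : t + m < n then _ else _)
    rw [ih]
    by_cases hmn : t + m < n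
    · rw [dif_pos hmn, dif_pos hmn]
      congr 1
      refine row_congr fun j hj => h j ⟨t + m, hmn⟩ (Or.inr ?_)
      exact Nat.le_add_right t m
    · rw [dif_neg hmn, dif_neg hmn]

/-- the part of `X` before `t` -/
def bef (t : ℕ) (X : Finset (Fin n)) : Finset (Fin n) := X.filter fun v => (v : ℕ) < t

theorem mem_bef {t : ℕ} {X : Finset (Fin n)} {v : Fin n} : v ∈ bef t X ↔ v ∈ X ∧ (v : ℕ) < t :=
  Finset.mem_filter

/-- the part of the output before `t`, as a function of the state at the time `t` and of the later
rows -/
noncomputable def RowAlg.early (A : RowAlg n Q) (t : ℕ) (q : Q) (G : SimpleGraph (Fin n)) :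
    Finset (Fin n) := bef t (A.out (A.go G t q (n - t)))

theorem RowAlg.early_state (A : RowAlg n Q) {t : ℕ} (ht : t ≤ n) (G : SimpleGraph (Fin n)) :
    A.early t (A.state G t) G = bef t (A.result G) := by
  unfold RowAlg.early RowAlg.result
  rw [A.go_state, Nat.add_sub_cancel' ht]

/-- `X` has `s` vertices before `t`, and the last of them is `t - 1` -/
def Tight (s t : ℕ) (X : Finset (Fin n)) : Prop :=
  (bef t X).card = s ∧ ∃ v ∈ X, (v : ℕ) + 1 = t

theorem Tight.unique {s t t' : ℕ} {X : Finset (Fin n)} (h : Tight s t X) (h' : Tight s t' X) :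
    t = t' := by
  classical
  by_contra hne
  wlog hlt : t < t' generalizing t t'
  · exact this h' h (fun e => hne e.symm) (by omega)
  obtain ⟨v, hv, hvt⟩ := h'.2
  have hsub : insert v (bef t X) ⊆ bef t' X := by
    intro u hu
    rcases Finset.mem_insert.1 hu with rfl | hu
    · exact mem_bef.2 ⟨hv, by omega⟩
    · obtain ⟨h1, h2⟩ := mem_bef.1 hu
      exact mem_bef.2 ⟨h1, by omega⟩
  have hc := Finset.card_le_card hsub
  rw [Finset.card_insert_of_notMem, h.1, h'.1] at hc
  · omega
  · intro hmem
    have := (mem_bef.1 hmem).2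
    omega

theorem exists_tight {s : ℕ} (hs : 0 < s) {X : Finset (Fin n)} (hX : s ≤ X.card) :
    ∃ t ∈ Finset.range (n + 1), Tight s t X := by
  classical
  have hex : ∃ t : ℕ, s ≤ (bef t X).card := by
    refine ⟨n, le_trans hX (Finset.card_le_card ?_)⟩
    intro v hv
    exact mem_bef.2 ⟨hv, v.isLt⟩
  set t : ℕ := Nat.find hex with ht
  have h1 : s ≤ (bef t X).card := Nat.find_spec hex
  have htn : t ≤ n := by
    refine Nat.find_min' hex (le_trans hX (Finset.card_le_card ?_))
    intro v hv
    exact mem_bef.2 ⟨hv, v.isLt⟩
  have ht0 : t ≠ 0 := by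
    intro h0
    rw [h0] at h1
    have : bef 0 X = ∅ := by
      ext v
      simp [bef]
    rw [this, Finset.card_empty] at h1
    omega
  obtain ⟨m, hm⟩ := Nat.exists_eq_succ_of_ne_zero ht0
  have h2 : ¬ s ≤ (bef m X).card := Nat.find_min hex (by omega)
  push Not at h2
  have hmn : m < n := by omega
  have hsub : bef t X ⊆ insert ⟨m, hmn⟩ (bef m X) := by
    intro u hu
    obtain ⟨h3, h4⟩ := mem_bef.1 hu
    rw [Finset.mem_insert]
    by_cases hum : (u : ℕ) = m
    · left
      exact Fin.ext hum
    · right
      exact mem_bef.2 ⟨h3, by omega⟩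
  have hc := (Finset.card_le_card hsub).trans (Finset.card_insert_le _ _)
  refine ⟨t, Finset.mem_range.2 (by omega), by omega, ?_⟩
  by_contra hcon
  push Not at hcon
  have hsub2 : bef t X ⊆ bef m X := by
    intro u hu
    obtain ⟨h3, h4⟩ := mem_bef.1 hu
    have := hcon u h3
    exact mem_bef.2 ⟨h3, by omega⟩
  have := Finset.card_le_card hsub2
  omega

end Pool.Agent.H61S
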