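import Pool.Agent.H61S.Cover
import Pool.Agent.H61S.Model
import Pool.Agent.H72.KarpS.GoodS

/-!
The algorithm which keeps few vertices and all edges between them. In the first half of the
vertices it keeps the greedy independent set, cut at `g` vertices, and in the second half the first
`N` vertices which are not adjacent to this set. It returns a largest independent set of the kept
graph.
-/

set_option autoImplicit false
set_option linter.unusedSectionVars false

namespace Pool.Agent.H61S

open Finset Pool.Agent.H85.Online Pool.Agent.H72.Karp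

variable {n : ℕ} {p : ℝ}

/-- the states: a set of at most `m` vertices and a set of pairs of these vertices -/
abbrev KState (n m : ℕ) : Type :=
  {x : Finset (Fin n) × Finset (Sym2 (Fin n)) // x.1.card ≤ m ∧ x.2 ⊆ x.1.sym2}

theorem card_KState (n m : ℕ) :
    Fintype.card (KState n m) ≤ (n + 1) ^ m * 2 ^ ((m + 1) ^ 2) := by
  classical
  rw [Fintype.card_subtype]
  have hsub : (Finset.univ.filter fun x : Finset (Fin n) × Finset (Sym2 (Fin n)) =>
      x.1.card ≤ m ∧ x.2 ⊆ x.1.sym2)
      ⊆ (Finset.univ.filter fun S : Finset (Fin n) => S.card ≤ m).biUnion fun S =>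
        S.sym2.powerset.image fun E => (S, E) := by
    intro x hx
    obtain ⟨h1, h2⟩ := (Finset.mem_filter.1 hx).2
    exact Finset.mem_biUnion.2 ⟨x.1, Finset.mem_filter.2 ⟨Finset.mem_univ _, h1⟩,
      Finset.mem_image.2 ⟨x.2, Finset.mem_powerset.2 h2, rfl⟩⟩
  refine (Finset.card_le_card hsub).trans (Finset.card_biUnion_le.trans ?_)
  calc ∑ S ∈ Finset.univ.filter (fun S : Finset (Fin n) => S.card ≤ m),
        (S.sym2.powerset.image fun E => (S, E)).card
      ≤ ∑ _S ∈ Finset.univ.filter (fun S : Finset (Fin n) => S.card ≤ m), 2 ^ ((m + 1) ^ 2) := by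
        refine Finset.sum_le_sum fun S hS => ?_
        have hS' := (Finset.mem_filter.1 hS).2
        refine Finset.card_image_le.trans ?_
        rw [Finset.card_powerset, Finset.card_sym2]
        refine Nat.pow_le_pow_right (by norm_num) ?_
        calc (S.card + 1).choose 2 ≤ (S.card + 1) ^ 2 := Nat.choose_le_pow _ _
          _ ≤ (m + 1) ^ 2 := Nat.pow_le_pow_left (by omega) 2
    _ ≤ (n + 1) ^ m * 2 ^ ((m + 1) ^ 2) := by
        rw [Finset.sum_const, smul_eq_mul]
        refine Nat.mul_le_mul_right _ ?_
        have h2 := Pool.Agent.H72.KarpS.card_small (Fin n) m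
        rw [Fintype.card_fin] at h2
        exact h2

/-- the rule which decides whether the vertex `i` is kept -/
def Keep (h g N : ℕ) (S : Finset (Fin n)) (i : Fin n) (R : Finset (Fin n)) : Prop :=
  ((i : ℕ) < h ∧ S.card < g ∧ Disjoint S R) ∨
    (h ≤ (i : ℕ) ∧ S.card < g + N ∧ Disjoint (bef h S) R)

theorem Keep.lt {h g N : ℕ} {S : Finset (Fin n)} {i : Fin n} {R : Finset (Fin n)}
    (hk : Keep h g N S i R) : S.card < g + N := by
  rcases hk with ⟨_, h2, _⟩ | ⟨_, h2, _⟩ <;> omega

/-- a largest set of vertices of the state without a pair of the state -/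
theorem exists_best {m : ℕ} (x : KState n m) : ∃ Y : Finset (Fin n), (Y ⊆ x.1.1 ∧
    ∀ u ∈ Y, ∀ v ∈ Y, s(u, v) ∉ x.1.2) ∧ ∀ Z : Finset (Fin n), Z ⊆ x.1.1 →
    (∀ u ∈ Z, ∀ v ∈ Z, s(u, v) ∉ x.1.2) → Z.card ≤ Y.card := by
  classical
  obtain ⟨Y, hY, hmax⟩ := Finset.exists_max_image
    (x.1.1.powerset.filter fun Y => ∀ u ∈ Y, ∀ v ∈ Y, s(u, v) ∉ x.1.2) Finset.card
    ⟨∅, Finset.mem_filter.2 ⟨Finset.empty_mem_powerset _, by simp⟩⟩
  obtain ⟨h1, h2⟩ := Finset.mem_filter.1 hY
  refine ⟨Y, ⟨Finset.mem_powerset.1 h1, h2⟩, fun Z hZ hZ' => hmax Z ?_⟩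
  exact Finset.mem_filter.2 ⟨Finset.mem_powerset.2 hZ, hZ'⟩

open Classical in
/-- the algorithm -/
noncomputable def keepAlg (n h g N : ℕ) : RowAlg n (KState n (g + N)) where
  start := ⟨(∅, ∅), by simp, by simp⟩
  step := fun x i R => if hk : Keep h g N x.1.1 i R then
      ⟨(insert i x.1.1, x.1.2 ∪ (x.1.1 ∩ R).image fun j => s(j, i)), by
        refine ⟨(Finset.card_insert_le _ _).trans hk.lt, ?_⟩
        intro e he
        rcases Finset.mem_union.1 he with he | he
        · exact Finset.sym2_mono (Finset.subset_insert _ _) (x.2.2 he)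
        · obtain ⟨j, hj, rfl⟩ := Finset.mem_image.1 he
          exact Finset.mk_mem_sym2_iff.2 ⟨Finset.mem_insert_of_mem (Finset.mem_inter.1 hj).1,
            Finset.mem_insert_self _ _⟩⟩
    else x
  out := fun x => (exists_best x).choose

/-- the kept vertices -/
noncomputable def kept (h g N : ℕ) (G : SimpleGraph (Fin n)) (t : ℕ) : Finset (Fin n) :=
  ((keepAlg n h g N).state G t).1.1

variable {h g N : ℕ}

open Classical in
theorem kept_succ (G : SimpleGraph (Fin n)) {t : ℕ} (ht : t < n) :
    kept h g N G (t + 1) = if Keep h g N (kept h g N G t) ⟨t, ht⟩ (row G ⟨t, ht⟩)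
      then insert ⟨t, ht⟩ (kept h g N G t) else kept h g N G t := by
  unfold kept
  change (if h' : t < n then _ else _ : KState n (g + N)).1.1 = _
  rw [dif_pos ht]
  by_cases hk : Keep h g N ((keepAlg n h g N).state G t).1.1 ⟨t, ht⟩ (row G ⟨t, ht⟩)
  · rw [if_pos hk]
    change (if hk : Keep h g N ((keepAlg n h g N).state G t).1.1 ⟨t, ht⟩ (row G ⟨t, ht⟩)
      then _ else _ : KState n (g + N)).1.1 = _
    rw [dif_pos hk]
  · rw [if_neg hk]
    change (if hk : Keep h g N ((keepAlg n h g N).state G t).1.1 ⟨t, ht⟩ (row G ⟨t, ht⟩)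
      then _ else _ : KState n (g + N)).1.1 = _
    rw [dif_neg hk]

theorem kept_zero (G : SimpleGraph (Fin n)) : kept h g N G 0 = ∅ := rfl

theorem kept_lt (G : SimpleGraph (Fin n)) : ∀ t : ℕ, t ≤ n → ∀ v ∈ kept h g N G t, (v : ℕ) < t
  | 0, _ => by
    intro v hv
    rw [kept_zero] at hv
    simp at hv
  | t + 1, ht => by
    classical
    intro v hv
    rw [kept_succ G (by omega)] at hv
    split_ifs at hv with hk
    · rcases Finset.mem_insert.1 hv with rfl | hv
      · exact Nat.lt_succ_self _
      · exact (kept_lt G t (by omega) v hv).trans (Nat.lt_succ_self _)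
    · exact (kept_lt G t (by omega) v hv).trans (Nat.lt_succ_self _)

/-- the pairs in the state are the edges between the kept vertices -/
theorem mem_pairs_state (G : SimpleGraph (Fin n)) : ∀ t : ℕ, t ≤ n → ∀ u v : Fin n,
    s(u, v) ∈ ((keepAlg n h g N).state G t).1.2 ↔
      u ∈ kept h g N G t ∧ v ∈ kept h g N G t ∧ G.Adj u v
  | 0, _ => by
    intro u v
    rw [kept_zero]
    change s(u, v) ∈ (∅ : Finset (Sym2 (Fin n))) ↔ _
    simp
  | t + 1, ht => by
    classical
    intro u v
    have ih := mem_pairs_state G t (by omega)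
    have hlt := kept_lt (h := h) (g := g) (N := N) G t (by omega)
    have htn : t < n := by omega
    rw [kept_succ G htn]
    have hst : (keepAlg n h g N).state G (t + 1)
        = (keepAlg n h g N).step ((keepAlg n h g N).state G t) ⟨t, htn⟩ (row G ⟨t, htn⟩) := by
      change (if h' : t < n then _ else _ : KState n (g + N)) = _
      rw [dif_pos htn]
    rw [hst]
    by_cases hk : Keep h g N (kept h g N G t) ⟨t, htn⟩ (row G ⟨t, htn⟩)
    · rw [if_pos hk]
      have hstep : ((keepAlg n h g N).step ((keepAlg n h g N).state G t) ⟨t, htn⟩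
          (row G ⟨t, htn⟩)).1.2 = ((keepAlg n h g N).state G t).1.2 ∪
          (kept h g N G t ∩ row G ⟨t, htn⟩).image fun j => s(j, ⟨t, htn⟩) := by
        change (if hk : Keep h g N ((keepAlg n h g N).state G t).1.1 ⟨t, htn⟩
          (row G ⟨t, htn⟩) then _ else _ : KState n (g + N)).1.2 = _
        have hk' : Keep h g N ((keepAlg n h g N).state G t).1.1 ⟨t, htn⟩ (row G ⟨t, htn⟩) := hk
        rw [dif_pos hk']
        rfl
      rw [hstep, Finset.mem_union, ih, Finset.mem_image]
      have hrow : ∀ j : Fin n, j ∈ kept h g N G t ∩ row G ⟨t, htn⟩ ↔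
          j ∈ kept h g N G t ∧ G.Adj j ⟨t, htn⟩ := by
        intro j
        rw [Finset.mem_inter, mem_row]
        constructor
        · rintro ⟨h1, _, h3⟩
          exact ⟨h1, h3⟩
        · rintro ⟨h1, h3⟩
          exact ⟨h1, hlt j h1, h3⟩
      constructor
      · rintro (⟨h1, h2, h3⟩ | ⟨j, hj, he⟩)
        · exact ⟨Finset.mem_insert_of_mem h1, Finset.mem_insert_of_mem h2, h3⟩
        · obtain ⟨h1, h2⟩ := (hrow j).1 hj
          rcases Sym2.eq_iff.1 he with ⟨rfl, rfl⟩ | ⟨rfl, rfl⟩
          · exact ⟨Finset.mem_insert_of_mem h1, Finset.mem_insert_self _ _, h2⟩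
          · exact ⟨Finset.mem_insert_self _ _, Finset.mem_insert_of_mem h1, h2.symm⟩
      · rintro ⟨h1, h2, h3⟩
        rcases Finset.mem_insert.1 h1 with h1 | h1
        · rcases Finset.mem_insert.1 h2 with h2 | h2
          · exact absurd h3 (by rw [h1, h2]; exact G.loopless.irrefl _)
          · right
            refine ⟨v, (hrow v).2 ⟨h2, ?_⟩, ?_⟩
            · rw [← h1]
              exact h3.symm
            · rw [← h1, Sym2.eq_swap]
        · rcases Finset.mem_insert.1 h2 with h2 | h2
          · right
            refine ⟨u, (hrow u).2 ⟨h1, ?_⟩, ?_⟩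
            · rw [← h2]
              exact h3
            · rw [← h2]
          · exact Or.inl ⟨h1, h2, h3⟩
    · rw [if_neg hk]
      have hstep : ((keepAlg n h g N).step ((keepAlg n h g N).state G t) ⟨t, htn⟩
          (row G ⟨t, htn⟩)) = ((keepAlg n h g N).state G t) := by
        change (if hk : Keep h g N ((keepAlg n h g N).state G t).1.1 ⟨t, htn⟩
          (row G ⟨t, htn⟩) then _ else _ : KState n (g + N)) = _
        have hk' : ¬ Keep h g N ((keepAlg n h g N).state G t).1.1 ⟨t, htn⟩ (row G ⟨t, htn⟩) :=
          hk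
        rw [dif_neg hk']
      rw [hstep]
      exact ih u v

/-- the output is independent and at least as large as every independent set of kept vertices -/
theorem keep_result (G : SimpleGraph (Fin n)) :
    Indep G ((keepAlg n h g N).result G) ∧ ∀ Z : Finset (Fin n), Z ⊆ kept h g N G n →
      Indep G Z → Z.card ≤ ((keepAlg n h g N).result G).card := by
  have hpair := mem_pairs_state (h := h) (g := g) (N := N) G n le_rfl
  have hspec := (exists_best ((keepAlg n h g N).state G n)).choose_spec
  constructor
  · intro u hu v hv huv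
    exact hspec.1.2 u hu v hv ((hpair u v).2 ⟨hspec.1.1 hu, hspec.1.1 hv, huv⟩)
  · intro Z hZ hI
    refine hspec.2 Z hZ fun u hu v hv he => ?_
    exact hI u hu v hv ((hpair u v).1 he).2.2

/-- the structure of the kept set -/
structure Inv (h g N : ℕ) (G : SimpleGraph (Fin n)) (t : ℕ) (S : Finset (Fin n)) : Prop where
  sep : ∀ u ∈ S, (u : ℕ) < h → ∀ v ∈ S, u < v → ¬ G.Adj u v
  le : (bef h S).card ≤ g
  max1 : (bef h S).card < g → ∀ v : Fin n, (v : ℕ) < h → (v : ℕ) < t → v ∉ S →
    ∃ u ∈ bef h S, G.Adj u v
  max2 : S.card < g + N → ∀ v : Fin n, h ≤ (v : ℕ) → (v : ℕ) < t → v ∉ S →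
    ∃ u ∈ bef h S, G.Adj u v

theorem bef_mono {h : ℕ} {S T : Finset (Fin n)} (hST : S ⊆ T) : bef h S ⊆ bef h T :=
  fun _ hv => mem_bef.2 ⟨hST (mem_bef.1 hv).1, (mem_bef.1 hv).2⟩

theorem not_disjoint_row {G : SimpleGraph (Fin n)} {i : Fin n} {S : Finset (Fin n)}
    (hd : ¬ Disjoint S (row G i)) : ∃ u ∈ S, G.Adj u i := by
  rw [Finset.not_disjoint_iff] at hd
  obtain ⟨u, hu, hu'⟩ := hd
  exact ⟨u, hu, (mem_row.1 hu').2⟩

theorem disjoint_row {G : SimpleGraph (Fin n)} {i : Fin n} {S : Finset (Fin n)}
    (hd : Disjoint S (row G i)) {u : Fin n} (hu : u ∈ S) (hlt : u < i) : ¬ G.Adj u i := by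
  intro hadj
  exact (Finset.disjoint_left.1 hd hu) (mem_row.2 ⟨hlt, hadj⟩)

theorem kept_inv (G : SimpleGraph (Fin n)) : ∀ t : ℕ, t ≤ n → Inv h g N G t (kept h g N G t)
  | 0, _ => by
    rw [kept_zero]
    refine ⟨by simp, by simp [bef], fun _ v _ hv => by omega, fun _ v _ hv => by omega⟩
  | t + 1, ht => by
    classical
    have ih := kept_inv G t (by omega)
    have htn : t < n := by omega
    have hlt := kept_lt (h := h) (g := g) (N := N) G t (by omega)
    rw [kept_succ G htn]
    set S := kept h g N G t with hS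
    by_cases hk : Keep h g N S ⟨t, htn⟩ (row G ⟨t, htn⟩)
    · rw [if_pos hk]
      have hsub : S ⊆ insert ⟨t, htn⟩ S := Finset.subset_insert _ _
      refine ⟨?_, ?_, ?_, ?_⟩
      · intro u hu huh v hv huv
        rcases Finset.mem_insert.1 hv with rfl | hv
        · have huS : u ∈ S := by
            rcases Finset.mem_insert.1 hu with rfl | hu
            · exact absurd huv (lt_irrefl _)
            · exact hu
          rcases hk with ⟨_, _, h3⟩ | ⟨_, _, h3⟩
          · exact disjoint_row h3 huS (hlt u huS)
          · exact disjoint_row h3 (mem_bef.2 ⟨huS, huh⟩) (hlt u huS)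
        · rcases Finset.mem_insert.1 hu with rfl | hu
          · have h4 := hlt v hv
            have h5 : t < (v : ℕ) := huv
            omega
          · exact ih.sep u hu huh v hv huv
      · rcases hk with ⟨h2, h3, _⟩ | ⟨h2, _, _⟩
        · refine (Finset.card_le_card (Finset.filter_subset _ _)).trans
            ((Finset.card_insert_le _ _).trans h3)
        · have h2' : h ≤ t := h2
          have : bef h (insert ⟨t, htn⟩ S) = bef h S := by
            ext v
            rw [mem_bef, mem_bef, Finset.mem_insert]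
            constructor
            · rintro ⟨rfl | h4, h5⟩
              · have h5' : t < h := h5
                omega
              · exact ⟨h4, h5⟩
            · rintro ⟨h4, h5⟩
              exact ⟨Or.inr h4, h5⟩
          rw [this]
          exact ih.le
      · intro hc v hvh hvt hvS
        rw [Finset.mem_insert, not_or] at hvS
        have hvt' : (v : ℕ) < t := by
          have : (v : ℕ) ≠ t := fun e => hvS.1 (Fin.ext e)
          omega
        have hc' : (bef h S).card < g := lt_of_le_of_lt (Finset.card_le_card (bef_mono hsub)) hc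
        obtain ⟨u, hu, hadj⟩ := ih.max1 hc' v hvh hvt' hvS.2
        exact ⟨u, bef_mono hsub hu, hadj⟩
      · intro hc v hvh hvt hvS
        rw [Finset.mem_insert, not_or] at hvS
        have hvt' : (v : ℕ) < t := by
          have : (v : ℕ) ≠ t := fun e => hvS.1 (Fin.ext e)
          omega
        have hc' : S.card < g + N := lt_of_le_of_lt (Finset.card_le_card hsub) hc
        obtain ⟨u, hu, hadj⟩ := ih.max2 hc' v hvh hvt' hvS.2
        exact ⟨u, bef_mono hsub hu, hadj⟩
    · rw [if_neg hk]
      refine ⟨ih.sep, ih.le, ?_, ?_⟩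
      · intro hc v hvh hvt hvS
        by_cases hvt' : (v : ℕ) < t
        · exact ih.max1 hc v hvh hvt' hvS
        · have hv : v = ⟨t, htn⟩ := Fin.ext (by simp only; omega)
          have hbef : bef h S = S := by
            ext w
            rw [mem_bef]
            refine ⟨fun h4 => h4.1, fun h4 => ⟨h4, ?_⟩⟩
            have := hlt w h4
            omega
          rw [hbef] at hc ⊢
          have hnd : ¬ Disjoint S (row G ⟨t, htn⟩) := by
            intro hd
            refine hk (Or.inl ⟨?_, hc, hd⟩)
            simp only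
            rw [hv] at hvh
            exact hvh
          rw [hv]
          exact not_disjoint_row hnd
      · intro hc v hvh hvt hvS
        by_cases hvt' : (v : ℕ) < t
        · exact ih.max2 hc v hvh hvt' hvS
        · have hv : v = ⟨t, htn⟩ := Fin.ext (by simp only; omega)
          have hnd : ¬ Disjoint (bef h S) (row G ⟨t, htn⟩) := by
            intro hd
            refine hk (Or.inr ⟨?_, hc, hd⟩)
            simp only
            rw [hv] at hvh
            exact hvh
          rw [hv]
          exact not_disjoint_row hnd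

/-- the kept vertices do not depend on the pairs in the second part -/
theorem kept_congr {G H : SimpleGraph (Fin n)}
    (hGH : ∀ u v : Fin n, (u : ℕ) < h → (G.Adj u v ↔ H.Adj u v)) :
    ∀ t : ℕ, t ≤ n → kept h g N G t = kept h g N H t
  | 0, _ => rfl
  | t + 1, ht => by
    classical
    have ih := kept_congr hGH t (by omega)
    have htn : t < n := by omega
    rw [kept_succ G htn, kept_succ H htn, ih]
    have hlt := kept_lt (h := h) (g := g) (N := N) H t (by omega)
    set S := kept h g N H t with hS
    have hrow : ∀ u : Fin n, (u : ℕ) < h → (u ∈ row G ⟨t, htn⟩ ↔ u ∈ row H ⟨t, htn⟩) := by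
      intro u hu
      rw [mem_row, mem_row, hGH u _ hu]
    have hiff : Keep h g N S ⟨t, htn⟩ (row G ⟨t, htn⟩)
        ↔ Keep h g N S ⟨t, htn⟩ (row H ⟨t, htn⟩) := by
      unfold Keep
      refine or_congr ?_ ?_
      · refine and_congr_right fun h2 => and_congr_right fun _ => ?_
        rw [Finset.disjoint_left, Finset.disjoint_left]
        refine forall_congr' fun u => forall_congr' fun hu => ?_
        have := hlt u hu
        simp only at h2
        rw [hrow u (by omega)]
      · refine and_congr_right fun _ => and_congr_right fun _ => ?_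
        rw [Finset.disjoint_left, Finset.disjoint_left]
        refine forall_congr' fun u => forall_congr' fun hu => ?_
        rw [hrow u (mem_bef.1 hu).2]
    simp only [hiff]

end Pool.Agent.H61S
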