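import Pool.Agent.H61S.Keep
import Pool.Agent.H51Q.Block
import Pool.Agent.H72.Karp.Accept

/-!
The probability that the set returned by the algorithm `keepAlg` is small.
-/

set_option autoImplicit false
set_option linter.unusedSectionVars false

namespace Pool.Agent.H61S

open Finset Pool.Agent.H85.Online Pool.Agent.H72.Karp

variable {n : ℕ} {p : ℝ}

theorem Prob_and_not (A B : SimpleGraph (Fin n) → Prop) :
    Prob p (fun G => A G ∧ B G) = Prob p A - Prob p (fun G => A G ∧ ¬ B G) := by
  classical
  rw [eq_sub_iff_add_eq]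
  unfold Prob
  rw [← Finset.sum_add_distrib]
  refine Finset.sum_congr rfl fun G _ => ?_
  by_cases hA : A G <;> by_cases hB : B G <;> simp [hA, hB]

/-- every vertex of `V` has a neighbour in `A` -/
theorem prob_hit {A : Finset (Fin n)} :
    ∀ V : Finset (Fin n), Disjoint A V →
      Prob p (fun G : SimpleGraph (Fin n) => ∀ v ∈ V, ∃ u ∈ A, G.Adj u v)
        = (1 - (1 - p) ^ A.card) ^ V.card * Prob p (fun _ : SimpleGraph (Fin n) => True) := by
  classical
  intro V
  induction V using Finset.induction_on with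
  | empty =>
    intro _
    simp only [Finset.notMem_empty, false_imp_iff, implies_true, Finset.card_empty, pow_zero,
      one_mul]
  | insert v V hv ih =>
    intro hd
    have hdV : Disjoint A V := hd.mono_right (Finset.subset_insert _ _)
    have hvA : v ∉ A := fun h => Finset.disjoint_left.1 hd h (Finset.mem_insert_self _ _)
    set B : SimpleGraph (Fin n) → Prop := fun G => ∀ w ∈ V, ∃ u ∈ A, G.Adj u w with hB
    set F : Finset (Sym2 (Fin n)) := A.image fun u => s(u, v) with hF
    have hFc : F.card = A.card := by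
      rw [hF]
      refine Finset.card_image_of_injOn ?_
      intro x _ y _ hxy
      rcases Sym2.eq_iff.1 hxy with ⟨h1, _⟩ | ⟨h1, h2⟩
      · exact h1
      · rw [h1, h2]
    have hfree := Prob_and_no_edges (p := p) B F (by
      intro x y hxy
      rw [hF, Finset.mem_image] at hxy
      obtain ⟨u, hu, he⟩ := hxy
      have huv : u ≠ v := fun e => hvA (e ▸ hu)
      have hedge : SimpleGraph.edge x y = SimpleGraph.edge u v := by
        rcases Sym2.eq_iff.1 he with ⟨h1, h2⟩ | ⟨h1, h2⟩
        · rw [h1, h2]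
        · rw [h1, h2, SimpleGraph.edge_comm]
      refine ⟨?_, ?_⟩
      · rcases Sym2.eq_iff.1 he with ⟨h1, h2⟩ | ⟨h1, h2⟩
        · rw [← h1, ← h2]
          exact huv
        · rw [← h1, ← h2]
          exact huv.symm
      · intro G
        rw [hedge]
        refine forall_congr' fun w => forall_congr' fun hw => exists_congr fun u' =>
          and_congr_right fun hu' => ?_
        rw [SimpleGraph.sup_adj, SimpleGraph.edge_adj]
        constructor
        · rintro (h | ⟨⟨h1, h2⟩ | ⟨h1, h2⟩, _⟩)
          · exact h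
          · exact absurd (h2 ▸ hw) hv
          · exact absurd (h1 ▸ hu') hvA
        · exact Or.inl)
    have hcalc : Prob p (fun G : SimpleGraph (Fin n) => ∀ w ∈ insert v V, ∃ u ∈ A, G.Adj u w)
        = Prob p (fun G : SimpleGraph (Fin n) => B G ∧ ∃ u ∈ A, G.Adj u v) := by
      refine Prob_congr fun G => ?_
      rw [Finset.forall_mem_insert]
      exact and_comm
    rw [hcalc, Prob_and_not]
    have hno : Prob p (fun G : SimpleGraph (Fin n) => B G ∧ ¬ ∃ u ∈ A, G.Adj u v)
        = Prob p (fun G : SimpleGraph (Fin n) => B G ∧ ∀ e ∈ F, e ∉ G.edgeSet) := by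
      refine Prob_congr fun G => and_congr_right fun _ => ?_
      rw [hF]
      simp only [Finset.forall_mem_image, SimpleGraph.mem_edgeSet, not_exists, not_and]
    rw [hno, hfree, hFc, ih hdV, Finset.card_insert_of_notMem hv]
    ring

/-- independence of events about the pairs with an endpoint before `h` and events about the other
pairs -/
theorem Prob_late (h : ℕ) (A B : SimpleGraph (Fin n) → Prop)
    (hA : ∀ G H : SimpleGraph (Fin n),
      (∀ u v : Fin n, (u : ℕ) < h → (G.Adj u v ↔ H.Adj u v)) → A G → A H)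
    (hB : ∀ G H : SimpleGraph (Fin n),
      (∀ u v : Fin n, h ≤ (u : ℕ) → h ≤ (v : ℕ) → (G.Adj u v ↔ H.Adj u v)) → B G → B H) :
    Prob p (fun G => A G ∧ B G) = Prob p A * Prob p B := by
  classical
  have hgen : EE p (fun ω : Prs (Fin n) → Bool => (if B (gr ω) then (1 : ℝ) else 0)
      * (if A (gr ω) then (1 : ℝ) else 0))
      = EE p (fun ω : Prs (Fin n) → Bool => (if B (gr ω) then (1 : ℝ) else 0))
        * EE p (fun ω : Prs (Fin n) → Bool => (if A (gr ω) then (1 : ℝ) else 0)) := by
    refine EE_indep_set {e : Prs (Fin n) | ∀ v ∈ e.1, h ≤ (v : ℕ)} _ _ ?_ ?_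
    · intro ω ω' hω
      have hag : ∀ u v : Fin n, h ≤ (u : ℕ) → h ≤ (v : ℕ) →
          ((gr ω).Adj u v ↔ (gr ω').Adj u v) := by
        intro u v hu hv
        rw [gr_adj, gr_adj]
        refine exists_congr fun hd => ?_
        rw [hω ⟨s(u, v), hd⟩]
        intro w hw
        rcases Sym2.mem_iff.1 hw with rfl | rfl <;> assumption
      have : B (gr ω) ↔ B (gr ω') := ⟨hB _ _ hag, hB _ _ fun u v hu hv => (hag u v hu hv).symm⟩
      simp only [this]
    · intro ω ω' hω
      have hag : ∀ u v : Fin n, (u : ℕ) < h → ((gr ω).Adj u v ↔ (gr ω').Adj u v) := by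
        intro u v hu
        rw [gr_adj, gr_adj]
        refine exists_congr fun hd => ?_
        rw [hω ⟨s(u, v), hd⟩]
        intro hw
        have h1 := hw u (Sym2.mem_mk_left u v)
        omega
      have : A (gr ω) ↔ A (gr ω') := ⟨hA _ _ hag, hA _ _ fun u v hu => (hag u v hu).symm⟩
      simp only [this]
  rw [Prob_eq, Prob_eq, Prob_eq, EG_eq, EG_eq, EG_eq, mul_comm, ← hgen]
  refine EE_congr fun ω => ?_
  by_cases h' : A (gr ω) <;> by_cases h'' : B (gr ω) <;> simp [h', h'']

/-- the independent sets inside a set with `N` vertices -/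
theorem prob_inside (h0 : 0 < p) (h1 : p < 1) {N : ℕ} {π : Finset (Fin n)} (hπ : π.card = N)
    (x : ℝ) : Prob p (fun G : SimpleGraph (Fin n) =>
      ¬ ∃ I : Finset (Fin n), I ⊆ π ∧ Indep G I ∧ x ≤ I.card)
      = Prob p (fun G : SimpleGraph (Fin N) => ¬ ∃ I : Finset (Fin N), Indep G I ∧ x ≤ I.card) := by
  classical
  set e : Fin N ↪ Fin n := (π.orderEmbOfFin hπ).toEmbedding with he
  have hrange : ∀ i : Fin N, e i ∈ π := fun i => π.orderEmbOfFin_mem hπ i
  have hsurj : ∀ v ∈ π, ∃ i : Fin N, e i = v := by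
    intro v hv
    have h2 := Finset.range_orderEmbOfFin π hπ
    have h3 : v ∈ Set.range (π.orderEmbOfFin hπ) := by
      rw [h2]
      exact hv
    exact h3
  rw [← Pool.Agent.H51Q.Prob_comap h0 h1 e]
  refine Prob_congr fun G => not_congr ?_
  constructor
  · rintro ⟨I, hI1, hI2, hI3⟩
    refine ⟨Finset.univ.filter fun i => e i ∈ I, ?_, ?_⟩
    · intro u hu v hv hadj
      exact hI2 _ (Finset.mem_filter.1 hu).2 _ (Finset.mem_filter.1 hv).2 hadj
    · refine hI3.trans ?_
      have : I.card ≤ (Finset.univ.filter fun i => e i ∈ I).card := by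
        rw [← Finset.card_map e]
        refine Finset.card_le_card fun v hv => ?_
        obtain ⟨i, rfl⟩ := hsurj v (hI1 hv)
        exact Finset.mem_map.2 ⟨i, Finset.mem_filter.2 ⟨Finset.mem_univ _, hv⟩, rfl⟩
      exact_mod_cast this
  · rintro ⟨J, hJ1, hJ2⟩
    refine ⟨J.map e, ?_, ?_, ?_⟩
    · intro v hv
      obtain ⟨i, _, rfl⟩ := Finset.mem_map.1 hv
      exact hrange i
    · intro u hu v hv hadj
      obtain ⟨i, hi, rfl⟩ := Finset.mem_map.1 hu
      obtain ⟨j, hj, rfl⟩ := Finset.mem_map.1 hv
      exact hJ1 i hi j hj hadj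
    · rw [Finset.card_map]
      exact hJ2

variable {h g N : ℕ}

/-- the three ways in which the algorithm can fail -/
theorem keep_cases (G : SimpleGraph (Fin n)) (x : ℝ)
    (hG : ¬ (g : ℝ) + x ≤ ((keepAlg n h g N).result G).card) :
    (∃ A ∈ (Finset.univ.filter fun J : Finset (Fin n) => J.card ≤ g),
      ∀ v ∈ bef h Finset.univ \ A, ∃ u ∈ A, G.Adj u v) ∨
    (∃ y ∈ (Finset.univ.filter fun J : Finset (Fin n) => J.card ≤ g) ×ˢ
        (Finset.univ.filter fun J : Finset (Fin n) => J.card ≤ N),
      y.1 ⊆ bef h Finset.univ ∧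
      ∀ v ∈ (Finset.univ \ bef h Finset.univ) \ y.2, ∃ u ∈ y.1, G.Adj u v) ∨
    (∃ π ∈ Finset.powersetCard N (Finset.univ : Finset (Fin n)),
      (π = kept h g N G n \ bef h (kept h g N G n) ∧ (∀ v ∈ π, h ≤ (v : ℕ))) ∧
      ¬ ∃ I : Finset (Fin n), I ⊆ π ∧ Indep G I ∧ x ≤ I.card) := by
  classical
  have hinv := kept_inv (h := h) (g := g) (N := N) G n le_rfl
  have hle : (kept h g N G n).card ≤ g + N := ((keepAlg n h g N).state G n).2.1
  have hres := (keep_result (h := h) (g := g) (N := N) G).2
  set S := kept h g N G n with hS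
  have hsubS : bef h S ⊆ S := Finset.filter_subset _ _
  by_cases hA : (bef h S).card < g
  · left
    refine ⟨bef h S, Finset.mem_filter.2 ⟨Finset.mem_univ _, hinv.le⟩, ?_⟩
    intro v hv
    obtain ⟨h2, h3⟩ := Finset.mem_sdiff.1 hv
    have h4 := (mem_bef.1 h2).2
    exact hinv.max1 hA v h4 v.isLt fun h5 => h3 (mem_bef.2 ⟨h5, h4⟩)
  · right
    have hAg : (bef h S).card = g := le_antisymm hinv.le (not_lt.1 hA)
    by_cases hP : S.card < g + N
    · left
      refine ⟨(bef h S, S \ bef h S), Finset.mem_product.2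
        ⟨Finset.mem_filter.2 ⟨Finset.mem_univ _, hinv.le⟩,
          Finset.mem_filter.2 ⟨Finset.mem_univ _, ?_⟩⟩, ?_, ?_⟩
      · simp only
        rw [Finset.card_sdiff_of_subset hsubS]
        omega
      · intro v hv
        exact mem_bef.2 ⟨Finset.mem_univ _, (mem_bef.1 hv).2⟩
      · intro v hv
        obtain ⟨h2, h3⟩ := Finset.mem_sdiff.1 hv
        have h4 : h ≤ (v : ℕ) := by
          by_contra hcon
          exact (Finset.mem_sdiff.1 h2).2 (mem_bef.2 ⟨Finset.mem_univ _, by omega⟩)
        refine hinv.max2 hP v h4 v.isLt fun h5 => h3 (Finset.mem_sdiff.2 ⟨h5, fun h6 => ?_⟩)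
        have := (mem_bef.1 h6).2
        omega
    · right
      have hSc : S.card = g + N := le_antisymm hle (not_lt.1 hP)
      refine ⟨S \ bef h S, Finset.mem_powersetCard.2 ⟨Finset.subset_univ _, ?_⟩, ⟨rfl, ?_⟩, ?_⟩
      · rw [Finset.card_sdiff_of_subset hsubS]
        omega
      · intro v hv
        obtain ⟨h2, h3⟩ := Finset.mem_sdiff.1 hv
        by_contra hcon
        exact h3 (mem_bef.2 ⟨h2, by omega⟩)
      · rintro ⟨I, hI1, hI2, hI3⟩
        apply hG
        have hIS : I ⊆ S := hI1.trans Finset.sdiff_subset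
        have hIh : ∀ v ∈ I, h ≤ (v : ℕ) := by
          intro v hv
          obtain ⟨h2, h3⟩ := Finset.mem_sdiff.1 (hI1 hv)
          by_contra hcon
          exact h3 (mem_bef.2 ⟨h2, by omega⟩)
        have hdisj : Disjoint (bef h S) I := by
          rw [Finset.disjoint_left]
          intro v hv hv'
          have h2 := (mem_bef.1 hv).2
          have h3 := hIh v hv'
          omega
        have hind : Indep G (bef h S ∪ I) := by
          intro u hu v hv hadj
          rcases Finset.mem_union.1 hu with hu | hu <;> rcases Finset.mem_union.1 hv with hv | hv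
          · obtain ⟨hu1, hu2⟩ := mem_bef.1 hu
            obtain ⟨hv1, hv2⟩ := mem_bef.1 hv
            rcases lt_trichotomy u v with hlt | heq | hlt
            · exact hinv.sep u hu1 hu2 v hv1 hlt hadj
            · exact hadj.ne heq
            · exact hinv.sep v hv1 hv2 u hu1 hlt hadj.symm
          · obtain ⟨hu1, hu2⟩ := mem_bef.1 hu
            have h3 := hIh v hv
            refine hinv.sep u hu1 hu2 v (hIS hv) ?_ hadj
            rw [Fin.lt_def]
            omega
          · obtain ⟨hv1, hv2⟩ := mem_bef.1 hv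
            have h3 := hIh u hu
            refine hinv.sep v hv1 hv2 u (hIS hu) ?_ hadj.symm
            rw [Fin.lt_def]
            omega
          · exact hI2 u hu v hv hadj
        have h5 := hres (bef h S ∪ I) (Finset.union_subset hsubS hIS) hind
        rw [Finset.card_union_of_disjoint hdisj, hAg] at h5
        have h6 : ((g + I.card : ℕ) : ℝ) ≤ ((keepAlg n h g N).result G).card := by
          exact_mod_cast h5
        push_cast at h6
        linarith

theorem keep_fail (h0 : 0 < p) (h1 : p < 1) {w : ℕ} (hw1 : w + g ≤ h)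
    (hw2 : w + h + N ≤ n) (x : ℝ) :
    Prob p (fun G : SimpleGraph (Fin n) => ¬ (g : ℝ) + x ≤ ((keepAlg n h g N).result G).card)
      ≤ 2 * ((n + 1) ^ g * (n + 1) ^ N * (1 - (1 - p) ^ g) ^ w)
        + Prob p (fun G : SimpleGraph (Fin N) =>
          ¬ ∃ I : Finset (Fin N), Indep G I ∧ x ≤ I.card) := by
  classical
  have hq0 : 0 ≤ 1 - p := by linarith
  have hq1 : 1 - p ≤ 1 := by linarith
  set r : ℝ := 1 - (1 - p) ^ g with hr
  have hr0 : 0 ≤ r := by
    rw [hr]
    have := pow_le_one₀ (n := g) hq0 hq1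
    linarith
  have hr1 : r ≤ 1 := by
    rw [hr]
    have := pow_nonneg hq0 g
    linarith
  have hTrue : Prob p (fun _ : SimpleGraph (Fin n) => True) = 1 := Prob_true h1
  have hhit : ∀ A V : Finset (Fin n), A.card ≤ g → Disjoint A V → w ≤ V.card →
      Prob p (fun G : SimpleGraph (Fin n) => ∀ v ∈ V, ∃ u ∈ A, G.Adj u v) ≤ r ^ w := by
    intro A V hA hd hV
    rw [prob_hit V hd, hTrue, mul_one]
    have h2 : 0 ≤ 1 - (1 - p) ^ A.card := by
      have := pow_le_one₀ (n := A.card) hq0 hq1
      linarith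
    have h3 : 1 - (1 - p) ^ A.card ≤ r := by
      rw [hr]
      have := pow_le_pow_of_le_one hq0 hq1 hA
      linarith
    calc (1 - (1 - p) ^ A.card) ^ V.card ≤ r ^ V.card := pow_le_pow_left₀ h2 h3 _
      _ ≤ r ^ w := pow_le_pow_of_le_one hr0 hr1 hV
  have hbefc : (bef h (Finset.univ : Finset (Fin n))).card = h := by
    have h2 : (bef h (Finset.univ : Finset (Fin n))) = Finset.univ.filter
        fun v : Fin n => (v : ℕ) < h := rfl
    rw [h2, Fin.card_filter_val_lt]
    omega
  have hg0 := Pool.Agent.H72.KarpS.card_small (Fin n) g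
  have hN0 := Pool.Agent.H72.KarpS.card_small (Fin n) N
  rw [Fintype.card_fin] at hg0 hN0
  set 𝓐 := (Finset.univ.filter fun J : Finset (Fin n) => J.card ≤ g) with h𝓐
  set 𝓨 := (Finset.univ.filter fun J : Finset (Fin n) => J.card ≤ N) with h𝓨
  have hgR : (𝓐.card : ℝ) ≤ ((n : ℝ) + 1) ^ g := by exact_mod_cast hg0
  have hNR : (𝓨.card : ℝ) ≤ ((n : ℝ) + 1) ^ N := by exact_mod_cast hN0
  have p1 : Prob p (fun G : SimpleGraph (Fin n) => ∃ A ∈ 𝓐,
      ∀ v ∈ bef h Finset.univ \ A, ∃ u ∈ A, G.Adj u v) ≤ (n + 1) ^ g * (n + 1) ^ N * r ^ w := by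
    refine (Prob_exists h0 h1 _ _).trans ?_
    calc ∑ A ∈ 𝓐, Prob p (fun G : SimpleGraph (Fin n) =>
          ∀ v ∈ bef h Finset.univ \ A, ∃ u ∈ A, G.Adj u v) ≤ ∑ _A ∈ 𝓐, r ^ w := by
          refine Finset.sum_le_sum fun A hA => ?_
          have hA' := (Finset.mem_filter.1 hA).2
          refine hhit A _ hA' Finset.disjoint_sdiff ?_
          have h2 := Finset.le_card_sdiff A (bef h (Finset.univ : Finset (Fin n)))
          rw [hbefc] at h2
          omega
      _ = 𝓐.card * r ^ w := by rw [Finset.sum_const, nsmul_eq_mul]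
      _ ≤ ((n : ℝ) + 1) ^ g * r ^ w := mul_le_mul_of_nonneg_right hgR (by positivity)
      _ ≤ (n + 1) ^ g * (n + 1) ^ N * r ^ w := by
          refine mul_le_mul_of_nonneg_right ?_ (by positivity)
          refine le_mul_of_one_le_right (by positivity) (one_le_pow₀ ?_)
          have : (0 : ℝ) ≤ n := by positivity
          linarith
  have p2 : Prob p (fun G : SimpleGraph (Fin n) => ∃ y ∈ 𝓐 ×ˢ 𝓨,
      y.1 ⊆ bef h Finset.univ ∧
      ∀ v ∈ (Finset.univ \ bef h Finset.univ) \ y.2, ∃ u ∈ y.1, G.Adj u v)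
      ≤ (n + 1) ^ g * (n + 1) ^ N * r ^ w := by
    refine (Prob_exists h0 h1 _ _).trans ?_
    calc ∑ y ∈ 𝓐 ×ˢ 𝓨, Prob p (fun G : SimpleGraph (Fin n) => y.1 ⊆ bef h Finset.univ ∧
          ∀ v ∈ (Finset.univ \ bef h Finset.univ) \ y.2, ∃ u ∈ y.1, G.Adj u v)
        ≤ ∑ _y ∈ 𝓐 ×ˢ 𝓨, r ^ w := by
          refine Finset.sum_le_sum fun y hy => ?_
          obtain ⟨hy1, hy2⟩ := Finset.mem_product.1 hy
          have hA' := (Finset.mem_filter.1 hy1).2
          have hY' := (Finset.mem_filter.1 hy2).2
          by_cases hsub : y.1 ⊆ bef h Finset.univ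
          · refine (Prob_mono h0 h1 fun G hG => hG.2).trans (hhit y.1 _ hA' ?_ ?_)
            · rw [Finset.disjoint_left]
              intro v hv hv'
              exact (Finset.mem_sdiff.1 (Finset.mem_sdiff.1 hv').1).2 (hsub hv)
            · have h2 := Finset.le_card_sdiff y.2
                ((Finset.univ : Finset (Fin n)) \ bef h Finset.univ)
              rw [Finset.card_sdiff_of_subset (Finset.subset_univ _), hbefc, Finset.card_univ,
                Fintype.card_fin] at h2
              omega
          · refine le_trans (le_of_eq ?_) (show (0 : ℝ) ≤ r ^ w by positivity)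
            have : (fun G : SimpleGraph (Fin n) => y.1 ⊆ bef h Finset.univ ∧
                ∀ v ∈ (Finset.univ \ bef h Finset.univ) \ y.2, ∃ u ∈ y.1, G.Adj u v)
                = fun _ => False := by
              funext G
              simp only [eq_iff_iff, iff_false]
              exact fun h2 => hsub h2.1
            rw [this]
            simp [Prob]
      _ = 𝓐.card * 𝓨.card * r ^ w := by
          rw [Finset.sum_const, Finset.card_product, nsmul_eq_mul]
          push_cast
          ring
      _ ≤ (n + 1) ^ g * (n + 1) ^ N * r ^ w := by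
          refine mul_le_mul_of_nonneg_right ?_ (by positivity)
          exact mul_le_mul hgR hNR (by positivity) (by positivity)
  have p3 : Prob p (fun G : SimpleGraph (Fin n) =>
      ∃ π ∈ Finset.powersetCard N (Finset.univ : Finset (Fin n)),
      (π = kept h g N G n \ bef h (kept h g N G n) ∧ (∀ v ∈ π, h ≤ (v : ℕ))) ∧
      ¬ ∃ I : Finset (Fin n), I ⊆ π ∧ Indep G I ∧ x ≤ I.card)
      ≤ Prob p (fun G : SimpleGraph (Fin N) =>
        ¬ ∃ I : Finset (Fin N), Indep G I ∧ x ≤ I.card) := by
    set α := Prob p (fun G : SimpleGraph (Fin N) =>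
        ¬ ∃ I : Finset (Fin N), Indep G I ∧ x ≤ I.card) with hα
    have hα0 : 0 ≤ α := Prob_nonneg h0 h1 _
    refine (Prob_exists h0 h1 _ _).trans ?_
    calc ∑ π ∈ Finset.powersetCard N (Finset.univ : Finset (Fin n)),
          Prob p (fun G : SimpleGraph (Fin n) =>
          (π = kept h g N G n \ bef h (kept h g N G n) ∧ (∀ v ∈ π, h ≤ (v : ℕ))) ∧
          ¬ ∃ I : Finset (Fin n), I ⊆ π ∧ Indep G I ∧ x ≤ I.card)
        ≤ ∑ π ∈ Finset.powersetCard N (Finset.univ : Finset (Fin n)),
          Prob p (fun G : SimpleGraph (Fin n) =>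
            kept h g N G n \ bef h (kept h g N G n) = π) * α := by
          refine Finset.sum_le_sum fun π hπ => ?_
          have hπc := (Finset.mem_powersetCard.1 hπ).2
          by_cases hlate : ∀ v ∈ π, h ≤ (v : ℕ)
          · rw [hα, ← prob_inside h0 h1 hπc x]
            rw [← Prob_late h]
            · refine Prob_mono h0 h1 fun G hG => ⟨hG.1.1.symm, hG.2⟩
            · intro G H hGH hG
              rw [← kept_congr hGH n le_rfl]
              exact hG
            · intro G H hGH hG
              rintro ⟨I, hI1, hI2, hI3⟩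
              refine hG ⟨I, hI1, ?_, hI3⟩
              intro u hu v hv hadj
              exact hI2 u hu v hv ((hGH u v (hlate u (hI1 hu)) (hlate v (hI1 hv))).1 hadj)
          · refine le_trans (le_of_eq ?_) (mul_nonneg (Prob_nonneg h0 h1 _) hα0)
            have : (fun G : SimpleGraph (Fin n) =>
                (π = kept h g N G n \ bef h (kept h g N G n) ∧ (∀ v ∈ π, h ≤ (v : ℕ))) ∧
                ¬ ∃ I : Finset (Fin n), I ⊆ π ∧ Indep G I ∧ x ≤ I.card) = fun _ => False := by
              funext G
              simp only [eq_iff_iff, iff_false]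
              exact fun h2 => hlate h2.1.2
            rw [this]
            simp [Prob]
      _ = (∑ π ∈ Finset.powersetCard N (Finset.univ : Finset (Fin n)),
          Prob p (fun G : SimpleGraph (Fin n) =>
            kept h g N G n \ bef h (kept h g N G n) = π)) * α := by rw [Finset.sum_mul]
      _ ≤ 1 * α := by
          refine mul_le_mul_of_nonneg_right ?_ hα0
          calc ∑ π ∈ Finset.powersetCard N (Finset.univ : Finset (Fin n)),
              Prob p (fun G : SimpleGraph (Fin n) =>
                kept h g N G n \ bef h (kept h g N G n) = π)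
              ≤ ∑ π : Finset (Fin n), Prob p (fun G : SimpleGraph (Fin n) =>
                kept h g N G n \ bef h (kept h g N G n) = π ∧ True) := by
                refine le_trans (Finset.sum_le_sum_of_subset_of_nonneg (Finset.subset_univ _)
                  fun _ _ _ => Prob_nonneg h0 h1 _) ?_
                refine Finset.sum_le_sum fun π _ => Prob_mono h0 h1 fun G hG => ⟨hG, trivial⟩
            _ = 1 := by
                rw [← Prob_fiber (fun G : SimpleGraph (Fin n) =>
                  kept h g N G n \ bef h (kept h g N G n)) (fun _ => True), hTrue]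
      _ = α := one_mul _
  refine (Prob_mono h0 h1 fun G hG => keep_cases G x hG).trans ?_
  refine (Prob_or h0 h1 _ _).trans ?_
  have p4 := Prob_or h0 h1 (fun G : SimpleGraph (Fin n) => ∃ y ∈ 𝓐 ×ˢ 𝓨,
      y.1 ⊆ bef h Finset.univ ∧
      ∀ v ∈ (Finset.univ \ bef h Finset.univ) \ y.2, ∃ u ∈ y.1, G.Adj u v)
    (fun G : SimpleGraph (Fin n) =>
      ∃ π ∈ Finset.powersetCard N (Finset.univ : Finset (Fin n)),
      (π = kept h g N G n \ bef h (kept h g N G n) ∧ (∀ v ∈ π, h ≤ (v : ℕ))) ∧
      ¬ ∃ I : Finset (Fin n), I ⊆ π ∧ Indep G I ∧ x ≤ I.card)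
  linarith

end Pool.Agent.H61S
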