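import Pool.Agent.H61S.Third
import Pool.Agent.H72.Karp.PeelBound

/-!
The lower bound: with at most `exp (n ^ (2μ + c))` states no algorithm finds independent sets with
`(1 + μ + ε) log_b n` vertices with probability more than `n ^ (-c)`.
-/

set_option autoImplicit false
set_option linter.unusedSectionVars false

namespace Pool.Agent.H61S

open Finset Pool.Agent.H85.Online Pool.Agent.H72.Karp Filter

variable {p : ℝ}

/-- powers of the logarithm are smaller than powers of `n` -/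
theorem poly_le_exp (C : ℝ) (k : ℕ) {c : ℝ} (hc : 0 < c) :
    ∀ᶠ n : ℕ in atTop, C * Real.log (n : ℝ) ^ k ≤ Real.exp (c * Real.log n) := by
  have h1 := (isLittleO_pow_exp_pos_mul_atTop k hc).bound
    (show (0 : ℝ) < 1 / (|C| + 1) by positivity)
  have h2 := log_nat_tendsto.eventually h1
  filter_upwards [h2, log_nat_tendsto.eventually_ge_atTop 0] with n hn hn0
  rw [Real.norm_of_nonneg (by positivity), Real.norm_of_nonneg (Real.exp_pos _).le, one_div,
    inv_mul_eq_div, le_div_iff₀ (by positivity)] at hn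
  have h3 : C * Real.log (n : ℝ) ^ k ≤ Real.log (n : ℝ) ^ k * (|C| + 1) := by
    have h4 : 0 ≤ Real.log (n : ℝ) ^ k := by positivity
    have h5 := le_abs_self C
    nlinarith
  exact h3.trans hn

/-- the coefficient of the square of the logarithm -/
theorem bracket {μ ε c : ℝ} (hμ0 : 0 ≤ μ) (hμ1 : μ ≤ 1) (hε : 0 < ε) (hε1 : ε ≤ 1)
    (hc : c = ε ^ 2 / 80) :
    (μ + ε) - (μ + ε) * (2 + μ + ε) / 2 + c + c + (μ + 3 * c) ^ 2 / (2 * (1 - c))
      ≤ -(ε ^ 2 / 4) := by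
  have hc0 : 0 < c := by rw [hc]; positivity
  have hc1 : c ≤ 1 / 80 := by
    rw [hc]
    have : ε ^ 2 ≤ 1 := by nlinarith
    linarith
  have h1 : (μ + 3 * c) ^ 2 / (2 * (1 - c)) ≤ μ ^ 2 / 2 + 6 * c := by
    rw [div_le_iff₀ (by linarith)]
    nlinarith [mul_nonneg hμ0 hc0.le, mul_nonneg hc0.le (sub_nonneg.2 hμ1),
      mul_nonneg (mul_nonneg hc0.le (sub_nonneg.2 hμ1)) hμ0]
  have h2 : ε ^ 2 = 80 * c := by rw [hc]; ring
  have h3 : 0 ≤ μ * ε := by positivity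
  nlinarith

theorem e_large {a c lam : ℝ} {z e : ℕ} (ha0 : 0 < a) (hc0 : 0 < c) (hlam : 1 ≤ lam)
    (h : 2 * a * (3 + a) / c ^ 2 ≤ lam) (hz2 : c * (lam / a) < z + 1)
    (he2 : (z + 1) * (z + 1) ≤ 2 * e + 1) : 2 * lam + 1 ≤ a * e := by
  have h0 : 0 ≤ c * (lam / a) := by positivity
  have h2 : (c * (lam / a)) ^ 2 ≤ ((z : ℝ) + 1) ^ 2 := pow_le_pow_left₀ h0 hz2.le 2
  have h3 : ((z : ℝ) + 1) ^ 2 ≤ 2 * e + 1 := by
    have : (((z + 1) * (z + 1) : ℕ) : ℝ) ≤ ((2 * e + 1 : ℕ) : ℝ) := by exact_mod_cast he2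
    push_cast at this
    linarith
  have h5 : (c * (lam / a)) ^ 2 = c ^ 2 * lam ^ 2 / a / a := by
    field_simp
  rw [h5] at h2
  have h4 : c ^ 2 * lam ^ 2 / a ≤ (2 * e + 1) * a := (div_le_iff₀ ha0).1 (h2.trans h3)
  rw [div_le_iff₀ (by positivity)] at h
  have h7 : 2 * (3 + a) * lam ≤ c ^ 2 * lam ^ 2 / a := by
    rw [le_div_iff₀ ha0]
    have h8 : 2 * a * (3 + a) * lam ≤ lam * c ^ 2 * lam :=
      mul_le_mul_of_nonneg_right h (by linarith)
    calc 2 * (3 + a) * lam * a = 2 * a * (3 + a) * lam := by ring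
      _ ≤ lam * c ^ 2 * lam := h8
      _ = c ^ 2 * lam ^ 2 := by ring
  have h9 : a ≤ a * lam := le_mul_of_one_le_right ha0.le hlam
  have h10 : 2 * (3 + a) * lam = 6 * lam + 2 * (a * lam) := by ring
  rw [h10] at h7
  have h11 : (2 * (e : ℝ) + 1) * a = 2 * (a * e) + a := by ring
  rw [h11] at h4
  linarith

theorem log_state {n : ℕ} {lam μ c δ τ M : ℝ} (hnexp : (n : ℝ) = Real.exp lam)
    (hlam : 4 ≤ lam) (hμ0 : 0 ≤ μ) (hc0 : 0 < c) (hc1 : c ≤ 1 / 80)
    (hδ : δ = Real.exp (-(2 * c * lam))) (hM : M = Real.exp ((2 * μ + c) * lam))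
    (hτ : τ = δ / ((n + 1) * Real.exp M)) (g2 : 4 * lam ≤ Real.exp (c * lam)) :
    Real.log (2 / (δ * τ)) ≤ 2 * M := by
  have hδ0 : 0 < δ := by rw [hδ]; exact Real.exp_pos _
  have hM0 : 0 < M := by rw [hM]; exact Real.exp_pos _
  have hn0 : (0 : ℝ) < n := by rw [hnexp]; exact Real.exp_pos _
  have hτ0 : 0 < τ := by rw [hτ]; positivity
  have hn1exp : (n : ℝ) + 1 ≤ Real.exp (lam + 1) := by
    rw [Real.exp_add, ← hnexp]
    have h2 := Real.add_one_le_exp (1 : ℝ)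
    have h3 : (1 : ℝ) ≤ n := by
      rw [hnexp]
      exact Real.one_le_exp (by linarith)
    have h4 : (n : ℝ) * 2 ≤ n * Real.exp 1 := mul_le_mul_of_nonneg_left (by linarith) hn0.le
    linarith
  have h3 : 2 / (δ * τ) = 2 * (n + 1) * Real.exp (4 * c * lam) * Real.exp M := by
    rw [hτ, hδ]
    have e6 : Real.exp (4 * c * lam)
        = (Real.exp (-(2 * c * lam)) * Real.exp (-(2 * c * lam)))⁻¹ := by
      rw [← Real.exp_add, ← Real.exp_neg]
      congr 1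
      ring
    rw [e6]
    have := Real.exp_pos (-(2 * c * lam))
    field_simp
  rw [Real.log_le_iff_le_exp (by positivity), h3]
  have h5 : (2 : ℝ) ≤ Real.exp 1 := by
    have := Real.add_one_le_exp (1 : ℝ)
    linarith
  have h6 : 2 * ((n : ℝ) + 1) ≤ Real.exp 1 * Real.exp (lam + 1) :=
    mul_le_mul h5 hn1exp (by positivity) (Real.exp_pos _).le
  have h7 : 2 * ((n : ℝ) + 1) * Real.exp (4 * c * lam)
      ≤ Real.exp (1 + (lam + 1) + 4 * c * lam) := by
    rw [Real.exp_add, Real.exp_add 1]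
    exact mul_le_mul_of_nonneg_right h6 (Real.exp_pos _).le
  have h8 : 1 + (lam + 1) + 4 * c * lam ≤ M := by
    have h10 : Real.exp (c * lam) ≤ M := by
      rw [hM]
      apply Real.exp_le_exp.2
      have : 0 ≤ 2 * μ * lam := by positivity
      linarith
    have h11 : 4 * c * lam ≤ 4 * (1 / 80) * lam :=
      mul_le_mul_of_nonneg_right (by linarith) (by linarith)
    linarith
  calc 2 * ((n : ℝ) + 1) * Real.exp (4 * c * lam) * Real.exp M
      ≤ Real.exp M * Real.exp M :=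
        mul_le_mul_of_nonneg_right (h7.trans (Real.exp_le_exp.2 h8)) (Real.exp_pos _).le
    _ = Real.exp (2 * M) := by
        rw [← Real.exp_add]
        congr 1
        ring

theorem d_large {a lam μ c δ M y : ℝ} {s d : ℕ} (ha0 : 0 < a) (hM : M = Real.exp ((2 * μ + c) * lam))
    (hδ : δ = Real.exp (-(2 * c * lam))) (hs1 : (s : ℝ) ≤ lam / a) (hy : y ≤ 2 * M)
    (hd1 : Real.exp ((μ + 2 * c) * lam) ≤ d) (g1 : 4 / a ^ 2 * lam ^ 2 ≤ Real.exp (c * lam)) :
    2 * (2 / δ * y * (s.choose 2 : ℕ)) ≤ d * d := by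
  have hM0 : 0 < M := by rw [hM]; exact Real.exp_pos _
  have h3 : ((s.choose 2 : ℕ) : ℝ) ≤ lam ^ 2 / (2 * a ^ 2) := by
    have h4 : ((s.choose 2 : ℕ) : ℝ) = (s : ℝ) * (s - 1) / 2 := Nat.cast_choose_two ℝ s
    rw [h4]
    have h6 : (0 : ℝ) ≤ s := by positivity
    have h5 : (s : ℝ) * (s - 1) ≤ (lam / a) ^ 2 := by
      have h7 : (s : ℝ) * s ≤ (lam / a) * (lam / a) := mul_le_mul hs1 hs1 h6 (h6.trans hs1)
      have h8 : (s : ℝ) * (s - 1) = s * s - s := by ring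
      rw [h8, sq]
      linarith
    calc (s : ℝ) * (s - 1) / 2 ≤ (lam / a) ^ 2 / 2 := by linarith
      _ = lam ^ 2 / (2 * a ^ 2) := by field_simp
  have h4 : 2 / δ = 2 * Real.exp (2 * c * lam) := by
    rw [hδ, Real.exp_neg, div_inv_eq_mul]
  have h6 : (0 : ℝ) ≤ ((s.choose 2 : ℕ) : ℝ) := by positivity
  calc 2 * (2 / δ * y * ((s.choose 2 : ℕ) : ℝ))
      ≤ 2 * (2 / δ * (2 * M) * ((s.choose 2 : ℕ) : ℝ)) := by
        rw [h4]
        refine mul_le_mul_of_nonneg_left (mul_le_mul_of_nonneg_right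
          (mul_le_mul_of_nonneg_left hy (by positivity)) h6) (by norm_num)
    _ ≤ 2 * (2 * Real.exp (2 * c * lam) * (2 * M) * (lam ^ 2 / (2 * a ^ 2))) := by
        rw [h4]
        refine mul_le_mul_of_nonneg_left ?_ (by norm_num)
        exact mul_le_mul_of_nonneg_left h3 (by positivity)
    _ = (4 / a ^ 2 * lam ^ 2) * (Real.exp (2 * c * lam) * M) := by
        field_simp
        ring
    _ ≤ Real.exp (c * lam) * (Real.exp (2 * c * lam) * M) :=
        mul_le_mul_of_nonneg_right g1 (by positivity)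
    _ = Real.exp ((μ + 2 * c) * lam) * Real.exp ((μ + 2 * c) * lam) := by
        rw [hM, ← Real.exp_add, ← Real.exp_add, ← Real.exp_add]
        congr 1
        ring
    _ ≤ d * d := mul_le_mul hd1 hd1 (Real.exp_pos _).le (by positivity)

/-- the numerical estimate of the exponent -/
theorem exponent {a c lam μ ε β : ℝ} {s k z f : ℝ} (hμ0 : 0 ≤ μ) (hμ1 : μ ≤ 1) (hε : 0 < ε)
    (hε1 : ε ≤ 1) (hc : c = ε ^ 2 / 80) (ha0 : 0 < a) (hβ : β = a * (1 - c))
    (hs1 : s ≤ lam / a) (hs2 : lam / a < s + 1)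
    (hk1 : (1 + μ + ε) * (lam / a) ≤ k)
    (hk2 : k < (1 + μ + ε) * (lam / a) + 1) (hz1 : z ≤ c * (lam / a))
    (hff : 2 * f = (k - s) * (k + s - 1)) (h4 : 4 ≤ lam) (ha : a ≤ lam)
    (e2 : a * (8 + 2 / a + 3) / (ε ^ 2 / 4) ≤ lam) :
    lam + 1 + ((k - s) * lam + -(a * f) + (lam + 1 + (s + (s * (c * lam) +
      (((μ + 3 * c) * lam) ^ 2 / (2 * β) + (μ + 3 * c) * lam)) + z * (lam + 1)))) ≤ -lam := by
  have hc0 : 0 < c := by rw [hc]; positivity
  have hc1 : c ≤ 1 / 80 := by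
    rw [hc]
    have : ε ^ 2 ≤ 1 := by nlinarith
    linarith
  have hlam0 : 0 < lam := by linarith
  have hL1 : 1 ≤ lam / a := by
    rw [le_div_iff₀ ha0]
    linarith
  obtain ⟨L, hL⟩ : ∃ L : ℝ, L = lam / a := ⟨_, rfl⟩
  rw [← hL] at hs1 hs2 hk1 hk2 hz1 hL1
  have hlamL : lam = a * L := by rw [hL]; field_simp
  have hex1 : (1 + μ + ε) * L = L + (μ + ε) * L := by ring
  rw [hex1] at hk1 hk2
  have q0 : 0 ≤ (μ + ε) * L := by positivity
  have q1 : (μ + ε) * L ≤ k - s := by linarith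
  have q2 : 2 * L + (μ + ε) * L - 2 ≤ k + s - 1 := by linarith
  have q3 : k - s ≤ (μ + ε) * L + 2 := by linarith
  have q4 : (μ + ε) * (2 + μ + ε) * L ^ 2 / 2 - (μ + ε) * L ≤ f := by
    have q5 : (μ + ε) * L * (2 * L + (μ + ε) * L - 2) ≤ (k - s) * (k + s - 1) :=
      mul_le_mul q1 q2 (by linarith) (by linarith)
    rw [← hff] at q5
    have q6 : (μ + ε) * (2 + μ + ε) * L ^ 2 / 2 - (μ + ε) * L
        = (μ + ε) * L * (2 * L + (μ + ε) * L - 2) / 2 := by ring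
    rw [q6]
    linarith
  have q4' : a * ((μ + ε) * (2 + μ + ε) * L ^ 2 / 2 - (μ + ε) * L) ≤ a * f :=
    mul_le_mul_of_nonneg_left q4 ha0.le
  have q7 : ((μ + 3 * c) * lam) ^ 2 / (2 * β)
      = (μ + 3 * c) ^ 2 / (2 * (1 - c)) * (a * L ^ 2) := by
    rw [hβ, hlamL]
    have : (0 : ℝ) < 1 - c := by linarith
    field_simp
  have q8 : s * (c * lam) ≤ c * (a * L ^ 2) := by
    calc s * (c * lam) ≤ L * (c * lam) := mul_le_mul_of_nonneg_right hs1 (by positivity)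
      _ = c * (a * L ^ 2) := by rw [hlamL]; ring
  have q9 : z * (lam + 1) ≤ c * (a * L ^ 2) + c * L := by
    calc z * (lam + 1) ≤ c * L * (lam + 1) := mul_le_mul_of_nonneg_right hz1 (by positivity)
      _ = c * (a * L ^ 2) + c * L := by rw [hlamL]; ring
  have q10 : (k - s) * lam ≤ (μ + ε) * (a * L ^ 2) + 2 * lam := by
    calc (k - s) * lam ≤ ((μ + ε) * L + 2) * lam := mul_le_mul_of_nonneg_right q3 hlam0.le
      _ = (μ + ε) * (a * L ^ 2) + 2 * lam := by rw [hlamL]; ring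
  have hbr := bracket hμ0 hμ1 hε hε1 hc
  have q11 : ((μ + ε) - (μ + ε) * (2 + μ + ε) / 2 + c + c
      + (μ + 3 * c) ^ 2 / (2 * (1 - c))) * (a * L ^ 2) ≤ -(ε ^ 2 / 4) * (a * L ^ 2) :=
    mul_le_mul_of_nonneg_right hbr (by positivity)
  have q12 : 11 * lam + 2 * L ≤ ε ^ 2 / 4 * (a * L ^ 2) := by
    rw [div_le_iff₀ (by positivity)] at e2
    have h9 : a * (8 + 2 / a + 3) * L ≤ lam * (ε ^ 2 / 4) * L :=
      mul_le_mul_of_nonneg_right e2 (by linarith)
    have h10 : a * (8 + 2 / a + 3) * L = 11 * lam + 2 * L := by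
      rw [hlamL]
      field_simp
      ring
    have h11 : lam * (ε ^ 2 / 4) * L = ε ^ 2 / 4 * (a * L ^ 2) := by
      rw [hlamL]
      ring
    rw [h10, h11] at h9
    exact h9
  have q14 : c * L ≤ 1 * L := mul_le_mul_of_nonneg_right (by linarith) (by linarith)
  have q15 : a * ((μ + ε) * (2 + μ + ε) * L ^ 2 / 2 - (μ + ε) * L)
      = (μ + ε) * (2 + μ + ε) / 2 * (a * L ^ 2) - (μ + ε) * lam := by
    rw [hlamL]
    ring
  rw [q15] at q4'
  have q16 : (μ + ε) * lam ≤ 2 * lam := mul_le_mul_of_nonneg_right (by linarith) hlam0.le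
  have q17 : (μ + 3 * c) * lam ≤ 2 * lam := mul_le_mul_of_nonneg_right (by linarith) hlam0.le
  rw [q7]
  have q18 : ((μ + ε) - (μ + ε) * (2 + μ + ε) / 2 + c + c
      + (μ + 3 * c) ^ 2 / (2 * (1 - c))) * (a * L ^ 2)
      = (μ + ε) * (a * L ^ 2) - (μ + ε) * (2 + μ + ε) / 2 * (a * L ^ 2) + c * (a * L ^ 2)
        + c * (a * L ^ 2) + (μ + 3 * c) ^ 2 / (2 * (1 - c)) * (a * L ^ 2) := by ring
  rw [q18] at q11
  linarith

end Pool.Agent.H61S
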