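import Pool.Agent.H61S.Core

/-!
The main part of the lower bound: the early part of the output is covered, and it is extended by
vertices about which the state contains no information.
-/

set_option autoImplicit false
set_option linter.unusedSectionVars false

namespace Pool.Agent.H61S

open Finset Pool.Agent.H85.Online Pool.Agent.H72.Karp

variable {n : ℕ} {Q : Type} {p : ℝ}

/-- the bound for the number of covered independent sets -/
noncomputable def NB (n s z : ℕ) (Λ β x : ℝ) : ℝ :=
  (n + 1) * ((s + 1) * (Λ ^ s * Real.exp (x ^ 2 / (2 * β) + x)) * (n + 1) ^ z)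

/-- the numerical conditions -/
structure Par (p : ℝ) (n : ℕ) (δ τ : ℝ) (ℓ s e z d : ℕ) (θ η β Λ x : ℝ) : Prop where
  hθ : 0 ≤ θ
  hη : 0 < η
  hℓ : 0 < ℓ
  hβ : 0 < β
  hρ : θ + η ≤ Real.exp (-β)
  hΛ1 : (ℓ : ℝ) + 1 ≤ Λ
  hΛ2 : 2 * (ℓ : ℝ) ≤ Λ
  hΛ3 : (ℓ : ℝ) ≤ η * Λ
  he : 0 < e
  hz : 2 * e ≤ (z + 1) * (z + 1)
  hx : 0 ≤ x
  hdx : (d : ℝ) + 1 ≤ Real.exp x
  hδ : 0 < δ
  hδ1 : δ ≤ 1
  hτ : 0 < τ
  hy : (n : ℝ) ^ 2 * (1 - p) ^ e ≤ Real.exp (-1)
  hd : 2 * (2 / δ * Real.log (2 / (δ * τ)) * (s.choose 2 : ℕ)) ≤ d * d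

open Classical in
/-- the number of independent sets which are likely to be independent, for a heavy state -/
theorem card_likely (h0 : 0 < p) (h1 : p < 1) {δ τ : ℝ} {ℓ s e z d : ℕ} {θ η β Λ x : ℝ}
    (P : Par p n δ τ ℓ s e z d θ η β Λ x) (A : RowAlg n Q) (t : ℕ) {G : SimpleGraph (Fin n)}
    (hB : Balanced (bef t Finset.univ) ℓ θ G)
    (hw : τ ≤ Prob p (fun H : SimpleGraph (Fin n) => A.state H t = A.state G t)) :
    (((Finset.powersetCard s (bef t (Finset.univ : Finset (Fin n)))).filter fun X =>
      Indep G X ∧ Cond p A δ t (A.state G t) X).card : ℝ) ≤ NB n s z Λ β x := by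
  classical
  set q := A.state G t with hq
  set w : ℝ := Prob p (fun H : SimpleGraph (Fin n) => A.state H t = q) with hwdef
  have hw0 : 0 < w := lt_of_lt_of_le P.hτ hw
  have hw1 : w ≤ 1 := Prob_le_one h0 h1 _
  obtain ⟨E, hE1, hE2⟩ := cover h0 h1 (fun H : SimpleGraph (Fin n) => A.state H t = q)
    (F := fun X => X.card = s ∧ Cond p A δ t q X) (e := e) (c := s.choose 2) P.he P.hδ P.hδ1 hw0
    (fun X hX => hX.2) (fun X hX => by rw [card_prs, hX.1]) P.hy
  have hd' : 2 * E.card ≤ d * d := by
    have h2 : Real.log (2 / (δ * w)) ≤ Real.log (2 / (δ * τ)) := by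
      have hδ := P.hδ
      have hτ := P.hτ
      apply Real.log_le_log (by positivity)
      exact div_le_div_of_nonneg_left (by norm_num) (by positivity)
        (mul_le_mul_of_nonneg_left hw hδ.le)
    have h3 : (E.card : ℝ) ≤ 2 / δ * Real.log (2 / (δ * τ)) * (s.choose 2 : ℕ) := by
      refine hE1.trans (mul_le_mul_of_nonneg_right ?_ (by positivity))
      exact mul_le_mul_of_nonneg_left h2 (div_nonneg (by norm_num) P.hδ.le)
    have h4 : (2 * E.card : ℝ) ≤ (d * d : ℝ) := by
      have := P.hd
      linarith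
    exact_mod_cast h4
  refine le_trans ?_ (card_covered (s := s) hB P.hθ P.hη P.hℓ P.hβ P.hρ P.hΛ1 P.hΛ2 P.hΛ3 hd'
    P.hz P.hx P.hdx)
  have hsub : ((Finset.powersetCard s (bef t (Finset.univ : Finset (Fin n)))).filter fun X =>
      Indep G X ∧ Cond p A δ t q X)
      ⊆ ((Finset.powersetCard s (bef t (Finset.univ : Finset (Fin n)))).filter fun X =>
        Indep G X ∧ (prs X \ E).card < e) := by
    intro X hX
    obtain ⟨hX1, hX2, hX3⟩ := Finset.mem_filter.1 hX
    exact Finset.mem_filter.2 ⟨hX1, hX2, hE2 X ⟨(Finset.mem_powersetCard.1 hX1).2, hX3⟩⟩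
  exact_mod_cast Finset.card_le_card hsub

/-- the event about the past -/
def Past (p : ℝ) (A : RowAlg n Q) (δ τ : ℝ) (ℓ : ℕ) (θ : ℝ) (t : ℕ) (X : Finset (Fin n))
    (G : SimpleGraph (Fin n)) : Prop :=
  Balanced (bef t Finset.univ) ℓ θ G ∧
    τ ≤ Prob p (fun H : SimpleGraph (Fin n) => A.state H t = A.state G t) ∧
    Indep G X ∧ Cond p A δ t (A.state G t) X

theorem Past_congr {A : RowAlg n Q} {δ τ : ℝ} {ℓ : ℕ} {θ : ℝ} {t : ℕ} {X : Finset (Fin n)}
    (hX : X ⊆ bef t Finset.univ) {G H : SimpleGraph (Fin n)} (hGH : AgreeOn t G H)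
    (hG : Past p A δ τ ℓ θ t X G) : Past p A δ τ ℓ θ t X H := by
  classical
  obtain ⟨h1, h2, h3, h4⟩ := hG
  have hst : A.state G t = A.state H t := A.state_congr hGH t le_rfl
  refine ⟨?_, ?_, ?_, ?_⟩
  · intro B U hB hU hd hBc hUc
    have h5 := h1 B U hB hU hd hBc hUc
    have h6 : nonadj G B U = nonadj H B U := by
      unfold nonadj
      congr 1
      refine Finset.filter_congr fun y hy => ?_
      obtain ⟨hy1, hy2⟩ := Finset.mem_product.1 hy
      rw [hGH y.1 y.2 (mem_bef.1 (hB hy1)).2 (mem_bef.1 (hU hy2)).2]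
    rw [← h6]
    exact h5
  · rw [← hst]
    exact h2
  · intro u hu v hv huv
    exact h3 u hu v hv ((hGH u v (mem_bef.1 (hX hu)).2 (mem_bef.1 (hX hv)).2).2 huv)
  · rw [← hst]
    exact h4

open Classical in
theorem sum_past (h0 : 0 < p) (h1 : p < 1) {δ τ : ℝ} {ℓ s e z d : ℕ} {θ η β Λ x : ℝ}
    (P : Par p n δ τ ℓ s e z d θ η β Λ x) (A : RowAlg n Q) (t : ℕ) :
    ∑ X ∈ Finset.powersetCard s (bef t (Finset.univ : Finset (Fin n))),
      Prob p (Past p A δ τ ℓ θ t X) ≤ NB n s z Λ β x := by
  classical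
  have hNB : 0 ≤ NB n s z Λ β x := by
    have hΛ0 : 0 ≤ Λ := by
      have := P.hΛ1
      have : (0 : ℝ) ≤ ℓ := by positivity
      linarith
    unfold NB
    positivity
  calc ∑ X ∈ Finset.powersetCard s (bef t (Finset.univ : Finset (Fin n))),
      Prob p (Past p A δ τ ℓ θ t X)
      = ∑ G : SimpleGraph (Fin n), ∑ X ∈ Finset.powersetCard s
          (bef t (Finset.univ : Finset (Fin n))),
          (if Past p A δ τ ℓ θ t X G then weight p G else 0) := by
        unfold Prob
        rw [Finset.sum_comm]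
    _ ≤ ∑ G : SimpleGraph (Fin n), NB n s z Λ β x * weight p G := by
        refine Finset.sum_le_sum fun G _ => ?_
        have hwt := weight_nonneg h0 h1 G
        rw [← Finset.sum_filter, Finset.sum_const, nsmul_eq_mul]
        refine mul_le_mul_of_nonneg_right ?_ hwt
        by_cases hG : Balanced (bef t Finset.univ) ℓ θ G ∧
            τ ≤ Prob p (fun H : SimpleGraph (Fin n) => A.state H t = A.state G t)
        · refine le_trans ?_ (card_likely h0 h1 P A t hG.1 hG.2)
          have hsub : (Finset.powersetCard s (bef t (Finset.univ : Finset (Fin n)))).filter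
              (fun X => Past p A δ τ ℓ θ t X G)
              ⊆ (Finset.powersetCard s (bef t (Finset.univ : Finset (Fin n)))).filter fun X =>
                Indep G X ∧ Cond p A δ t (A.state G t) X := by
            intro X hX
            obtain ⟨hX1, hX2⟩ := Finset.mem_filter.1 hX
            exact Finset.mem_filter.2 ⟨hX1, hX2.2.2.1, hX2.2.2.2⟩
          exact_mod_cast Finset.card_le_card hsub
        · rw [Finset.filter_false_of_mem]
          · simpa using hNB
          · intro X _ hX
            exact hG ⟨hX.1, hX.2.1⟩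
    _ = NB n s z Λ β x := by
        rw [← Finset.mul_sum]
        have h2 := Prob_true (p := p) (n := n) h1
        unfold Prob at h2
        simp only [if_true] at h2
        rw [h2, mul_one]

theorem prob_third (h0 : 0 < p) (h1 : p < 1) {δ τ : ℝ} {ℓ s e z d : ℕ} {θ η β Λ x : ℝ}
    (P : Par p n δ τ ℓ s e z d θ η β Λ x) (A : RowAlg n Q) (t : ℕ) {k f : ℕ} (hk : s ≤ k)
    (hf : 2 * f = (k - s) * (2 * s + (k - s) - 1)) :
    Prob p (fun G => Past p A δ τ ℓ θ t (bef t (A.result G)) G ∧ (bef t (A.result G)).card = s ∧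
        Indep G (A.result G) ∧ k ≤ (A.result G).card)
      ≤ (n : ℝ) ^ (k - s) * (1 - p) ^ f * NB n s z Λ β x := by
  classical
  set 𝓡 : Finset (Finset (Fin n)) := (Finset.powersetCard (k - s)
    (Finset.univ : Finset (Fin n))).filter fun R => ∀ v ∈ R, t ≤ (v : ℕ) with h𝓡
  set 𝓧 : Finset (Finset (Fin n)) := Finset.powersetCard s (bef t (Finset.univ : Finset (Fin n)))
    with h𝓧
  have hdisj : ∀ X ∈ 𝓧, ∀ R ∈ 𝓡, Disjoint X R := by
    intro X hX R hR
    rw [Finset.disjoint_left]
    intro v hvX hvR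
    have h2 := (mem_bef.1 ((Finset.mem_powersetCard.1 hX).1 hvX)).2
    have h3 := (Finset.mem_filter.1 hR).2 v hvR
    omega
  calc Prob p (fun G => Past p A δ τ ℓ θ t (bef t (A.result G)) G ∧
        (bef t (A.result G)).card = s ∧ Indep G (A.result G) ∧ k ≤ (A.result G).card)
      ≤ Prob p (fun G => ∃ y ∈ 𝓧 ×ˢ 𝓡, Past p A δ τ ℓ θ t y.1 G ∧
          ∀ e ∈ pairs y.1 y.2, e ∉ G.edgeSet) := by
        refine Prob_mono h0 h1 fun G hG => ?_
        obtain ⟨h2, h3, h4, h5⟩ := hG
        set S := A.result G with hS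
        have hc : k - s ≤ (S \ bef t S).card := by
          have hsub : bef t S ⊆ S := Finset.filter_subset _ _
          rw [Finset.card_sdiff_of_subset hsub, h3]
          omega
        obtain ⟨R, hR1, hR2⟩ := Finset.exists_subset_card_eq hc
        have hRS : R ⊆ S := hR1.trans Finset.sdiff_subset
        refine ⟨(bef t S, R), Finset.mem_product.2 ⟨?_, ?_⟩, h2, ?_⟩
        · refine Finset.mem_powersetCard.2 ⟨?_, h3⟩
          intro v hv
          exact mem_bef.2 ⟨Finset.mem_univ _, (mem_bef.1 hv).2⟩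
        · refine Finset.mem_filter.2 ⟨Finset.mem_powersetCard.2 ⟨Finset.subset_univ _, hR2⟩, ?_⟩
          intro v hv
          obtain ⟨h6, h7⟩ := Finset.mem_sdiff.1 (hR1 hv)
          by_contra hlt
          exact h7 (mem_bef.2 ⟨h6, by omega⟩)
        · intro e he
          induction e using Sym2.ind with
          | _ u v =>
          obtain ⟨_, h7, h8, _⟩ := mem_pairs he
          rw [SimpleGraph.mem_edgeSet]
          have hmem : ∀ w ∈ bef t S ∪ R, w ∈ S := by
            intro w hw
            rcases Finset.mem_union.1 hw with hw | hw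
            · exact (mem_bef.1 hw).1
            · exact hRS hw
          exact h4 u (hmem u h7) v (hmem v h8)
    _ ≤ ∑ y ∈ 𝓧 ×ˢ 𝓡, Prob p (fun G => Past p A δ τ ℓ θ t y.1 G ∧
          ∀ e ∈ pairs y.1 y.2, e ∉ G.edgeSet) := Prob_exists h0 h1 _ _
    _ = ∑ y ∈ 𝓧 ×ˢ 𝓡, (1 - p) ^ f * Prob p (Past p A δ τ ℓ θ t y.1) := by
        refine Finset.sum_congr rfl fun y hy => ?_
        obtain ⟨hy1, hy2⟩ := Finset.mem_product.1 hy
        have hd := hdisj _ hy1 _ hy2
        have hXsub := (Finset.mem_powersetCard.1 hy1).1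
        rw [Prob_and_no_edges]
        · congr 2
          have h2 := card_pairs hd
          rw [(Finset.mem_powersetCard.1 (Finset.mem_filter.1 hy2).1).2,
            (Finset.mem_powersetCard.1 hy1).2, ← hf] at h2
          omega
        · intro u v huv
          obtain ⟨h2, _, _, h5⟩ := mem_pairs huv
          refine ⟨h2, fun G => ?_⟩
          have hge : t ≤ (u : ℕ) ∨ t ≤ (v : ℕ) := by
            rcases h5 with h5 | h5
            · exact Or.inl ((Finset.mem_filter.1 hy2).2 u h5)
            · exact Or.inr ((Finset.mem_filter.1 hy2).2 v h5)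
          have hag : AgreeOn t (G ⊔ SimpleGraph.edge u v) G := by
            intro a b ha hb
            rw [SimpleGraph.sup_adj, SimpleGraph.edge_adj]
            constructor
            · rintro (h | ⟨⟨h6, h7⟩ | ⟨h6, h7⟩, _⟩)
              · exact h
              · subst h6; subst h7
                omega
              · subst h6; subst h7
                omega
            · exact Or.inl
          exact ⟨Past_congr hXsub hag, Past_congr hXsub hag.symm⟩
    _ = (𝓡.card : ℝ) * (1 - p) ^ f * ∑ X ∈ 𝓧, Prob p (Past p A δ τ ℓ θ t X) := by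
        rw [Finset.sum_product, Finset.mul_sum]
        refine Finset.sum_congr rfl fun X _ => ?_
        simp only
        rw [Finset.sum_const, nsmul_eq_mul]
        ring
    _ ≤ (n : ℝ) ^ (k - s) * (1 - p) ^ f * NB n s z Λ β x := by
        have hq0 : 0 ≤ (1 - p) ^ f := pow_nonneg (by linarith) _
        have h2 : (𝓡.card : ℝ) ≤ (n : ℝ) ^ (k - s) := by
          have h3 : 𝓡.card ≤ n ^ (k - s) := by
            refine (Finset.card_le_card (Finset.filter_subset _ _)).trans ?_
            rw [Finset.card_powersetCard, Finset.card_univ, Fintype.card_fin]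
            exact Nat.choose_le_pow _ _
          exact_mod_cast h3
        exact mul_le_mul (mul_le_mul_of_nonneg_right h2 hq0) (sum_past h0 h1 P A t)
          (Finset.sum_nonneg fun X _ => Prob_nonneg h0 h1 _) (by positivity)

/-- The finite form of the lower bound. -/
theorem finite_bound (h0 : 0 < p) (h1 : p < 1) [Fintype Q] {δ τ : ℝ} {ℓ s e z d : ℕ}
    {θ η β Λ x : ℝ} (P : Par p n δ τ ℓ s e z d θ η β Λ x) (A : RowAlg n Q) {k f : ℕ}
    (hs : 0 < s) (hk : s ≤ k) (hf : 2 * f = (k - s) * (2 * s + (k - s) - 1)) :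
    Prob p (fun G => Indep G (A.result G) ∧ k ≤ (A.result G).card)
      ≤ Prob p (fun G : SimpleGraph (Fin n) => ¬ Balanced Finset.univ ℓ θ G)
        + (n + 1) * (Fintype.card Q * τ) + δ
        + (n + 1) * ((n : ℝ) ^ (k - s) * (1 - p) ^ f * NB n s z Λ β x) := by
  classical
  set C : ℝ := (n : ℝ) ^ (k - s) * (1 - p) ^ f * NB n s z Λ β x with hC
  have hmain : Prob p (fun G => Indep G (A.result G) ∧ k ≤ (A.result G).card)
      ≤ Prob p (fun G : SimpleGraph (Fin n) => ¬ Balanced Finset.univ ℓ θ G)
        + ∑ t ∈ Finset.range (n + 1), (Fintype.card Q * τ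
          + δ * Prob p (fun G => Tight s t (A.result G)) + C) := by
    calc Prob p (fun G => Indep G (A.result G) ∧ k ≤ (A.result G).card)
        ≤ Prob p (fun G : SimpleGraph (Fin n) => ¬ Balanced Finset.univ ℓ θ G ∨
            ∃ t ∈ Finset.range (n + 1),
            ((Prob p (fun H : SimpleGraph (Fin n) => A.state H t = A.state G t) < τ ∨
            (Tight s t (A.result G) ∧ Indep G (bef t (A.result G)) ∧
              ¬ Cond p A δ t (A.state G t) (bef t (A.result G)))) ∨
            (Past p A δ τ ℓ θ t (bef t (A.result G)) G ∧ (bef t (A.result G)).card = s ∧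
              Indep G (A.result G) ∧ k ≤ (A.result G).card))) := by
          refine Prob_mono h0 h1 fun G hG => ?_
          by_cases hbal : Balanced Finset.univ ℓ θ G
          · right
            obtain ⟨t, ht, hT⟩ := exists_tight (n := n) hs (hk.trans hG.2)
            refine ⟨t, ht, ?_⟩
            have hind : Indep G (bef t (A.result G)) := indep_sub (Finset.filter_subset _ _) hG.1
            by_cases hw : Prob p (fun H : SimpleGraph (Fin n) => A.state H t = A.state G t) < τ
            · exact Or.inl (Or.inl hw)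
            · push Not at hw
              by_cases hc : Cond p A δ t (A.state G t) (bef t (A.result G))
              · right
                exact ⟨⟨hbal.mono (Finset.subset_univ _), hw, hind, hc⟩, hT.1, hG.1, hG.2⟩
              · exact Or.inl (Or.inr ⟨hT, hind, hc⟩)
          · exact Or.inl hbal
      _ ≤ Prob p (fun G : SimpleGraph (Fin n) => ¬ Balanced Finset.univ ℓ θ G)
          + Prob p (fun G : SimpleGraph (Fin n) => ∃ t ∈ Finset.range (n + 1),
            ((Prob p (fun H : SimpleGraph (Fin n) => A.state H t = A.state G t) < τ ∨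
            (Tight s t (A.result G) ∧ Indep G (bef t (A.result G)) ∧
              ¬ Cond p A δ t (A.state G t) (bef t (A.result G)))) ∨
            (Past p A δ τ ℓ θ t (bef t (A.result G)) G ∧ (bef t (A.result G)).card = s ∧
              Indep G (A.result G) ∧ k ≤ (A.result G).card))) := Prob_or h0 h1 _ _
      _ ≤ _ := by
          refine add_le_add le_rfl ((Prob_exists h0 h1 _ _).trans (Finset.sum_le_sum ?_))
          intro t ht
          have htn : t ≤ n := by
            rw [Finset.mem_range] at ht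
            omega
          refine (Prob_or h0 h1 _ _).trans (add_le_add ((Prob_or h0 h1 _ _).trans
            (add_le_add ?_ ?_)) ?_)
          · exact prob_light h0 h1 A t P.hτ.le
          · exact prob_lucky h0 h1 A htn s P.hδ.le
          · exact prob_third h0 h1 P A t hk hf
  rw [Finset.sum_add_distrib, Finset.sum_add_distrib, Finset.sum_const,
    Finset.sum_const, Finset.card_range, nsmul_eq_mul, nsmul_eq_mul, ← Finset.mul_sum] at hmain
  have h2 := mul_le_mul_of_nonneg_left (sum_tight h0 h1 A s) P.hδ.le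
  push_cast at hmain
  linarith

end Pool.Agent.H61S
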