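import Pool.Agent.H61S.KeepProb
import Pool.Agent.H61S.Numer
import Pool.Agent.H51Q.Upper
import Pool.Agent.H72.KarpS.AlphaL

/-!
The matching algorithm: with `2 ^ (n ^ (2μ))` states an independent set with
`(1 + μ - ε) log_b n` vertices is found, except with probability `n ^ (-a)`.
-/

set_option autoImplicit false
set_option linter.unusedSectionVars false

namespace Pool.Agent.H61S

open Finset Pool.Agent.H85.Online Pool.Agent.H72.Karp Filter

variable {p : ℝ}

/-- the number of states -/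
theorem states_small {n g N : ℕ} {lam μ κ E : ℝ}
    (hn1exp : (n : ℝ) + 1 ≤ Real.exp (lam + 1)) (hlam : 1 ≤ lam)
    (hE : E = Real.exp ((μ - 2 * κ) * lam)) (hE1 : 1 ≤ E) (hg : (g : ℝ) ≤ E) (hN : (N : ℝ) ≤ E)
    (hgr : 13 + 4 * lam ≤ Real.exp (4 * κ * lam)) :
    ((((n + 1) ^ (g + N) * 2 ^ ((g + N + 1) ^ 2) : ℕ)) : ℝ)
      ≤ (2 : ℝ) ^ (Real.exp (2 * μ * lam)) := by
  have h2 : (n : ℝ) + 1 ≤ (2 : ℝ) ^ (2 * (lam + 1)) := by
    refine hn1exp.trans ?_
    have h3 : (2 : ℝ) ^ (2 * (lam + 1)) = Real.exp (Real.log 2 * (2 * (lam + 1))) := by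
      rw [Real.rpow_def_of_pos (by norm_num)]
    rw [h3]
    apply Real.exp_le_exp.2
    have h4 : (1 : ℝ) / 2 ≤ Real.log 2 := by
      have := Real.log_two_gt_d9
      linarith
    nlinarith
  have hm : ((g + N : ℕ) : ℝ) ≤ 2 * E := by
    push_cast
    linarith
  have h3 : ((n : ℝ) + 1) ^ (g + N) ≤ (2 : ℝ) ^ (2 * (lam + 1) * (2 * E)) := by
    calc ((n : ℝ) + 1) ^ (g + N) ≤ ((2 : ℝ) ^ (2 * (lam + 1))) ^ (g + N) :=
          pow_le_pow_left₀ (by positivity) h2 _
      _ = (2 : ℝ) ^ (2 * (lam + 1) * ((g + N : ℕ) : ℝ)) := by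
          rw [Real.rpow_mul (by norm_num) (2 * (lam + 1)) ((g + N : ℕ) : ℝ), Real.rpow_natCast]
      _ ≤ (2 : ℝ) ^ (2 * (lam + 1) * (2 * E)) := by
          apply Real.rpow_le_rpow_of_exponent_le (by norm_num)
          exact mul_le_mul_of_nonneg_left hm (by positivity)
  have h4 : (2 : ℝ) ^ ((g + N + 1) ^ 2) ≤ (2 : ℝ) ^ (9 * E ^ 2) := by
    rw [← Real.rpow_natCast]
    apply Real.rpow_le_rpow_of_exponent_le (by norm_num)
    push_cast
    have h5 : ((g : ℝ) + N + 1) ≤ 3 * E := by linarith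
    calc ((g : ℝ) + N + 1) ^ 2 ≤ (3 * E) ^ 2 := pow_le_pow_left₀ (by positivity) h5 2
      _ = 9 * E ^ 2 := by ring
  have h5 : 2 * (lam + 1) * (2 * E) + 9 * E ^ 2 ≤ Real.exp (2 * μ * lam) := by
    have h6 : E ≤ E ^ 2 := by nlinarith
    have h7 : 2 * (lam + 1) * (2 * E) ≤ 4 * (lam + 1) * E ^ 2 := by nlinarith
    have h8 : Real.exp (2 * μ * lam) = Real.exp (4 * κ * lam) * E ^ 2 := by
      rw [hE, ← Real.exp_nat_mul, ← Real.exp_add]
      congr 1
      push_cast
      ring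
    rw [h8]
    have h9 : (13 + 4 * lam) * E ^ 2 ≤ Real.exp (4 * κ * lam) * E ^ 2 :=
      mul_le_mul_of_nonneg_right hgr (by positivity)
    linarith
  push_cast
  calc ((n : ℝ) + 1) ^ (g + N) * 2 ^ ((g + N + 1) ^ 2)
      ≤ (2 : ℝ) ^ (2 * (lam + 1) * (2 * E)) * (2 : ℝ) ^ (9 * E ^ 2) :=
        mul_le_mul h3 h4 (by positivity) (by positivity)
    _ = (2 : ℝ) ^ (2 * (lam + 1) * (2 * E) + 9 * E ^ 2) := by
        rw [← Real.rpow_add (by norm_num)]
    _ ≤ (2 : ℝ) ^ (Real.exp (2 * μ * lam)) :=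
        Real.rpow_le_rpow_of_exponent_le (by norm_num) h5

/-- the first failure term -/
theorem fail_small {n g N w : ℕ} {lam μ κ E a α b : ℝ} (hκ : 0 < κ) (hμ : 2 * κ < μ)
    (hα : 0 < α) (hea : Real.exp (-α) = 1 - p) (h0 : 0 < p) (h1 : p < 1)
    (hn1exp : (n : ℝ) + 1 ≤ Real.exp (lam + 1)) (hlam : 1 ≤ lam)
    (hE : E = Real.exp ((μ - 2 * κ) * lam)) (hE1 : 1 ≤ E) (hg : (g : ℝ) ≤ E) (hN : (N : ℝ) ≤ E)
    (hg2 : (g : ℝ) ≤ (1 - μ + κ) * (lam / α) + 1) (hw : Real.exp lam / 8 ≤ w)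
    (hb : b = Real.exp (-α) / 8) (ha : 0 ≤ a)
    (hgr : (4 * (lam + 1) + (a + 1) * lam) / b ≤ Real.exp (κ * lam)) :
    ((n : ℝ) + 1) ^ g * (n + 1) ^ N * (1 - (1 - p) ^ g) ^ w ≤ Real.exp (-((a + 1) * lam)) := by
  have hb0 : 0 < b := by rw [hb]; positivity
  have hq0 : 0 ≤ 1 - p := by linarith
  have e1 : ((n : ℝ) + 1) ^ g * (n + 1) ^ N ≤ Real.exp (2 * (lam + 1) * E) := by
    rw [← pow_add]
    calc ((n : ℝ) + 1) ^ (g + N) ≤ (Real.exp (lam + 1)) ^ (g + N) :=
          pow_le_pow_left₀ (by positivity) hn1exp _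
      _ = Real.exp (((g + N : ℕ) : ℝ) * (lam + 1)) := by rw [Real.exp_nat_mul]
      _ ≤ Real.exp (2 * (lam + 1) * E) := by
          apply Real.exp_le_exp.2
          push_cast
          nlinarith
  have e2 : (1 - (1 - p) ^ g) ^ w ≤ Real.exp (-(b * Real.exp ((μ - κ) * lam))) := by
    have h2 : (1 - p) ^ g = Real.exp (-(α * g)) := by
      rw [← hea, ← Real.exp_nat_mul]
      congr 1
      ring
    have h3 : Real.exp (-((1 - μ + κ) * lam + α)) ≤ (1 - p) ^ g := by
      rw [h2]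
      apply Real.exp_le_exp.2
      have h4 : α * g ≤ α * ((1 - μ + κ) * (lam / α) + 1) := mul_le_mul_of_nonneg_left hg2 hα.le
      have h5 : α * ((1 - μ + κ) * (lam / α) + 1) = (1 - μ + κ) * lam + α := by
        field_simp
      linarith
    have h6 : 1 - (1 - p) ^ g ≤ Real.exp (-((1 - p) ^ g)) := by
      have := Real.add_one_le_exp (-((1 - p) ^ g))
      linarith
    have h7 : 0 ≤ 1 - (1 - p) ^ g := by
      have := pow_le_one₀ (n := g) hq0 (by linarith)
      linarith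
    calc (1 - (1 - p) ^ g) ^ w ≤ (Real.exp (-((1 - p) ^ g))) ^ w := pow_le_pow_left₀ h7 h6 _
      _ = Real.exp (-((w : ℝ) * (1 - p) ^ g)) := by
          rw [← Real.exp_nat_mul]
          congr 1
          ring
      _ ≤ Real.exp (-(b * Real.exp ((μ - κ) * lam))) := by
          apply Real.exp_le_exp.2
          rw [neg_le_neg_iff]
          calc b * Real.exp ((μ - κ) * lam)
              = Real.exp lam / 8 * Real.exp (-((1 - μ + κ) * lam + α)) := by
                rw [hb, div_mul_eq_mul_div, div_mul_eq_mul_div, ← Real.exp_add, ← Real.exp_add]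
                congr 2
                ring
            _ ≤ w * (1 - p) ^ g := mul_le_mul hw h3 (Real.exp_pos _).le (by positivity)
  have h8 : 0 ≤ (1 - (1 - p) ^ g) ^ w := by
    refine pow_nonneg ?_ _
    have := pow_le_one₀ (n := g) hq0 (by linarith)
    linarith
  calc ((n : ℝ) + 1) ^ g * (n + 1) ^ N * (1 - (1 - p) ^ g) ^ w
      ≤ Real.exp (2 * (lam + 1) * E) * Real.exp (-(b * Real.exp ((μ - κ) * lam))) :=
        mul_le_mul e1 e2 h8 (Real.exp_pos _).le
    _ = Real.exp (2 * (lam + 1) * E + -(b * Real.exp ((μ - κ) * lam))) := by rw [Real.exp_add]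
    _ ≤ Real.exp (-((a + 1) * lam)) := by
        apply Real.exp_le_exp.2
        rw [div_le_iff₀ hb0] at hgr
        have h9 : Real.exp ((μ - κ) * lam) = Real.exp (κ * lam) * E := by
          rw [hE, ← Real.exp_add]
          congr 1
          ring
        rw [h9]
        have h10 : (4 * (lam + 1) + (a + 1) * lam) * E ≤ Real.exp (κ * lam) * b * E :=
          mul_le_mul_of_nonneg_right hgr (by linarith)
        have h11 : (a + 1) * lam ≤ (a + 1) * lam * E :=
          le_mul_of_one_le_right (by positivity) hE1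
        have h12 : 0 ≤ (lam + 1) * E := by positivity
        nlinarith

theorem upper (h0 : 0 < p) (h1 : p < 1) {μ ε a : ℝ} (hμ0 : 0 < μ) (hμ1 : μ ≤ 1) (hε : 0 < ε)
    (hε1 : ε ≤ 1) (ha : 0 ≤ a) : ∀ᶠ n : ℕ in atTop, ∃ (Q : Type) (_ : Fintype Q)
      (A : RowAlg n Q), (Fintype.card Q : ℝ) ≤ (2 : ℝ) ^ ((n : ℝ) ^ (2 * μ)) ∧
      (∀ G, Indep G (A.result G)) ∧
      Prob p (fun G => ¬ (1 + μ - ε) * LL p n ≤ (A.result G).card) ≤ (n : ℝ) ^ (-a) := by
  obtain ⟨α, hα⟩ : ∃ α : ℝ, α = -Real.log (1 - p) := ⟨_, rfl⟩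
  have hα0 : 0 < α := by rw [hα]; exact neg_log_pos h0 h1
  have hea : Real.exp (-α) = 1 - p := by rw [hα, neg_neg, Real.exp_log (by linarith)]
  obtain ⟨κ, hκ⟩ : ∃ κ : ℝ, κ = min (ε / 10) (μ / 8) := ⟨_, rfl⟩
  have hκ0 : 0 < κ := by rw [hκ]; exact lt_min (by positivity) (by positivity)
  have hκε : κ ≤ ε / 10 := by rw [hκ]; exact min_le_left _ _
  have hκμ : κ ≤ μ / 8 := by rw [hκ]; exact min_le_right _ _
  obtain ⟨b, hb⟩ : ∃ b : ℝ, b = Real.exp (-α) / 8 := ⟨_, rfl⟩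
  have hb0 : 0 < b := by rw [hb]; positivity
  have hy0 : 0 < μ - 2 * κ := by linarith
  have hy1 : 0 < μ - 3 * κ := by linarith
  obtain ⟨a', ha'⟩ : ∃ a' : ℝ, a' = (a + 1) / (μ - 3 * κ) := ⟨_, rfl⟩
  have ha'0 : 0 ≤ a' := by rw [ha']; positivity
  have hlow := (Pool.Agent.H51Q.floor_tendsto hy0).eventually
    (Pool.Agent.H72.KarpS.alpha_low (p := p) h0 h1 hκ0 (by linarith) ha'0)
  filter_upwards [hlow, log_nat_tendsto.eventually_ge_atTop 1, eventually_ge_atTop 32,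
    log_nat_tendsto.eventually_ge_atTop (1 / κ), log_nat_tendsto.eventually_ge_atTop α,
    poly_le_exp (17 : ℝ) 1 (show 0 < 4 * κ by linarith),
    poly_le_exp (3 / α + 1) 1 hy0,
    poly_le_exp (8 : ℝ) 1 (show (0 : ℝ) < 1 - (μ - 2 * κ) by linarith),
    poly_le_exp ((4 * 2 + (a + 1)) / b) 1 hκ0]
    with n l1 e1 e2 e3 e4 g1 g2 g3 g4
  obtain ⟨lam, hlam⟩ : ∃ lam : ℝ, lam = Real.log (n : ℝ) := ⟨_, rfl⟩
  rw [← hlam] at e1 e3 e4 g1 g2 g3 g4
  rw [pow_one] at g1 g2 g3 g4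
  have hn0 : (0 : ℝ) < n := by
    exact_mod_cast (show 0 < n by omega)
  have hn32 : (32 : ℝ) ≤ n := by exact_mod_cast e2
  have hnexp : (n : ℝ) = Real.exp lam := by rw [hlam, Real.exp_log hn0]
  have hrp : ∀ y : ℝ, (n : ℝ) ^ y = Real.exp (y * lam) := by
    intro y
    rw [Real.rpow_def_of_pos hn0, ← hlam, mul_comm]
  have hLL : LL p n = lam / α := by rw [LL_eq, ← hα, ← hlam]
  have hL0 : 0 < lam / α := by positivity
  have hL1 : 1 ≤ lam / α := by
    rw [le_div_iff₀ hα0]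
    linarith
  have hn1exp : (n : ℝ) + 1 ≤ Real.exp (lam + 1) := by
    rw [Real.exp_add, ← hnexp]
    have h2 := Real.add_one_le_exp (1 : ℝ)
    have h4 : (n : ℝ) * 2 ≤ n * Real.exp 1 := mul_le_mul_of_nonneg_left (by linarith) hn0.le
    linarith
  obtain ⟨E, hE⟩ : ∃ E : ℝ, E = Real.exp ((μ - 2 * κ) * lam) := ⟨_, rfl⟩
  have hE1 : 1 ≤ E := by rw [hE]; exact Real.one_le_exp (by positivity)
  obtain ⟨g, hg⟩ : ∃ g : ℕ, g = ⌈(1 - μ + κ) * (lam / α)⌉₊ := ⟨_, rfl⟩
  have hκp : 0 ≤ 1 - μ + κ := by linarith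
  have hg1 : (1 - μ + κ) * (lam / α) ≤ g := by rw [hg]; exact Nat.le_ceil _
  have hg2 : (g : ℝ) < (1 - μ + κ) * (lam / α) + 1 := by
    rw [hg]
    exact Nat.ceil_lt_add_one (by positivity)
  obtain ⟨N, hN⟩ : ∃ N : ℕ, N = ⌊(n : ℝ) ^ (μ - 2 * κ)⌋₊ := ⟨_, rfl⟩
  rw [← hN] at l1
  have hN1 : (N : ℝ) ≤ E := by
    rw [hN, hE, ← hrp]
    exact Nat.floor_le (by positivity)
  have hN2 : E < N + 1 := by
    rw [hN, hE, ← hrp]
    exact Nat.lt_floor_add_one _
  have hgE : (g : ℝ) ≤ E := by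
    have h2 : (1 - μ + κ) * (lam / α) ≤ 2 * (lam / α) :=
      mul_le_mul_of_nonneg_right (by linarith) hL0.le
    have h3 : (3 / α + 1) * lam = 3 * (lam / α) + lam := by ring
    rw [h3, ← hE] at g2
    linarith
  have hE8 : 8 * E ≤ n := by
    have h2 : Real.exp ((1 - (μ - 2 * κ)) * lam) * E = n := by
      rw [hE, ← Real.exp_add, hnexp]
      congr 1
      ring
    rw [← h2]
    refine mul_le_mul_of_nonneg_right ?_ (by linarith)
    linarith
  -- the halves
  have hdiv2 : n ≤ 2 * (n / 2) + 1 := by omega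
  have hdiv4 : n ≤ 4 * (n / 4) + 3 := by omega
  have hwr : (n : ℝ) / 8 ≤ ((n / 4 : ℕ) : ℝ) := by
    have : (n : ℝ) ≤ 4 * ((n / 4 : ℕ) : ℝ) + 3 := by exact_mod_cast hdiv4
    linarith
  have hg8 : 8 * g ≤ n := by
    have : 8 * (g : ℝ) ≤ n := by linarith
    exact_mod_cast this
  have hN8 : 8 * N ≤ n := by
    have : 8 * (N : ℝ) ≤ n := by linarith
    exact_mod_cast this
  have hw1 : n / 4 + g ≤ n / 2 := by omega
  have hw2 : n / 4 + n / 2 + N ≤ n := by omega
  refine ⟨KState n (g + N), inferInstance, keepAlg n (n / 2) g N, ?_, ?_, ?_⟩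
  · rw [hrp]
    refine le_trans ?_ (states_small hn1exp e1 hE hE1 hgE hN1 ?_)
    · exact_mod_cast card_KState n (g + N)
    · have : 17 * lam ≤ Real.exp (4 * κ * lam) := g1
      linarith
  · exact fun G => (keep_result G).1
  · obtain ⟨x, hx⟩ : ∃ x : ℝ, x = (2 - κ) * LL p N := ⟨_, rfl⟩
    have hlogN : (μ - 3 * κ) * lam ≤ Real.log (N : ℝ) := by
      have h2 : Real.exp ((μ - 3 * κ) * lam) ≤ N := by
        have h3 : E = Real.exp ((μ - 3 * κ) * lam) * Real.exp (κ * lam) := by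
          rw [hE, ← Real.exp_add]
          congr 1
          ring
        have h4 : 2 ≤ Real.exp (κ * lam) := by
          have h5 := Real.add_one_le_exp (κ * lam)
          have h6 : 1 ≤ κ * lam := by
            rw [div_le_iff₀ hκ0] at e3
            linarith
          linarith
        have h7 : 1 ≤ Real.exp ((μ - 3 * κ) * lam) := Real.one_le_exp (by positivity)
        have h8 : Real.exp ((μ - 3 * κ) * lam) * 2 ≤ E := by
          rw [h3]
          exact mul_le_mul_of_nonneg_left h4 (by linarith)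
        linarith
      rw [Real.le_log_iff_exp_le]
      · exact h2
      · exact lt_of_lt_of_le (Real.exp_pos _) h2
    have hNpos : (0 : ℝ) < N := by
      have h2 : 0 < Real.log (N : ℝ) := lt_of_lt_of_le (by positivity) hlogN
      by_contra hcon
      have h3 : (N : ℝ) = 0 := le_antisymm (not_lt.1 hcon) (by positivity)
      rw [h3, Real.log_zero] at h2
      exact lt_irrefl _ h2
    have hsize : (1 + μ - ε) * LL p n ≤ g + x := by
      have h2 : (μ - 3 * κ) * (lam / α) ≤ LL p N := by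
        rw [LL_eq, ← hα]
        have h3 : (μ - 3 * κ) * (lam / α) = (μ - 3 * κ) * lam / α := by ring
        rw [h3]
        exact div_le_div_of_nonneg_right hlogN hα0.le
      have h3 : (2 - κ) * ((μ - 3 * κ) * (lam / α)) ≤ x := by
        rw [hx]
        exact mul_le_mul_of_nonneg_left h2 (by linarith)
      rw [hLL]
      have h4 : (1 + μ - ε) * (lam / α)
          ≤ ((1 - μ + κ) + (2 - κ) * (μ - 3 * κ)) * (lam / α) := by
        refine mul_le_mul_of_nonneg_right ?_ hL0.le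
        nlinarith
      have h5 : ((1 - μ + κ) + (2 - κ) * (μ - 3 * κ)) * (lam / α)
          = (1 - μ + κ) * (lam / α) + (2 - κ) * ((μ - 3 * κ) * (lam / α)) := by ring
      linarith
    have hfail := keep_fail (n := n) (h := n / 2) (g := g) (N := N) h0 h1 hw1 hw2 x
    have t1 := fail_small (n := n) (g := g) (N := N) (w := n / 4) (a := a) hκ0 (by linarith) hα0
      hea h0 h1 hn1exp e1 hE hE1 hgE hN1 hg2.le (by rw [← hnexp]; exact hwr) hb ha (by
        refine le_trans ?_ g4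
        rw [div_mul_eq_mul_div]
        refine div_le_div_of_nonneg_right ?_ hb0.le
        nlinarith)
    have t2 : (N : ℝ) ^ (-a') ≤ Real.exp (-((a + 1) * lam)) := by
      rw [Real.rpow_def_of_pos hNpos]
      apply Real.exp_le_exp.2
      have h2 : (μ - 3 * κ) * lam * a' ≤ Real.log (N : ℝ) * a' :=
        mul_le_mul_of_nonneg_right hlogN ha'0
      have h3 : (μ - 3 * κ) * lam * a' = (a + 1) * lam := by
        rw [ha']
        field_simp
      linarith
    have t3 : 3 * Real.exp (-((a + 1) * lam)) ≤ (n : ℝ) ^ (-a) := by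
      rw [hrp]
      have h2 : Real.exp (-a * lam) = Real.exp (-((a + 1) * lam)) * n := by
        rw [hnexp, ← Real.exp_add]
        congr 1
        ring
      rw [h2, mul_comm]
      refine mul_le_mul_of_nonneg_left ?_ (Real.exp_pos _).le
      linarith
    calc Prob p (fun G => ¬ (1 + μ - ε) * LL p n ≤ ((keepAlg n (n / 2) g N).result G).card)
        ≤ Prob p (fun G : SimpleGraph (Fin n) =>
          ¬ (g : ℝ) + x ≤ ((keepAlg n (n / 2) g N).result G).card) := by
          refine Prob_mono h0 h1 fun G hG h2 => hG (hsize.trans h2)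
      _ ≤ _ := hfail
      _ ≤ 2 * Real.exp (-((a + 1) * lam)) + Real.exp (-((a + 1) * lam)) := by
          refine add_le_add (mul_le_mul_of_nonneg_left t1 (by norm_num)) (le_trans ?_ t2)
          rw [hx]
          exact l1
      _ ≤ (n : ℝ) ^ (-a) := by linarith

end Pool.Agent.H61S
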